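import Pool.Agent.Mg.Fd228e7p.Gbd53b9

set_option linter.all false

/-!
The order of the lower tail.
-/

set_option autoImplicit false

open Finset

noncomputable section

namespace Pool.Agent.MP_d228e7_nt.T

open Pool.Agent.MP_cebb75_nt Pool.Agent.MP_fdd1d3_nt N435e839e

theorem key2 : ∃ C : ℝ, 0 ≤ C ∧ ∀ X y j L : ℕ, 2 ^ 100 ≤ L → 2 ^ 60 ≤ j → j ≤ L → 2 ^ L ≤ y →
    y < 2 ^ (L + 1) → ∀ Z : ℝ, Z ≤ 4 * √L → Z ≤ Real.exp (j / 2 ^ 31) →
    (((Ioc X (X + y)).filter fun n =>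
      C < |∑ a ∈ Ioc (2 ^ j) y, hh n a - eg * (Real.log L - Real.log j)|).card : ℝ) ≤
      2 * (y * Real.exp (-Z)) ∧ 1 ≤ y * Real.exp (-Z) := by
  obtain ⟨C, hC, h⟩ := key
  refine ⟨3 * C, by positivity, fun X y j L a0 a1 a2 a3 a4 Z z1 z2 => ?_⟩
  obtain ⟨σ, hσ⟩ : ∃ σ, σ = Nat.log 2 L := ⟨_, rfl⟩
  have l1 : 100 ≤ σ := hσ ▸ Nat.le_log_of_pow_le one_lt_two a0
  have l3 : 2 ^ σ ≤ L := hσ ▸ Nat.pow_log_le_self 2 (by omega)
  have l4 : L < 2 ^ (σ + 1) := hσ ▸ Nat.lt_pow_succ_log_self one_lt_two L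
  have l5 := (pow_le_two_pow (2 ^ 68) 1 4 100 (by norm_num) (by norm_num) (by norm_num) l1).trans l3
  have hL : (0 : ℝ) < L := by exact_mod_cast (by omega : 0 < L)
  have hy : (1 : ℝ) ≤ y := by exact_mod_cast Nat.one_le_two_pow.trans a3
  have b1 : Real.log L / 2 ^ σ ≤ 2 := by
    have : (L : ℝ) ≤ 2 ^ (σ + 1) := by exact_mod_cast l4.le
    rw [div_le_iff₀ (by positivity), ← pow_succ']
    linarith [Real.log_le_sub_one_of_pos hL]
  have b2 : 2 ^ 34 * ((σ : ℝ) + 1) ^ 2 ≤ √L := by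
    refine Real.le_sqrt_of_sq_le ?_
    rw [mul_pow, ← pow_mul, ← pow_mul]
    exact_mod_cast l5
  have b3 : (y : ℝ) ^ (1 - 1 / 2 ^ 31 / ((σ : ℝ) + 1) ^ 2) ≤ y * Real.exp (-Z) := by
    rw [sub_eq_add_neg, Real.rpow_add (by linarith), Real.rpow_one,
      Real.rpow_def_of_pos (by linarith), mul_neg]
    refine mul_le_mul_of_nonneg_left (Real.exp_le_exp.2 (neg_le_neg (z1.trans ?_))) (by linarith)
    rw [div_div, mul_one_div, le_div_iff₀ (by positivity)]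
    have c1 := mul_le_mul_of_nonneg_left b2 (Real.sqrt_nonneg L)
    rw [Real.mul_self_sqrt hL.le] at c1
    linarith [(loglog (by omega) a3 a4).2.2.2]
  refine ⟨le_trans (Nat.cast_le.2 (card_le_card (monotone_filter_right _ fun n _ hn =>
    lt_of_le_of_lt ?_ hn))) ((h X y j σ L a1 a2 l3 a3 a4).trans ?_), le_trans ?_ b3⟩
  · linarith [mul_le_mul_of_nonneg_left b1 hC]
  · linarith [mul_le_mul_of_nonneg_left (Real.exp_le_exp.2 (neg_le_neg z2))
      (show (0 : ℝ) ≤ y by linarith)]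
  · refine Real.one_le_rpow hy (sub_nonneg.2 (div_le_one_of_le₀ ?_ (by positivity)))
    have : (1 : ℝ) ≤ ((σ : ℝ) + 1) ^ 2 := one_le_pow₀ (by linarith [Nat.cast_nonneg (α := ℝ) σ])
    exact le_trans (by norm_num) this

theorem no_small {n j : ℕ} (h : primorial (2 ^ j) ∣ n) : ∑ a ∈ Ioc 0 (2 ^ j), hh n a ≤ 1 := by
  rw [← sum_Ioc_consecutive _ (Nat.zero_le 1) Nat.one_le_two_pow,
    sum_eq_zero (s := Ioc 1 _) fun a ha => ?_]
  · simpa using hh_le_one n 1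
  · obtain ⟨h1, h2⟩ := mem_Ioc.1 ha
    refine if_neg fun hs => ?_
    have hp := Nat.minFac_prime h1.ne'
    have h3 : a.minFac ∣ n :=
      (hp.dvd_primorial_iff.2 ((Nat.minFac_le (by omega)).trans h2)).trans h
    exact hp.one_lt.ne' (Nat.eq_one_of_dvd_coprimes (sel_cop0 hs h1)
      (Nat.dvd_sub h3 (Nat.minFac_dvd a)) h3)

theorem mult_card (X y : ℕ) {Q : ℕ} (hQ : 0 < Q) :
    (y : ℝ) / Q - 1 ≤ ((Ioc X (X + y)).filter (Q ∣ ·)).card := by
  have h1 : ((Ioc 0 (X + y)).filter (Q ∣ ·)).card ≤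
      ((Ioc 0 X).filter (Q ∣ ·)).card + ((Ioc X (X + y)).filter (Q ∣ ·)).card := by
    rw [← Ioc_union_Ioc_eq_Ioc (Nat.zero_le X) (Nat.le_add_right X y), filter_union]
    exact card_union_le _ _
  rw [Nat.Ioc_filter_dvd_card_eq_div, Nat.Ioc_filter_dvd_card_eq_div] at h1
  have h2 := Nat.div_add_div_le_add_div (x := X) (y := y) (z := Q)
  have h3 := Nat.lt_mul_div_succ y hQ
  have h4 : y ≤ (((Ioc X (X + y)).filter (Q ∣ ·)).card + 1) * Q := by
    rw [mul_comm]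
    exact h3.le.trans (Nat.mul_le_mul_left _ (by omega))
  rw [sub_le_iff_le_add, div_le_iff₀ (by exact_mod_cast hQ)]
  exact_mod_cast h4

theorem eg_mul : eg * Real.exp Real.eulerMascheroniConstant = 1 := by
  rw [eg, ← Real.exp_add, neg_add_cancel, Real.exp_zero]

theorem G_bd : 1 ≤ Real.exp Real.eulerMascheroniConstant ∧ 1 / 3 ≤ eg := by
  refine ⟨Real.one_le_exp (by linarith [Real.one_half_lt_eulerMascheroniConstant]), ?_⟩
  have := Real.exp_le_exp.2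
    (show Real.eulerMascheroniConstant ≤ 1 by linarith [Real.eulerMascheroniConstant_lt_two_thirds])
  nlinarith [eg_mul, eg_pos, Real.exp_one_lt_d9]

theorem tail_up {C₁ B t u ll : ℝ} {X y L : ℕ} (hB : 3 * (C₁ + 1) ≤ B) (hC₁ : 0 ≤ C₁)
    (hk : ∀ j : ℕ, 2 ^ 60 ≤ j → j ≤ L → ∀ Z : ℝ, Z ≤ 4 * √L → Z ≤ Real.exp (j / 2 ^ 31) →
      (((Ioc X (X + y)).filter fun n =>
        C₁ < |∑ a ∈ Ioc (2 ^ j) y, hh n a - eg * (Real.log L - Real.log j)|).card : ℝ) ≤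
        2 * (y * Real.exp (-Z)) ∧ 1 ≤ y * Real.exp (-Z))
    (hy : 2 ^ L ≤ y) (hL : 1 ≤ L) (l2 : ll ≤ Real.log L) (hu : eg * u = t) (u1 : B + 61 ≤ u)
    (u2 : Real.exp (u + (B + 61)) ≤ Real.log L) :
    (((Ioc X (X + y)).filter fun n => ∑ a ∈ Ioc 0 y, hh n a ≤ eg * ll - t).card : ℝ) ≤
      y * Real.exp (-Real.exp (Real.exp (u - (B + 61)))) := by
  have hLR : (1 : ℝ) ≤ L := by exact_mod_cast hL
  obtain ⟨j, hj⟩ : ∃ j, j = ⌊Real.exp (u - B)⌋₊ := ⟨_, rfl⟩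
  have a1 : (j : ℝ) ≤ Real.exp (u - B) := hj ▸ Nat.floor_le (by positivity)
  have a2 : Real.exp (u - B) < j + 1 := hj ▸ Nat.lt_floor_add_one _
  have a3 : 2 ^ 61 * Real.exp (u - (B + 61)) ≤ Real.exp (u - B) := by
    rw [show u - B = (61 : ℕ) + (u - (B + 61)) by push_cast; ring, Real.exp_add]
    exact mul_le_mul_of_nonneg_right (two_pow_le_exp 61) (by positivity)
  have a4 : 1 ≤ Real.exp (u - (B + 61)) := Real.one_le_exp (by linarith)
  have a5 : 2 ^ 60 ≤ j := by exact_mod_cast (by linarith : (2 : ℝ) ^ 60 ≤ j)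
  have a6 : j ≤ L := by
    have := Real.exp_le_exp.2 (show u - B ≤ u + (B + 61) by linarith)
    exact_mod_cast (by linarith [Real.log_le_sub_one_of_pos (show (0 : ℝ) < L by linarith)] :
      (j : ℝ) ≤ L)
  have a7 : Real.log j ≤ u - B :=
    (Real.log_le_iff_le_exp (by exact_mod_cast (by omega : 0 < j))).2 a1
  set E := Real.exp (Real.exp (u - (B + 61))) with hE
  have e1 : 1 ≤ E := Real.one_le_exp (by linarith)
  have e2 : E ≤ √L := by
    refine Real.le_sqrt_of_sq_le ?_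
    rw [hE, ← Real.exp_nat_mul, ← Real.le_log_iff_exp_le (by linarith)]
    have := Real.exp_le_exp.2 (show u - B ≤ u + (B + 61) by linarith)
    push_cast
    linarith
  have e3 : E + 1 ≤ Real.exp (j / 2 ^ 31) := by
    refine le_trans ?_ (Real.exp_le_exp.2 (show Real.exp (u - (B + 61)) + 1 ≤ j / 2 ^ 31 by
      rw [le_div_iff₀ (by positivity)]
      linarith))
    rw [Real.exp_add]
    nlinarith [Real.exp_one_gt_d9]
  refine le_trans (Nat.cast_le.2 (card_le_card (monotone_filter_right _ fun n _ hn => ?_)))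
    ((hk j a5 a6 (E + 1) (by linarith) e3).1.trans ?_)
  · have c3 := sum_Ioc_consecutive (hh n) (Nat.zero_le _)
      ((Nat.pow_le_pow_right two_pos a6).trans hy)
    have c5 : 0 ≤ ∑ a ∈ Ioc 0 (2 ^ j), hh n a := sum_nonneg fun _ _ => hh_nonneg _ _
    have c6 := mul_le_mul_of_nonneg_left l2 eg_pos.le
    have c7 := mul_le_mul_of_nonneg_left a7 eg_pos.le
    have c8 := mul_le_mul G_bd.2 hB (by positivity) eg_pos.le
    refine lt_of_lt_of_le ?_ (neg_le_abs _)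
    linarith
  · rw [neg_add, Real.exp_add, ← mul_assoc, ← mul_assoc, mul_right_comm, mul_comm 2, mul_assoc (y : ℝ)]
    refine mul_le_mul_of_nonneg_right (mul_le_of_le_one_right (by positivity) ?_) (by positivity)
    rw [Real.exp_neg, ← div_eq_mul_inv]
    exact div_le_one_of_le₀ (by linarith [Real.exp_one_gt_d9]) (by positivity)

theorem tail_low {C₁ C₂ B t u ll : ℝ} {X y L : ℕ} (hB : 3 * (C₁ + 33 * C₂ + 2) ≤ B) (hC₁ : 0 ≤ C₁)
    (hC₂ : 0 ≤ C₂) (hb : ∀ n A B : ℕ, 1 ≤ A → A ≤ B →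
      ∑ a ∈ Ioc (2 ^ A) (2 ^ B), hh n a ≤ C₂ * (Real.log B - Real.log A + 1))
    (hk : ∀ j : ℕ, 2 ^ 60 ≤ j → j ≤ L → ∀ Z : ℝ, Z ≤ 4 * √L → Z ≤ Real.exp (j / 2 ^ 31) →
      (((Ioc X (X + y)).filter fun n =>
        C₁ < |∑ a ∈ Ioc (2 ^ j) y, hh n a - eg * (Real.log L - Real.log j)|).card : ℝ) ≤
        2 * (y * Real.exp (-Z)) ∧ 1 ≤ y * Real.exp (-Z))
    (hy : 2 ^ L ≤ y) (hL : 1 ≤ L) (l3 : Real.log L ≤ ll + 1) (hu : eg * u = t) (u1 : B + 61 ≤ u)
    (u2 : Real.exp (u + (B + 61)) ≤ Real.log L) :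
    y * Real.exp (-Real.exp (Real.exp (u + (B + 61)))) ≤
      (((Ioc X (X + y)).filter fun n => ∑ a ∈ Ioc 0 y, hh n a ≤ eg * ll - t).card : ℝ) := by
  have hLR : (1 : ℝ) ≤ L := by exact_mod_cast hL
  have hB0 : 0 ≤ B := le_trans (by positivity) hB
  obtain ⟨i, hi⟩ : ∃ i, i = ⌈Real.exp (u + B)⌉₊ := ⟨_, rfl⟩
  have a0 : (2 : ℝ) ^ 61 ≤ Real.exp (u + B) :=
    (two_pow_le_exp 61).trans (Real.exp_le_exp.2 (by push_cast; linarith))
  have a1 : Real.exp (u + B) ≤ i := hi ▸ Nat.le_ceil _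
  have a2 : (i : ℝ) ≤ 2 * Real.exp (u + B) := hi ▸ ceil_le (by linarith)
  have a3 : 2 ^ 61 * Real.exp (u + B) ≤ Real.exp (u + (B + 61)) := by
    rw [show u + (B + 61) = (61 : ℕ) + (u + B) by push_cast; ring, Real.exp_add (61 : ℕ)]
    exact mul_le_mul_of_nonneg_right (two_pow_le_exp 61) (by positivity)
  have a4 : 2 ^ 61 ≤ i := by exact_mod_cast a0.trans a1
  have hi0 : (0 : ℝ) < i := by linarith
  have a6 : 2 ^ 32 * i ≤ L := by
    exact_mod_cast (by linarith [Real.log_le_sub_one_of_pos (show (0 : ℝ) < L by linarith)] :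
      (2 : ℝ) ^ 32 * i ≤ L)
  have a7 : u + B ≤ Real.log i := (Real.le_log_iff_exp_le hi0).2 a1
  have a8 : Real.log ((2 ^ 32 * i : ℕ) : ℝ) = 32 * Real.log 2 + Real.log i := by
    push_cast
    rw [show (4294967296 : ℝ) = 2 ^ 32 by norm_num, Real.log_mul (by positivity) hi0.ne',
      Real.log_pow]
    norm_num
  set E := Real.exp i with hE
  have e1 : 3 ≤ E := by linarith [Real.add_one_le_exp (i : ℝ)]
  have e2 : E ≤ √L := by
    refine Real.le_sqrt_of_sq_le ?_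
    rw [hE, ← Real.exp_nat_mul, ← Real.le_log_iff_exp_le (by linarith)]
    push_cast
    linarith
  have e3 : 2 * E + 2 ≤ Real.exp (((2 ^ 32 * i : ℕ) : ℝ) / 2 ^ 31) := by
    rw [show ((2 ^ 32 * i : ℕ) : ℝ) / 2 ^ 31 = i + i by push_cast; ring, Real.exp_add]
    nlinarith
  obtain ⟨k1, k2⟩ := hk (2 ^ 32 * i) (by omega) a6 (2 * E + 2) (by linarith) e3
  have q1 : y * Real.exp (-(2 * E)) ≤ y / primorial (2 ^ i) := by
    rw [Real.exp_neg, ← div_eq_mul_inv]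
    refine div_le_div_of_nonneg_left (by positivity) (by exact_mod_cast primorial_pos _) ?_
    refine le_trans (show _ ≤ (2 : ℝ) ^ (2 * 2 ^ i) by
      rw [pow_mul]
      exact_mod_cast primorial_le_four_pow _) ((two_pow_le_exp _).trans (Real.exp_le_exp.2 ?_))
    push_cast
    linarith [two_pow_le_exp i]
  have q2 := mult_card X y (primorial_pos (2 ^ i))
  have q3 : ((Ioc X (X + y)).filter (primorial (2 ^ i) ∣ ·)).card ≤
      ((Ioc X (X + y)).filter fun n => ∑ a ∈ Ioc 0 y, hh n a ≤ eg * ll - t).card +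
      ((Ioc X (X + y)).filter fun n => C₁ < |∑ a ∈ Ioc (2 ^ (2 ^ 32 * i)) y, hh n a -
        eg * (Real.log L - Real.log (2 ^ 32 * i : ℕ))|).card := by
    refine (card_le_card fun n hn => ?_).trans (card_union_le _ _)
    obtain ⟨c1, c2⟩ := mem_filter.1 hn
    simp only [mem_union, mem_filter, c1, true_and]
    refine or_iff_not_imp_right.2 fun h => ?_
    have c3 := (abs_le.1 (not_lt.1 h)).2
    have c4 := sum_Ioc_consecutive (hh n) (Nat.zero_le _)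
      ((Nat.pow_le_pow_right two_pos a6).trans hy)
    have c5 := sum_Ioc_consecutive (hh n) (Nat.zero_le _)
      (Nat.pow_le_pow_right two_pos (show i ≤ 2 ^ 32 * i by omega))
    have c6 := no_small c2
    have c7 := (hb n i (2 ^ 32 * i) (by omega) (by omega)).trans (mul_le_mul_of_nonneg_left
      (show _ ≤ (33 : ℝ) by linarith [Real.log_two_lt_d9]) hC₂)
    have c8 := mul_le_mul_of_nonneg_left l3 eg_pos.le
    have c9 := mul_le_mul_of_nonneg_left (show u + B ≤ Real.log ((2 ^ 32 * i : ℕ) : ℝ) by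
      linarith [Real.log_two_gt_d9]) eg_pos.le
    have c10 := mul_le_mul G_bd.2 hB (by positivity) eg_pos.le
    linarith [eg_le]
  rw [← Nat.cast_le (α := ℝ), Nat.cast_add] at q3
  have q4 : Real.exp (-Real.exp (Real.exp (u + (B + 61)))) ≤ Real.exp (-(2 * E + 1)) := by
    refine Real.exp_le_exp.2 (neg_le_neg (le_trans ?_
      (Real.exp_le_exp.2 (show (i : ℝ) + 2 ≤ _ by linarith))))
    rw [Real.exp_add]
    nlinarith [Real.add_one_le_exp (2 : ℝ)]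
  have q5 : Real.exp (-1) ≤ 2 / 5 := by
    rw [Real.exp_neg, inv_le_comm₀ (by positivity) (by norm_num)]
    linarith [Real.exp_one_gt_d9]
  have q6 : Real.exp (-(2 * E + 2)) = Real.exp (-(2 * E)) * (Real.exp (-1) * Real.exp (-1)) := by
    rw [← Real.exp_add, ← Real.exp_add]
    congr 1
    ring
  rw [neg_add, Real.exp_add (-(2 * E))] at q4
  rw [q6, ← mul_assoc] at k1 k2
  have q7 := mul_le_mul_of_nonneg_left q4 (Nat.cast_nonneg (α := ℝ) y)
  have q8 : 0 ≤ y * Real.exp (-(2 * E)) := by positivity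
  have q9 := mul_le_mul_of_nonneg_left q5 q8
  have q10 := mul_le_mul_of_nonneg_left (mul_le_mul q5 q5 (by positivity) (by norm_num)) q8
  linarith

theorem tail : ∃ C : ℝ, ∃ y₀ : ℕ, ∀ X y : ℕ, y₀ ≤ y → ∀ t : ℝ, C ≤ t →
    t ≤ eg * Real.log (Real.log (Real.log y)) - C → ∃ θ : ℝ, |θ| ≤ C ∧
    (((Ioc X (X + y)).filter fun n =>
      ∑ a ∈ Ioc 0 y, hh n a ≤ eg * Real.log (Real.log y) - t).card : ℝ) =
      y * Real.exp (-Real.exp (Real.exp (Real.exp Real.eulerMascheroniConstant * t + θ))) := by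
  obtain ⟨C₁, hC₁, h1⟩ := key2
  obtain ⟨C₂, hC₂, h2⟩ := blocks_le
  obtain ⟨J, hJ⟩ : ∃ J : ℕ, 2 ^ 100 ≤ J := ⟨_, le_rfl⟩
  obtain ⟨B, hB⟩ : ∃ B, B = 3 * (C₁ + 33 * C₂ + 2) := ⟨_, rfl⟩
  refine ⟨B + 61, 2 ^ J, fun X y hy t t1 t2 => ?_⟩
  obtain ⟨L, hL⟩ : ∃ L, L = Nat.log 2 y := ⟨_, rfl⟩
  have hy0 : 0 < y := lt_of_lt_of_le (by positivity) hy
  have a1 : 2 ^ L ≤ y := hL ▸ Nat.pow_log_le_self 2 hy0.ne'
  have a2 : y < 2 ^ (L + 1) := hL ▸ Nat.lt_pow_succ_log_self one_lt_two y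
  have a3 : 2 ^ 100 ≤ L := hJ.trans (hL ▸ Nat.le_log_of_pow_le one_lt_two hy)
  obtain ⟨l1, l2, l3, -⟩ := loglog (by omega) a1 a2
  set G := Real.exp Real.eulerMascheroniConstant
  have hB0 : 0 ≤ B + 61 := by rw [hB]; positivity
  have hu : eg * (G * t) = t := by rw [← mul_assoc, eg_mul, one_mul]
  have u1 : B + 61 ≤ G * t := t1.trans (le_mul_of_one_le_left (hB0.trans t1) G_bd.1)
  have u2 : Real.exp (G * t + (B + 61)) ≤ Real.log L := by
    have c1 := mul_le_mul_of_nonneg_left t2 (zero_le_one.trans G_bd.1)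
    rw [mul_sub, ← mul_assoc, mul_comm _ eg, eg_mul, one_mul] at c1
    have c2 := le_mul_of_one_le_left hB0 G_bd.1
    refine le_trans ?_ l2
    rcases l1.eq_or_lt with h | h
    · rw [← h, Real.log_zero] at c1
      linarith [show 0 ≤ B by linarith]
    · exact (Real.le_log_iff_exp_le h).1 (by linarith)
  have b1 := tail_up (ll := Real.log (Real.log y)) (B := B) (by linarith) hC₁
    (fun j c1 c2 => h1 X y j L a3 c1 c2 a1 a2) a1 (by omega) l2 hu u1 u2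
  have b2 := tail_low (ll := Real.log (Real.log y)) hB.ge hC₁ hC₂ h2
    (fun j c1 c2 => h1 X y j L a3 c1 c2 a1 a2) a1 (by omega) l3 hu u1 u2
  have hc : Continuous fun θ : ℝ => y * Real.exp (-Real.exp (Real.exp (G * t + θ))) := by fun_prop
  obtain ⟨θ, c1, c2⟩ := intermediate_value_Icc' (show -(B + 61) ≤ B + 61 by linarith)
    hc.continuousOn ⟨b2, by simpa only [sub_eq_add_neg] using b1⟩
  exact ⟨θ, abs_le.2 c1, c2.symm⟩

end Pool.Agent.MP_d228e7_nt.T
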