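import Pool.Agent.MP_d228e7_nt.T.Defs

set_option linter.all false

section

/-!
The second theorem of Mertens for the product, with error term of order `1 / log z`.
-/

set_option autoImplicit false

open Finset Filter Topology

noncomputable section

namespace Pool.Agent.MP_d228e7_nt.T

open Pool.Agent.MP_cebb75_nt Pool.Agent.MP_fdd1d3_nt

namespace MA

section Aux

open ArithmeticFunction

theorem log_eq (N : ℕ) : ∑ n ∈ Icc 1 N, Real.log n =
    ∑ d ∈ Icc 1 N, vonMangoldt d * ((N / d : ℕ) : ℝ) := by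
  induction N with
  | zero => simp
  | succ N ih =>
    rw [sum_Icc_succ_top (by omega), ih]
    have h1 : ∑ d ∈ Icc 1 (N + 1), vonMangoldt d * (((N + 1) / d : ℕ) : ℝ) =
        ∑ d ∈ Icc 1 (N + 1), vonMangoldt d * ((N / d : ℕ) : ℝ) +
          ∑ d ∈ Icc 1 (N + 1), if d ∣ N + 1 then vonMangoldt d else 0 := by
      rw [← sum_add_distrib]
      refine sum_congr rfl fun d _ => ?_
      rw [Nat.succ_div]
      split_ifs <;> push_cast <;> ring
    rw [h1, sum_Icc_succ_top (by omega) (fun d => vonMangoldt d * ((N / d : ℕ) : ℝ)),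
      Nat.div_eq_of_lt (Nat.lt_succ_self N), ← sum_filter, ← vonMangoldt_sum]
    simp only [Nat.cast_zero, mul_zero, add_zero]
    congr 1

theorem log_bounds (N : ℕ) : N * Real.log N - N ≤ ∑ n ∈ Icc 1 N, Real.log n ∧
    ∑ n ∈ Icc 1 N, Real.log n ≤ N * Real.log N := by
  constructor
  · induction N with
    | zero => simp
    | succ N ih =>
      rw [sum_Icc_succ_top (by omega)]
      rcases Nat.eq_zero_or_pos N with rfl | hN
      · simp
      have hN' : (0 : ℝ) < N := by exact_mod_cast hN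
      have h1 : Real.log ((N + 1) / N) ≤ (N + 1) / N - 1 :=
        Real.log_le_sub_one_of_pos (by positivity)
      rw [Real.log_div (by positivity) hN'.ne'] at h1
      have h2 : (N : ℝ) * (Real.log (N + 1) - Real.log N) ≤ 1 := by
        calc (N : ℝ) * (Real.log (N + 1) - Real.log N) ≤ N * ((N + 1) / N - 1) := by gcongr
          _ = 1 := by field_simp; ring
      push_cast
      nlinarith
  · calc ∑ n ∈ Icc 1 N, Real.log n ≤ ∑ n ∈ Icc 1 N, Real.log N := by
          refine sum_le_sum fun n hn => ?_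
          rw [mem_Icc] at hn
          exact Real.log_le_log (by exact_mod_cast hn.1) (by exact_mod_cast hn.2)
      _ = N * Real.log N := by simp

theorem vm {N : ℕ} (hN : 1 ≤ N) :
    Real.log N - 1 ≤ ∑ n ∈ Icc 1 N, vonMangoldt n / n ∧
      ∑ n ∈ Icc 1 N, vonMangoldt n / n ≤ Real.log N + (Real.log 4 + 4) := by
  have hN' : (0 : ℝ) < N := by exact_mod_cast hN
  obtain ⟨h1, h2⟩ := log_bounds N
  rw [log_eq] at h1 h2
  have h3 : ∑ d ∈ Icc 1 N, vonMangoldt d * ((N / d : ℕ) : ℝ) ≤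
      N * ∑ n ∈ Icc 1 N, vonMangoldt n / n := by
    rw [mul_sum]
    refine sum_le_sum fun d _ => ?_
    have := (Nat.cast_div_le (α := ℝ) (m := N) (n := d))
    calc vonMangoldt d * ((N / d : ℕ) : ℝ) ≤ vonMangoldt d * (N / d) := by
          gcongr
      _ = _ := by ring
  have h4 : N * ∑ n ∈ Icc 1 N, vonMangoldt n / n ≤
      ∑ d ∈ Icc 1 N, vonMangoldt d * ((N / d : ℕ) : ℝ) + ∑ d ∈ Icc 1 N, vonMangoldt d := by
    rw [mul_sum, ← sum_add_distrib]
    refine sum_le_sum fun d hd => ?_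
    have h5 : (N : ℝ) / d ≤ ((N / d : ℕ) : ℝ) + 1 := by
      rw [← Nat.floor_div_eq_div (K := ℝ)]
      exact (Nat.lt_floor_add_one _).le
    calc (N : ℝ) * (vonMangoldt d / d) = vonMangoldt d * (N / d) := by ring
      _ ≤ vonMangoldt d * (((N / d : ℕ) : ℝ) + 1) := by gcongr
      _ = _ := by ring
  have h6 : ∑ d ∈ Icc 1 N, vonMangoldt d ≤ (Real.log 4 + 4) * N := by
    have := Chebyshev.psi_le_const_mul_self hN'.le
    rw [Chebyshev.psi_eq_sum_Icc, Nat.floor_natCast] at this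
    refine le_trans (sum_le_sum_of_subset_of_nonneg ?_ fun _ _ _ => vonMangoldt_nonneg) this
    exact Icc_subset_Icc (by omega) le_rfl
  constructor
  · exact le_of_mul_le_mul_left (by nlinarith) hN'
  · exact le_of_mul_le_mul_left (by nlinarith) hN'

theorem nonprime : Summable fun n : ℕ => (if n.Prime then 0 else vonMangoldt n) / (n : ℝ) := by
  refine (vonMangoldt.summable_residueClass_non_primes_div (0 : ZMod 1)).congr fun n => ?_
  rw [vonMangoldt.residueClass, Set.indicator_of_mem]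
  exact Subsingleton.elim (α := ZMod 1) _ _

theorem prime : ∃ C : ℝ, ∀ N : ℕ, 1 ≤ N →
    |∑ n ∈ Icc 1 N, (if n.Prime then Real.log n / n else 0) - Real.log N| ≤ C := by
  have hn : ∀ n : ℕ, 0 ≤ (if n.Prime then 0 else vonMangoldt n) / (n : ℝ) := fun n => by
    refine div_nonneg ?_ n.cast_nonneg
    split_ifs
    · exact le_rfl
    · exact vonMangoldt_nonneg
  have hB : 0 ≤ ∑' n : ℕ, (if n.Prime then 0 else vonMangoldt n) / (n : ℝ) := tsum_nonneg hn
  refine ⟨∑' n : ℕ, (if n.Prime then 0 else vonMangoldt n) / (n : ℝ) + 10, fun N h1 => ?_⟩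
  obtain ⟨h2, h3⟩ := vm h1
  have h7 : Real.log 4 ≤ 3 := by
    linarith [Real.log_le_sub_one_of_pos (show (0 : ℝ) < 4 by norm_num)]
  have e : ∑ n ∈ Icc 1 N, vonMangoldt n / n =
      ∑ n ∈ Icc 1 N, (if n.Prime then Real.log n / n else 0) +
      ∑ n ∈ Icc 1 N, (if n.Prime then 0 else vonMangoldt n) / (n : ℝ) := by
    rw [← sum_add_distrib]
    refine sum_congr rfl fun n _ => ?_
    split_ifs with h
    · rw [vonMangoldt_apply_prime h, zero_div, add_zero]
    · rw [zero_add]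
  have h8 := nonprime.sum_le_tsum (Icc 1 N) fun n _ => hn n
  have h9 := sum_nonneg (s := Icc 1 N) fun n _ => hn n
  rw [abs_le]
  constructor <;> linarith

end Aux

theorem sq : ∃ C : ℝ, 0 < C ∧ ∀ s : Finset ℕ, ∑ n ∈ s, Real.log n / (n : ℝ) ^ 2 ≤ C := by
  have hn : ∀ n : ℕ, 0 ≤ Real.log n / (n : ℝ) ^ 2 := fun n =>
    div_nonneg (Real.log_natCast_nonneg n) (sq_nonneg _)
  have hs : Summable fun n : ℕ => Real.log n / (n : ℝ) ^ 2 := by
    refine Summable.of_nonneg_of_le hn (fun n => ?_)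
      ((Real.summable_one_div_nat_rpow.2 (show (1 : ℝ) < 3 / 2 by norm_num)).mul_left 2)
    rcases Nat.eq_zero_or_pos n with rfl | h
    · simp
    have h0 : (0 : ℝ) < n := by exact_mod_cast h
    have h1 := Real.log_le_rpow_div h0.le (show (0 : ℝ) < 1 / 2 by norm_num)
    have h2 : (n : ℝ) ^ 2 = (n : ℝ) ^ (1 / 2 : ℝ) * (n : ℝ) ^ (3 / 2 : ℝ) := by
      rw [← Real.rpow_add h0, ← Real.rpow_natCast]
      norm_num
    have h3 := Real.rpow_pos_of_pos h0 (1 / 2)
    have h4 := Real.rpow_pos_of_pos h0 (3 / 2)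
    rw [h2, mul_one_div, div_le_div_iff₀ (mul_pos h3 h4) h4, ← mul_assoc]
    exact mul_le_mul_of_nonneg_right (by linarith) h4.le
  have hB : 0 ≤ ∑' n : ℕ, Real.log n / (n : ℝ) ^ 2 := tsum_nonneg hn
  exact ⟨∑' n : ℕ, Real.log n / (n : ℝ) ^ 2 + 1, by linarith,
    fun s => (hs.sum_le_tsum s fun n _ => hn n).trans (by linarith)⟩

/-- the logarithmic weights -/
def cc (n : ℕ) : ℝ := if n.Prime then -Real.log (bb n) else 0

theorem bb_pos {p : ℕ} (hp : p.Prime) : 0 < bb p := by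
  have h : (2 : ℝ) ≤ p := by exact_mod_cast hp.two_le
  have : 1 / (p : ℝ) ≤ 1 / 2 := one_div_le_one_div_of_le (by norm_num) h
  unfold bb
  linarith

theorem cc_bd {p : ℕ} (hp : p.Prime) :
    1 / (p : ℝ) ≤ cc p ∧ cc p ≤ 1 / (p : ℝ) + 2 * (1 / (p : ℝ)) ^ 2 := by
  have h : (2 : ℝ) ≤ p := by exact_mod_cast hp.two_le
  have h1 : 1 / (p : ℝ) ≤ 1 / 2 := one_div_le_one_div_of_le (by norm_num) h
  have h0 : 0 < 1 / (p : ℝ) := by positivity
  have h2 := bb_pos hp
  have h3 := Real.log_le_sub_one_of_pos h2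
  have h4 := Real.one_sub_inv_le_log_of_pos h2
  rw [cc, if_pos hp]
  unfold bb at *
  generalize 1 / (p : ℝ) = x at *
  refine ⟨by linarith, ?_⟩
  have h5 : (1 - x)⁻¹ ≤ 1 + x + 2 * x ^ 2 := by
    rw [inv_le_iff_one_le_mul₀ h2]
    nlinarith [mul_nonneg (sq_nonneg x) (show 0 ≤ 1 - 2 * x by linarith)]
  linarith

theorem first : ∃ K : ℝ, ∀ N : ℕ, 1 ≤ N →
    |∑ n ∈ Icc 1 N, cc n * Real.log n - Real.log N| ≤ K := by
  obtain ⟨C, hC⟩ := prime
  obtain ⟨D, hD0, hD⟩ := sq
  refine ⟨C + 2 * D, fun N hN => ?_⟩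
  have h1 := abs_le.1 (hC N hN)
  have h2 := hD (Icc 1 N)
  have h3 : ∑ n ∈ Icc 1 N, (if n.Prime then Real.log n / n else 0) ≤
      ∑ n ∈ Icc 1 N, cc n * Real.log n := by
    refine sum_le_sum fun n _ => ?_
    split_ifs with h
    · rw [div_eq_mul_one_div, mul_comm]
      exact mul_le_mul_of_nonneg_right (cc_bd h).1 (Real.log_natCast_nonneg n)
    · rw [cc, if_neg h, zero_mul]
  have h4 : ∑ n ∈ Icc 1 N, cc n * Real.log n ≤
      ∑ n ∈ Icc 1 N, (if n.Prime then Real.log n / n else 0) +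
        2 * ∑ n ∈ Icc 1 N, Real.log n / (n : ℝ) ^ 2 := by
    rw [mul_sum, ← sum_add_distrib]
    refine sum_le_sum fun n _ => ?_
    have h5 := Real.log_natCast_nonneg n
    split_ifs with h
    · refine (mul_le_mul_of_nonneg_right (cc_bd h).2 h5).trans_eq ?_
      ring
    · rw [cc, if_neg h, zero_mul]
      positivity
  rw [abs_le]
  constructor <;> linarith [h1.1, h1.2]

theorem step {l m A K : ℝ} (hl : 0 < l) (hm : l ≤ m) (h1 : m ≤ l + 1) (hA : |A - l| ≤ K) :
    |A * (1 / l - 1 / m) - (Real.log m - Real.log l)| ≤ (K + 1) * (1 / l - 1 / m) := by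
  have hm0 : 0 < m := hl.trans_le hm
  have hd : 0 ≤ 1 / l - 1 / m := sub_nonneg.2 (one_div_le_one_div_of_le hl hm)
  have h2 := Real.log_le_sub_one_of_pos (div_pos hl hm0)
  have h3 := Real.log_le_sub_one_of_pos (div_pos hm0 hl)
  rw [Real.log_div hl.ne' hm0.ne'] at h2
  rw [Real.log_div hm0.ne' hl.ne'] at h3
  have e1 : l * (1 / l - 1 / m) = 1 - l / m := by field_simp
  have e2 : m * (1 / l - 1 / m) = m / l - 1 := by field_simp
  have h4 := abs_le.1 hA
  have h5 := mul_le_mul_of_nonneg_right h4.1 hd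
  have h6 := mul_le_mul_of_nonneg_right h4.2 hd
  have h7 := mul_le_mul_of_nonneg_right h1 hd
  rw [abs_le]
  constructor <;> nlinarith

theorem abel (c : ℕ → ℝ) (K : ℝ)
    (hK : ∀ N : ℕ, 1 ≤ N → |∑ n ∈ Icc 1 N, c n * Real.log n - Real.log N| ≤ K) :
    ∃ B : ℝ, ∀ z : ℕ, 2 ≤ z →
      |∑ n ∈ Icc 1 z, c n - Real.log (Real.log z) - B| ≤ (2 * K + 1) / Real.log z := by
  have hK0 : 0 ≤ K := (abs_nonneg _).trans (hK 1 le_rfl)
  have lp : ∀ n : ℕ, 2 ≤ n → 0 < Real.log n := fun n hn =>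
    Real.log_pos (by exact_mod_cast hn)
  obtain ⟨d, hd⟩ : ∃ d : ℕ → ℝ, ∀ n, d n = ∑ k ∈ Icc 1 n, c k -
    (∑ k ∈ Icc 1 n, c k * Real.log k) / Real.log n - Real.log (Real.log n) := ⟨_, fun _ => rfl⟩
  have h1 : ∀ n : ℕ, 2 ≤ n →
      |d (n + 1) - d n| ≤ (K + 1) * (1 / Real.log n - 1 / Real.log (n + 1 : ℕ)) := by
    intro n hn
    have hn0 : (0 : ℝ) < n := by exact_mod_cast (by omega : 0 < n)
    have hn1 : (1 : ℝ) ≤ n := by exact_mod_cast (by omega : 1 ≤ n)
    have a1 := lp n hn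
    have a2 := lp (n + 1) (by omega)
    have a3 : Real.log n ≤ Real.log (n + 1 : ℕ) := Real.log_le_log hn0 (by push_cast; linarith)
    have a4 : Real.log (n + 1 : ℕ) ≤ Real.log n + 1 := by
      have b1 : Real.log ((n + 1 : ℕ) / n) ≤ (n + 1 : ℕ) / n - 1 :=
        Real.log_le_sub_one_of_pos (by positivity)
      rw [Real.log_div (by positivity) hn0.ne'] at b1
      have b2 : ((n + 1 : ℕ) : ℝ) / n ≤ 2 := by
        rw [div_le_iff₀ hn0]; push_cast; linarith
      linarith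
    refine le_of_eq_of_le ?_ (step a1 a3 a4 (hK n (by omega)))
    congr 1
    rw [hd, hd, sum_Icc_succ_top (by omega), sum_Icc_succ_top (by omega)]
    field_simp
    ring
  have h2 : ∀ n : ℕ, 2 ≤ n → ∀ m, n ≤ m →
      |d m - d n| ≤ (K + 1) * (1 / Real.log n - 1 / Real.log m) := by
    intro n hn m hm
    induction m, hm using Nat.le_induction with
    | base => simp
    | succ m hm ih =>
      have a1 := h1 m (hn.trans hm)
      have a2 := abs_sub_le (d (m + 1)) (d m) (d n)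
      linarith
  have h3 : ∀ n : ℕ, 2 ≤ n → ∀ m, n ≤ m → |d m - d n| ≤ (K + 1) / Real.log n := by
    intro n hn m hm
    have a1 := lp m (hn.trans hm)
    have a2 : 0 ≤ (K + 1) * (1 / Real.log m) := by positivity
    have a3 := h2 n hn m hm
    rw [mul_sub, mul_one_div] at a3
    linarith
  have h4 : CauchySeq fun k => d (k + 2) := by
    refine cauchySeq_of_le_tendsto_0' (fun k : ℕ => (K + 1) / Real.log (k + 2 : ℕ))
      (fun n m h => ?_) ?_
    · rw [Real.dist_eq, abs_sub_comm]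
      exact h3 (n + 2) (by omega) (m + 2) (by omega)
    · exact ((Real.tendsto_log_atTop.comp tendsto_natCast_atTop_atTop).comp
        (tendsto_add_atTop_nat 2)).const_div_atTop (K + 1)
  obtain ⟨B, hB⟩ := cauchySeq_tendsto_of_complete h4
  refine ⟨B + 1, fun z hz => ?_⟩
  have a1 := lp z hz
  have h5 : |B - d z| ≤ (K + 1) / Real.log z := by
    refine le_of_tendsto (hB.sub_const (d z)).abs ?_
    filter_upwards [eventually_ge_atTop z] with k hk
    exact h3 z hz (k + 2) (by omega)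
  have h6 : |(∑ k ∈ Icc 1 z, c k * Real.log k) / Real.log z - 1| ≤ K / Real.log z := by
    rw [div_sub_one a1.ne', abs_div, abs_of_pos a1]
    exact div_le_div_of_nonneg_right (hK z (by omega)) a1.le
  have e : (2 * K + 1) / Real.log z = (K + 1) / Real.log z + K / Real.log z := by ring
  rw [hd] at h5
  have h7 := abs_le.1 h5
  have h8 := abs_le.1 h6
  rw [e, abs_le]
  constructor <;> linarith [h7.1, h7.2, h8.1, h8.2]

end MA

theorem m2 : ∃ B C : ℝ, M2 B C := by
  obtain ⟨K, hK⟩ := MA.first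
  obtain ⟨B, hB⟩ := MA.abel MA.cc K hK
  refine ⟨B, 2 * K + 1, fun z hz => ?_⟩
  have e : -Real.log (VV z) = ∑ n ∈ Icc 1 z, MA.cc n := by
    rw [VV, Real.log_prod fun p hp => (MA.bb_pos ((mem_PP _ _ _).1 hp).2).ne', ← sum_neg_distrib,
      PP, sum_filter]
    rfl
  rw [e]
  exact hB z hz

end Pool.Agent.MP_d228e7_nt.T

end
end

section

/-!
The constant in the second theorem of Mertens for the product is the constant of Euler.
-/

set_option autoImplicit false

open Finset Filter Topology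

noncomputable section

namespace Pool.Agent.MP_d228e7_nt.T

open Pool.Agent.MP_cebb75_nt Pool.Agent.MP_fdd1d3_nt N435e839e

namespace MB

def cc (n : ℕ) (t : ℝ) : ℝ := if n.Prime then -Real.log (1 - t / n) else 0

def tt (σ : ℝ) (n : ℕ) : ℝ := Real.exp (-σ * Real.log n)

def zz (k : ℕ) : ℕ := ⌊Real.exp k⌋₊

def ab (k : ℕ) : ℝ := ∑ n ∈ Ioc (zz k) (zz (k + 1)), cc n 1

theorem log_bd {y : ℝ} (h1 : y ≤ 1 / 2) :
    y ≤ -Real.log (1 - y) ∧ -Real.log (1 - y) ≤ y + 2 * y ^ 2 := by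
  have h2 : 0 < 1 - y := by linarith
  refine ⟨by linarith [Real.log_le_sub_one_of_pos h2], ?_⟩
  have h3 := Real.one_sub_inv_le_log_of_pos h2
  have h4 : (1 - y)⁻¹ ≤ 1 + y + 2 * y ^ 2 := by
    rw [inv_le_iff_one_le_mul₀ h2]
    nlinarith [mul_nonneg (sq_nonneg y) (by linarith : 0 ≤ 1 - 2 * y)]
  linarith

theorem half {n : ℕ} (hn : n.Prime) {t : ℝ} (h1 : t ≤ 1) : t / n ≤ 1 / 2 := by
  have h2 : (2 : ℝ) ≤ n := by exact_mod_cast hn.two_le
  rw [div_le_div_iff₀ (by linarith) (by norm_num)]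
  linarith

theorem cc_bd (n : ℕ) {t : ℝ} (h0 : 0 ≤ t) (h1 : t ≤ 1) : 0 ≤ cc n t ∧ cc n t ≤ 2 * (t / n) := by
  have h2 : 0 ≤ t / n := by positivity
  unfold cc
  split_ifs with hn
  · have h3 := half hn h1
    have h4 := log_bd h3
    exact ⟨h2.trans h4.1, by nlinarith [h4.2]⟩
  · exact ⟨le_rfl, by positivity⟩

theorem cc_cmp (n : ℕ) {t : ℝ} (h0 : 0 ≤ t) (h1 : t ≤ 1) :
    |cc n 1 * t - cc n t| ≤ 2 * (1 / (n : ℝ) ^ 2) := by
  unfold cc
  split_ifs with hn
  · have a1 := log_bd (half hn (t := 1) le_rfl)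
    have a2 := log_bd (half hn h1)
    have e1 : t / n = t * (1 / n) := by ring
    have e2 : 1 / (n : ℝ) ^ 2 = (1 / n) ^ 2 := by ring
    rw [e1] at a2 ⊢
    rw [e2]
    set x : ℝ := 1 / n
    have b1 := mul_le_mul_of_nonneg_right a1.1 h0
    have b2 := mul_le_mul_of_nonneg_right a1.2 h0
    have b3 : x ^ 2 * t ≤ x ^ 2 := mul_le_of_le_one_right (sq_nonneg x) h1
    have b4 : x ^ 2 * t ^ 2 ≤ x ^ 2 := mul_le_of_le_one_right (sq_nonneg x) (pow_le_one₀ h0 h1)
    rw [abs_le]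
    constructor <;> nlinarith [a2.1, a2.2]
  · simp

theorem tt_bd {σ : ℝ} (h : 0 ≤ σ) (n : ℕ) : 0 ≤ tt σ n ∧ tt σ n ≤ 1 :=
  ⟨(Real.exp_pos _).le, Real.exp_le_one_iff.2 (by
    have := Real.log_natCast_nonneg n
    nlinarith)⟩

theorem tt_div (σ : ℝ) (n : ℕ) (h : 0 < σ) : tt σ n / n = 1 / (n : ℝ) ^ (1 + σ) := by
  rcases n.eq_zero_or_pos with rfl | hn
  · simp [Real.zero_rpow (show 1 + σ ≠ 0 by linarith)]
  · have h1 : (0 : ℝ) < n := by exact_mod_cast hn
    rw [Real.rpow_add h1, Real.rpow_one, Real.rpow_def_of_pos h1, tt, neg_mul, Real.exp_neg,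
      mul_comm σ]
    ring

theorem sum_pw {σ : ℝ} (h : 0 < σ) : Summable fun n : ℕ => 1 / (n : ℝ) ^ (1 + σ) :=
  Real.summable_one_div_nat_rpow.2 (by linarith)

theorem sumP {σ : ℝ} (h : 0 < σ) : Summable fun n : ℕ => cc n 1 * tt σ n := by
  refine Summable.of_nonneg_of_le
    (fun n => mul_nonneg (cc_bd n zero_le_one le_rfl).1 (tt_bd h.le n).1) (fun n => ?_)
    ((sum_pw h).mul_left 2)
  rw [← tt_div σ n h]
  refine (mul_le_mul_of_nonneg_right (cc_bd n zero_le_one le_rfl).2 (tt_bd h.le n).1).trans_eq ?_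
  ring

theorem sumL {σ : ℝ} (h : 0 < σ) : Summable fun n : ℕ => cc n (tt σ n) :=
  Summable.of_nonneg_of_le (fun n => (cc_bd n (tt_bd h.le n).1 (tt_bd h.le n).2).1)
    (fun n => tt_div σ n h ▸ (cc_bd n (tt_bd h.le n).1 (tt_bd h.le n).2).2) ((sum_pw h).mul_left 2)

theorem euler {σ : ℝ} (h : 0 < σ) :
    Real.exp (∑' n : ℕ, cc n (tt σ n)) = ∑' n : ℕ, 1 / (n : ℝ) ^ (1 + σ) := by
  let f : ℕ →*₀ ℝ :=
    { toFun := fun n => 1 / (n : ℝ) ^ (1 + σ)
      map_zero' := by simp [Real.zero_rpow (show 1 + σ ≠ 0 by linarith)]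
      map_one' := by simp
      map_mul' := fun m n => by
        rw [Nat.cast_mul, Real.mul_rpow (Nat.cast_nonneg m) (Nat.cast_nonneg n)]
        ring }
  have h1 := EulerProduct.eulerProduct_completely_multiplicative (f := f) (sum_pw h).norm
  have h2 := (Real.continuous_exp.tendsto _).comp (sumL h).hasSum.tendsto_sum_nat
  refine tendsto_nhds_unique h2 (h1.congr fun N => ?_)
  rw [Function.comp_apply, Real.exp_sum, Nat.primesBelow, prod_filter]
  refine prod_congr rfl fun n _ => ?_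
  unfold cc
  split_ifs with hn
  · have := half hn (tt_bd h.le n).2
    rw [Real.exp_neg, Real.exp_log (by linarith), tt_div σ n h]
    rfl
  · exact Real.exp_zero.symm

theorem limPL : Tendsto (fun σ : ℝ => (∑' n : ℕ, cc n 1 * tt σ n) - ∑' n : ℕ, cc n (tt σ n))
    (𝓝[>] 0) (𝓝 0) := by
  have h1 : Tendsto (fun σ : ℝ => ∑' n : ℕ, (cc n 1 * tt σ n - cc n (tt σ n))) (𝓝[>] 0)
      (𝓝 (∑' _ : ℕ, (0 : ℝ))) := by
    refine tendsto_tsum_of_dominated_convergence
      ((Real.summable_one_div_nat_pow.2 one_lt_two).mul_left 2) (fun n => ?_) ?_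
    · have t1 : Tendsto (fun σ : ℝ => tt σ n) (𝓝[>] 0) (𝓝 1) := by
        have : Continuous fun σ : ℝ => tt σ n := by unfold tt; fun_prop
        simpa [tt] using (this.tendsto 0).mono_left nhdsWithin_le_nhds
      have t2 : Tendsto (fun σ : ℝ => cc n (tt σ n)) (𝓝[>] 0) (𝓝 (cc n 1)) := by
        unfold cc
        split_ifs with hn
        · have := half hn (t := 1) le_rfl
          exact (((t1.div_const _).const_sub 1).log (by linarith)).neg
        · exact tendsto_const_nhds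
      simpa using (t1.const_mul (cc n 1)).sub t2
    · filter_upwards [self_mem_nhdsWithin] with σ hσ n
      exact cc_cmp n (tt_bd (le_of_lt hσ) n).1 (tt_bd (le_of_lt hσ) n).2
  rw [tsum_zero] at h1
  refine h1.congr' ?_
  filter_upwards [self_mem_nhdsWithin] with σ hσ
  exact (sumP hσ).tsum_sub (sumL hσ)

theorem limL : Tendsto (fun σ : ℝ => (∑' n : ℕ, cc n (tt σ n)) + Real.log σ) (𝓝[>] 0) (𝓝 0) := by
  have h1 : Tendsto (fun σ : ℝ => 1 + σ) (𝓝[>] 0) (𝓝[>] 1) :=
    tendsto_nhdsWithin_iff.2 ⟨by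
      simpa using (tendsto_id.const_add (1 : ℝ)).mono_left (nhdsWithin_le_nhds (a := (0 : ℝ))),
      by filter_upwards [self_mem_nhdsWithin] with σ hσ using lt_add_of_pos_right 1 (Set.mem_Ioi.1 hσ)⟩
  have h2 := (tendsto_sub_mul_tsum_nat_rpow.comp h1).log one_ne_zero
  rw [Real.log_one] at h2
  refine h2.congr' ?_
  filter_upwards [self_mem_nhdsWithin] with σ hσ
  have hσ' : 0 < σ := hσ
  rw [Function.comp_apply, ← euler hσ', add_sub_cancel_left,
    Real.log_mul hσ'.ne' (Real.exp_pos _).ne', Real.log_exp, add_comm]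

theorem limE : Tendsto (fun σ : ℝ => Real.log (1 - Real.exp (-σ)) - Real.log σ) (𝓝[>] 0) (𝓝 0) := by
  have h1 : HasDerivAt (fun σ : ℝ => 1 - Real.exp (-σ)) 1 0 := by
    simpa using (hasDerivAt_neg (0 : ℝ)).exp.const_sub 1
  have h2 := h1.tendsto_slope_zero_right.log one_ne_zero
  rw [Real.log_one] at h2
  refine h2.congr' ?_
  filter_upwards [self_mem_nhdsWithin] with σ hσ
  have hσ' : 0 < σ := hσ
  have h3 : 0 < 1 - Real.exp (-σ) := sub_pos.2 (Real.exp_lt_one_iff.2 (by linarith))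
  simp only [zero_add, neg_zero, Real.exp_zero, sub_self, sub_zero, smul_eq_mul]
  rw [Real.log_mul (inv_pos.2 hσ').ne' h3.ne', Real.log_inv]
  ring

theorem zz_mono (k : ℕ) : zz k ≤ zz (k + 1) :=
  Nat.floor_mono (Real.exp_le_exp.2 (by push_cast; linarith))

theorem zz_zero : zz 0 = 1 := by simp [zz]

theorem le_zz (k : ℕ) : k + 1 ≤ zz k := Nat.le_floor (by push_cast; exact Real.add_one_le_exp k)

theorem blocks (g : ℕ → ℝ) (K : ℕ) :
    ∑ k ∈ range K, ∑ n ∈ Ioc (zz k) (zz (k + 1)), g n = ∑ n ∈ Ioc 1 (zz K), g n := by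
  induction K with
  | zero => simp [zz_zero]
  | succ K ih =>
    rw [sum_range_succ, ih, sum_Ioc_consecutive _ (by have := le_zz K; omega) (zz_mono K)]

theorem ab_nn (k : ℕ) : 0 ≤ ab k := sum_nonneg fun n _ => (cc_bd n zero_le_one le_rfl).1

theorem blk_bd {σ : ℝ} (h : 0 < σ) (k : ℕ) :
    Real.exp (-σ) * (ab k * Real.exp (-σ) ^ k) ≤ ∑ n ∈ Ioc (zz k) (zz (k + 1)), cc n 1 * tt σ n ∧
    ∑ n ∈ Ioc (zz k) (zz (k + 1)), cc n 1 * tt σ n ≤ ab k * Real.exp (-σ) ^ k := by
  have key : ∀ n ∈ Ioc (zz k) (zz (k + 1)), (k : ℝ) ≤ Real.log n ∧ Real.log n ≤ k + 1 := by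
    intro n hn
    obtain ⟨h1, h2⟩ := mem_Ioc.1 hn
    have h3 : Real.exp k < n := (Nat.floor_lt (Real.exp_pos _).le).1 h1
    have h4 : (n : ℝ) ≤ Real.exp ((k + 1 : ℕ) : ℝ) := (Nat.le_floor_iff (Real.exp_pos _).le).1 h2
    have h5 : (0 : ℝ) < n := (Real.exp_pos _).trans h3
    push_cast at h4
    exact ⟨(Real.le_log_iff_exp_le h5).2 h3.le, (Real.log_le_iff_le_exp h5).2 h4⟩
  rw [mul_left_comm, ← pow_succ', ab, sum_mul, sum_mul]
  refine ⟨sum_le_sum fun n hn => ?_, sum_le_sum fun n hn => ?_⟩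
  · refine mul_le_mul_of_nonneg_left ?_ (cc_bd n zero_le_one le_rfl).1
    rw [← Real.exp_nat_mul]
    refine Real.exp_le_exp.2 ?_
    push_cast
    nlinarith [(key n hn).2]
  · refine mul_le_mul_of_nonneg_left ?_ (cc_bd n zero_le_one le_rfl).1
    rw [← Real.exp_nat_mul]
    refine Real.exp_le_exp.2 ?_
    nlinarith [(key n hn).1]

theorem cmpA {σ : ℝ} (h : 0 < σ) : (Summable fun k => ab k * Real.exp (-σ) ^ k) ∧
    Real.exp (-σ) * ∑' k, ab k * Real.exp (-σ) ^ k ≤ ∑' n : ℕ, cc n 1 * tt σ n ∧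
    ∑' n : ℕ, cc n 1 * tt σ n ≤ ∑' k, ab k * Real.exp (-σ) ^ k := by
  have r0 := Real.exp_pos (-σ)
  have nn : ∀ n, 0 ≤ cc n 1 * tt σ n := fun n =>
    mul_nonneg (cc_bd n zero_le_one le_rfl).1 (tt_bd h.le n).1
  have na : ∀ k, 0 ≤ ab k * Real.exp (-σ) ^ k := fun k => mul_nonneg (ab_nn k) (by positivity)
  have h1 : ∀ K, ∑ k ∈ range K, ab k * Real.exp (-σ) ^ k
      ≤ (∑' n : ℕ, cc n 1 * tt σ n) / Real.exp (-σ) := fun K => by
    rw [le_div_iff₀' r0, mul_sum]
    refine (sum_le_sum fun k _ => (blk_bd h k).1).trans ?_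
    rw [blocks]
    exact (sumP h).sum_le_tsum _ fun n _ => nn n
  have h2 := summable_of_sum_range_le na h1
  refine ⟨h2, (le_div_iff₀' r0).1 (h2.tsum_le_of_sum_range_le h1),
    (sumP h).tsum_le_of_sum_range_le fun N => ?_⟩
  refine le_trans ?_ ((sum_le_sum fun k _ => (blk_bd h k).2).trans
    (h2.sum_le_tsum (range N) fun k _ => na k))
  rw [blocks]
  rw [← sum_filter_of_ne (p := Nat.Prime) fun n _ hn => by
    by_contra hp
    simp [cc, hp] at hn]
  refine sum_le_sum_of_subset_of_nonneg (fun n hn => ?_) fun n _ _ => nn n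
  obtain ⟨h3, h4⟩ := mem_filter.1 hn
  have := le_zz N
  exact mem_Ioc.2 ⟨h4.one_lt, by have := mem_range.1 h3; omega⟩

theorem logVV (K : ℕ) : -Real.log (VV (zz K)) = ∑ k ∈ range K, ab k := by
  unfold ab
  rw [blocks, VV, Real.log_prod, ← sum_neg_distrib, PP, sum_filter,
    ← sum_Ioc_consecutive _ zero_le_one (by have := le_zz K; omega : 1 ≤ zz K)]
  · rw [show Ioc 0 1 = {1} from rfl]
    simp [cc, bb]
  · intro p hp
    have := half ((mem_PP _ _ _).1 hp).2 (t := 1) le_rfl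
    unfold bb
    linarith

theorem limG {B C : ℝ} (h : M2 B C) :
    Tendsto (fun K : ℕ => ∑ k ∈ range K, (ab k - 1 / ((k : ℝ) + 1))) atTop
      (𝓝 (B - Real.eulerMascheroniConstant)) := by
  have e1 : Tendsto (fun K : ℕ => Real.exp K) atTop atTop :=
    Real.tendsto_exp_atTop.comp tendsto_natCast_atTop_atTop
  have z1 : Tendsto (fun K : ℕ => (zz K : ℝ)) atTop atTop :=
    tendsto_natCast_atTop_atTop.comp (tendsto_nat_floor_atTop.comp e1)
  have z0 : ∀ K, (0 : ℝ) < zz K := fun K => by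
    have := le_zz K
    exact_mod_cast (by omega : 0 < zz K)
  have a1 : Tendsto (fun K : ℕ => -Real.log (VV (zz K)) - Real.log (Real.log (zz K)) - B) atTop
      (𝓝 0) := by
    refine squeeze_zero_norm' ?_ ((Real.tendsto_log_atTop.comp z1).const_div_atTop C)
    filter_upwards [eventually_ge_atTop 1] with K hK
    exact h _ (by have := le_zz K; omega)
  have a2 : Tendsto (fun K : ℕ => Real.log (zz K) - K) atTop (𝓝 0) := by
    have := (tendsto_nat_floor_div_atTop.comp e1).log one_ne_zero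
    rw [Real.log_one] at this
    refine this.congr fun K => ?_
    show Real.log ((zz K : ℝ) / Real.exp K) = _
    rw [Real.log_div (z0 K).ne' (Real.exp_pos _).ne', Real.log_exp]
  have a3 : Tendsto (fun K : ℕ => Real.log (Real.log (zz K)) - Real.log K) atTop (𝓝 0) := by
    have b1 := ((a2.div_atTop tendsto_natCast_atTop_atTop).add_const 1).log (by norm_num)
    rw [zero_add, Real.log_one] at b1
    refine b1.congr' ?_
    filter_upwards [eventually_ge_atTop 1] with K hK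
    have k0 : (0 : ℝ) < K := by exact_mod_cast hK
    have k1 : (1 : ℝ) < zz K := by
      have := le_zz K
      exact_mod_cast (by omega : 1 < zz K)
    rw [← Real.log_div (Real.log_pos k1).ne' k0.ne']
    congr 1
    field_simp
    ring
  have a4 := ((a1.add a3).sub Real.tendsto_harmonic_sub_log).add_const B
  rw [show 0 + 0 - Real.eulerMascheroniConstant + B = B - Real.eulerMascheroniConstant by ring]
    at a4
  refine a4.congr fun K => ?_
  rw [sum_sub_distrib, ← logVV, harmonic]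
  push_cast
  simp only [one_div]
  ring

end MB

open MB in
theorem m3 {B C : ℝ} (h : M2 B C) : B = Real.eulerMascheroniConstant := by
  have r1 : Tendsto (fun σ : ℝ => Real.exp (-σ)) (𝓝[>] 0) (𝓝 1) := by
    have : Continuous fun σ : ℝ => Real.exp (-σ) := by fun_prop
    simpa using (this.tendsto 0).mono_left nhdsWithin_le_nhds
  have r2 : ∀ σ : ℝ, 0 < σ → Real.exp (-σ) < 1 := fun σ hσ =>
    Real.exp_lt_one_iff.2 (by linarith)
  have r3 : Tendsto (fun σ : ℝ => Real.exp (-σ)) (𝓝[>] 0) (𝓝[<] 1) :=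
    tendsto_nhdsWithin_iff.2 ⟨r1, by
      filter_upwards [self_mem_nhdsWithin] with σ hσ using r2 σ hσ⟩
  have a1 := r1.mul ((Real.tendsto_tsum_powerSeries_nhdsWithin_lt (limG h)).comp r3)
  rw [one_mul] at a1
  have a2 : Tendsto (fun σ : ℝ => Real.exp (-σ) * (∑' k, ab k * Real.exp (-σ) ^ k) +
      Real.log (1 - Real.exp (-σ))) (𝓝[>] 0) (𝓝 (B - Real.eulerMascheroniConstant)) := by
    refine a1.congr' ?_
    filter_upwards [self_mem_nhdsWithin] with σ hσ
    have b1 := Real.hasSum_pow_div_log_of_abs_lt_one (x := Real.exp (-σ))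
      (by rw [abs_of_pos (Real.exp_pos _)]; exact r2 σ hσ)
    have b2 := ((cmpA hσ).1.hasSum.mul_left (Real.exp (-σ))).sub b1
    rw [sub_neg_eq_add] at b2
    rw [← b2.tsum_eq, Function.comp_apply, ← tsum_mul_left]
    exact tsum_congr fun k => by ring
  have y1 : Tendsto (fun σ : ℝ => (∑' n : ℕ, cc n 1 * tt σ n) + Real.log (1 - Real.exp (-σ)))
      (𝓝[>] 0) (𝓝 0) := by
    have := (limPL.add limL).add limE
    rw [add_zero, add_zero] at this
    exact this.congr fun σ => by ring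
  have y2 : Tendsto (fun σ : ℝ => (1 - Real.exp (-σ)) * Real.log (1 - Real.exp (-σ)))
      (𝓝[>] 0) (𝓝 0) := by
    have := (Real.continuous_mul_log.tendsto _).comp (r1.const_sub 1)
    simpa [Function.comp_def] using this
  have y3 := (r1.mul y1).add y2
  rw [mul_zero, add_zero] at y3
  have a3 : Tendsto (fun σ : ℝ => Real.exp (-σ) * (∑' k, ab k * Real.exp (-σ) ^ k) +
      Real.log (1 - Real.exp (-σ))) (𝓝[>] 0) (𝓝 0) := by
    refine tendsto_of_tendsto_of_tendsto_of_le_of_le' y3 y1 ?_ ?_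
    · filter_upwards [self_mem_nhdsWithin] with σ hσ
      have := mul_le_mul_of_nonneg_left (cmpA hσ).2.2 (Real.exp_pos (-σ)).le
      linarith
    · filter_upwards [self_mem_nhdsWithin] with σ hσ
      have := (cmpA hσ).2.1
      linarith
  exact sub_eq_zero.1 (tendsto_nhds_unique a2 a3)

theorem mert_of {B C : ℝ} (h : M2 B C) : Mert := by
  obtain rfl := m3 h
  have l2 : 0 < Real.log 2 := Real.log_pos one_lt_two
  have C0 : 0 ≤ C := by
    have := (abs_nonneg _).trans (h 2 le_rfl)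
    push_cast at this
    exact (div_nonneg_iff.1 this).elim (fun a => a.1) fun a => absurd a.2 (not_le.2 l2)
  refine ⟨eg * (C * Real.exp (C / Real.log 2)), by unfold eg; positivity, fun z hz => ?_⟩
  have z2 : (2 : ℝ) ≤ z := by exact_mod_cast hz
  have l3 : Real.log 2 ≤ Real.log z := Real.log_le_log two_pos z2
  have l4 : 0 < Real.log z := l2.trans_le l3
  have v0 : 0 < VV z := prod_pos fun p hp => by
    have := MB.half ((mem_PP _ _ _).1 hp).2 (t := 1) le_rfl
    unfold bb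
    linarith
  have h1 := h z hz
  set d := -Real.log (VV z) - Real.log (Real.log z) - Real.eulerMascheroniConstant with hd
  have e1 : VV z * Real.log z = eg * Real.exp (-d) := by
    rw [eg, ← Real.exp_add, ← Real.exp_log (mul_pos v0 l4), Real.log_mul v0.ne' l4.ne', hd]
    congr 1
    ring
  have h2 : |d| ≤ C / Real.log 2 := h1.trans (div_le_div_of_nonneg_left C0 l2 l3)
  have h3 : |Real.exp (-d) - 1| ≤ |d| * Real.exp |d| := by
    have b1 := Real.add_one_le_exp (-d)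
    have b2 := mul_le_mul_of_nonneg_right (Real.add_one_le_exp d) (Real.exp_pos (-d)).le
    rw [← Real.exp_add, add_neg_cancel, Real.exp_zero] at b2
    have b3 : Real.exp (-d) ≤ Real.exp |d| := Real.exp_le_exp.2 (neg_le_abs d)
    have b4 : 1 ≤ Real.exp |d| := Real.one_le_exp (abs_nonneg d)
    have b5 := mul_le_mul_of_nonneg_left b3 (abs_nonneg d)
    have b6 := mul_le_mul_of_nonneg_left b4 (abs_nonneg d)
    have b7 := mul_le_mul_of_nonneg_right (neg_le_abs d) (Real.exp_pos (-d)).le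
    rw [abs_le]
    constructor <;> linarith [le_abs_self d]
  have g0 : 0 < eg := Real.exp_pos _
  rw [e1, ← mul_sub_one, abs_mul, abs_of_pos g0, mul_div_assoc, mul_div_right_comm]
  exact mul_le_mul_of_nonneg_left (h3.trans (mul_le_mul h1 (Real.exp_le_exp.2 h2)
    (Real.exp_pos _).le (by positivity))) g0.le

end Pool.Agent.MP_d228e7_nt.T

end
end
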