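import Pool.Agent.MP_d228e7_nt.T.Defs

set_option linter.all false

section

/-!
High moments of weighted window sums, revealing one prime at a time.
-/

set_option autoImplicit false

open Finset

noncomputable section

namespace Pool.Agent.MP_d228e7_nt.T

open Pool.Agent.MP_cebb75_nt Pool.Agent.MP_fdd1d3_nt

theorem binom_tail (r : ℕ) {ρ : ℝ} (h0 : 0 ≤ ρ) (h1 : (r + 2) * ρ ≤ 1) :
    ∑ i ∈ range (r + 1), ρ ^ (i + 1 + 1) * ((r + 2).choose (i + 1 + 1) : ℝ) ≤ ((r + 2) * ρ) ^ 2 := by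
  have h2 : (ρ + 1) ^ (r + 2) ≤ Real.exp ((r + 2) * ρ) := by
    have := pow_le_pow_left₀ (by positivity) (Real.add_one_le_exp ρ) (r + 2)
    rw [← Real.exp_nat_mul] at this
    exact_mod_cast this
  have h3 := (abs_le.1 (Real.abs_exp_sub_one_sub_id_le (x := (r + 2) * ρ)
    (by rw [abs_of_nonneg (by positivity)]; exact h1))).2
  rw [add_pow, sum_range_succ', sum_range_succ'] at h2
  simp only [one_pow, mul_one, zero_add, pow_one, pow_zero, Nat.choose_one_right,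
    Nat.choose_zero_right, Nat.cast_one] at h2
  push_cast at h2
  linarith

theorem pow_step {r : ℕ} (hq : Even (r + 2)) (X Y : ℝ) {ρ : ℝ} (h0 : 0 < ρ)
    (h1 : (r + 2) * ρ ≤ 1) :
    (X + Y) ^ (r + 2) ≤ X ^ (r + 2) + (r + 2) * X ^ (r + 1) * Y +
      ((r + 2) * ρ) ^ 2 * (X ^ (r + 2) + (Y / ρ) ^ (r + 2)) := by
  have hA : 0 ≤ X ^ (r + 2) + (Y / ρ) ^ (r + 2) := add_nonneg (hq.pow_nonneg _) (hq.pow_nonneg _)
  have h2 : ∑ i ∈ range (r + 1), Y ^ (i + 1 + 1) * X ^ (r + 2 - (i + 1 + 1)) *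
      ((r + 2).choose (i + 1 + 1) : ℝ) ≤ ∑ i ∈ range (r + 1),
      ρ ^ (i + 1 + 1) * ((r + 2).choose (i + 1 + 1) : ℝ) * (X ^ (r + 2) + (Y / ρ) ^ (r + 2)) := by
    refine sum_le_sum fun i hi => ?_
    rw [mul_right_comm (ρ ^ _)]
    refine mul_le_mul_of_nonneg_right ?_ (by positivity)
    have h3 := mix_le (abs_nonneg (Y / ρ)) (abs_nonneg X)
      (show i + 1 + 1 ≤ r + 2 by have := mem_range.1 hi; omega)
    rw [hq.pow_abs, hq.pow_abs] at h3
    have h4 : |Y| = ρ * |Y / ρ| := by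
      rw [abs_div, abs_of_pos h0]
      field_simp
    refine (le_abs_self _).trans ?_
    rw [abs_mul, abs_pow, abs_pow, h4, mul_pow, mul_assoc, add_comm (X ^ (r + 2))]
    exact mul_le_mul_of_nonneg_left h3 (by positivity)
  rw [← sum_mul] at h2
  have h4 := mul_le_mul_of_nonneg_right (binom_tail r h0.le h1) hA
  rw [add_comm X Y, add_pow, sum_range_succ', sum_range_succ']
  simp only [zero_add, pow_one, pow_zero, Nat.choose_one_right, Nat.choose_zero_right,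
    Nat.cast_one, one_mul, mul_one, Nat.sub_zero, show r + 2 - 1 = r + 1 from rfl]
  push_cast at h2 ⊢
  linarith

theorem mart_step {N p t r : ℕ} (hq : Even (r + 2)) (co : p.Coprime N) (hN : 0 < N) (hp : 0 < p)
    (w : ℕ → ℝ) {G D : ℕ → ℝ} (hG : Per N G) (hD : Per N D) {ρ R : ℝ} (h0 : 0 < ρ)
    (h1 : (r + 2) * ρ ≤ 1)
    (hR : ∀ c, av N (fun m => (∑ b ∈ range t, w b * (D (m + b) * chi p (c + b))) ^ (r + 2)) ≤
      (ρ * R) ^ (r + 2)) :
    av (p * N) (fun n => (∑ b ∈ range t, w b * (G (n + b) + D (n + b) * chi p (n + b))) ^ (r + 2)) +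
      R ^ (r + 2) ≤ (1 + ((r + 2) * ρ) ^ 2) *
        (av N (fun n => (∑ b ∈ range t, w b * G (n + b)) ^ (r + 2)) + R ^ (r + 2)) := by
  set X : ℕ → ℝ := fun m => ∑ b ∈ range t, w b * G (m + b) with hX
  set Y : ℕ → ℕ → ℝ := fun c m => ∑ b ∈ range t, w b * (D (m + b) * chi p (c + b)) with hY
  have hp' : (0 : ℝ) < p := by exact_mod_cast hp
  have e1 : av (p * N)
      (fun n => (∑ b ∈ range t, w b * (G (n + b) + D (n + b) * chi p (n + b))) ^ (r + 2))
      = (∑ c ∈ range p, av N fun m => (X m + Y c m) ^ (r + 2)) / p := by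
    simp only [av, ← sum_div]
    rw [← sum_crt co hp hN fun c m => (X m + Y c m) ^ (r + 2), div_div, Nat.cast_mul,
      mul_comm (p : ℝ)]
    congr 1
    refine sum_congr rfl fun n _ => ?_
    simp only [hX, hY, mul_add, sum_add_distrib, (hG.shift _).mod n, (hD.shift _).mod n,
      ((chi_per p).shift _).mod n]
  have e2 : ∑ c ∈ range p, av N (fun m => (r + 2) * X m ^ (r + 1) * Y c m) = 0 := by
    rw [← av_sum]
    simp only [← mul_sum, hY]
    have : ∀ m, ∑ c ∈ range p, ∑ b ∈ range t, w b * (D (m + b) * chi p (c + b)) = 0 := fun m => by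
      rw [sum_comm]
      exact sum_eq_zero fun b _ => by rw [← mul_sum, ← mul_sum, chi_sum hp, mul_zero, mul_zero]
    simp [this, av]
  have e3 : ∀ c, av N (fun m => (Y c m / ρ) ^ (r + 2)) ≤ R ^ (r + 2) := by
    intro c
    simp only [div_pow, div_eq_inv_mul _ (ρ ^ (r + 2))]
    rw [av_const_mul, inv_mul_le_iff₀ (by positivity), ← mul_pow]
    exact hR c
  have e4 : ∀ c ∈ range p, av N (fun m => (X m + Y c m) ^ (r + 2)) ≤
      av N (fun m => (r + 2) * X m ^ (r + 1) * Y c m) + (av N (fun m => X m ^ (r + 2)) +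
        ((r + 2) * ρ) ^ 2 * (av N (fun m => X m ^ (r + 2)) + R ^ (r + 2))) := by
    intro c _
    refine (av_mono fun m => pow_step hq (X m) (Y c m) h0 h1).trans ?_
    have h2 := mul_le_mul_of_nonneg_left (e3 c) (show 0 ≤ ((r + 2) * ρ) ^ 2 by positivity)
    generalize ((r + 2) * ρ) ^ 2 = θ at h2 ⊢
    simp only [av, sum_add_distrib, ← mul_sum, add_div, mul_div_assoc, mul_add] at h2 ⊢
    linarith
  have e5 := sum_le_sum e4
  rw [sum_add_distrib, e2, zero_add, sum_const, card_range, nsmul_eq_mul, ← div_le_iff₀' hp'] at e5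
  rw [e1]
  linarith

theorem mart {P P' : Finset ℕ} (hP : ∀ p ∈ P, p.Prime) (hP' : ∀ p ∈ P', p.Prime)
    (hd : Disjoint P P') {t r : ℕ} (hq : Even (r + 2)) (w : ℕ → ℝ)
    (G : Finset ℕ → ℕ → ℝ) (D : Finset ℕ → ℕ → ℕ → ℝ) {R : ℝ} (ρ : ℕ → ℝ)
    (hρ : ∀ p ∈ P', 0 < ρ p ∧ (r + 2) * ρ p ≤ 1) (hG0 : ∀ n, G ∅ n = 0)
    (hG : ∀ Q ⊆ P', Per (∏ p ∈ P ∪ Q, p) (G Q))
    (hD : ∀ Q ⊆ P', ∀ p ∈ P', p ∉ Q → Per (∏ p ∈ P ∪ Q, p) (D Q p) ∧
      (∀ c, av (∏ p ∈ P ∪ Q, p)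
        (fun m => (∑ b ∈ range t, w b * (D Q p (m + b) * chi p (c + b))) ^ (r + 2)) ≤
          (ρ p * R) ^ (r + 2)) ∧
      ∀ n, G (insert p Q) n = G Q n + D Q p n * chi p n) :
    ∀ Q ⊆ P', av (∏ p ∈ P ∪ Q, p) (fun n => (∑ b ∈ range t, w b * G Q (n + b)) ^ (r + 2)) +
      R ^ (r + 2) ≤ (∏ p ∈ Q, (1 + ((r + 2) * ρ p) ^ 2)) * R ^ (r + 2) := by
  intro Q
  induction Q using Finset.induction_on with
  | empty => simp [hG0, av]
  | insert p Q hp ih =>
    intro hQ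
    have hp' := hQ (mem_insert_self _ _)
    have hQ' := (subset_insert _ _).trans hQ
    obtain ⟨h1, h2, h3⟩ := hD Q hQ' p hp' hp
    obtain ⟨h4, h5⟩ := hρ p hp'
    have hS : ∀ q ∈ P ∪ Q, q.Prime := fun q hq =>
      (mem_union.1 hq).elim (hP q) fun h => hP' q (hQ' h)
    have hpS : p ∉ P ∪ Q := fun h =>
      (mem_union.1 h).elim (fun h => disjoint_left.1 hd h hp') hp
    have co : p.Coprime (∏ q ∈ P ∪ Q, q) := Nat.Coprime.prod_right fun q hq =>
      (Nat.coprime_primes (hP' p hp') (hS q hq)).2 fun h => hpS (h ▸ hq)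
    rw [union_insert, prod_insert hpS, prod_insert hp, mul_assoc]
    simp only [h3]
    exact (mart_step hq co (prod_pos fun q hq => (hS q hq).pos) (hP' p hp').pos w
      (hG Q hQ') h1 h4 h5 h2).trans (mul_le_mul_of_nonneg_left (ih hQ') (by positivity))

/-- summation by parts against monotone weights -/
theorem abel {t : ℕ} {w d : ℕ → ℝ} (hw : Wt t w) {E : ℝ}
    (hd : ∀ k, |∑ b ∈ range k, d b| ≤ E) : |∑ b ∈ range t, w b * d b| ≤ 2 * E := by
  have hE : 0 ≤ E := (abs_nonneg _).trans (hd 0)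
  rcases t with _ | t
  · simpa using hE
  have key : ∀ k, k ≤ t → |∑ b ∈ range (k + 1), w b * d b - w k * ∑ b ∈ range (k + 1), d b| ≤
      (w k - w 0) * E := by
    intro k hk
    induction k with
    | zero => simp
    | succ k ih =>
      have h1 := ih (by omega)
      have h2 := hw.2 k (by omega)
      have h3 : ∑ b ∈ range (k + 1 + 1), w b * d b - w (k + 1) * ∑ b ∈ range (k + 1 + 1), d b =
          (∑ b ∈ range (k + 1), w b * d b - w k * ∑ b ∈ range (k + 1), d b) -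
            (w (k + 1) - w k) * ∑ b ∈ range (k + 1), d b := by
        rw [sum_range_succ _ (k + 1), sum_range_succ d (k + 1)]
        ring
      rw [h3]
      refine (abs_sub _ _).trans ?_
      rw [abs_mul, abs_of_nonneg (sub_nonneg.2 h2)]
      linarith [mul_le_mul_of_nonneg_left (hd (k + 1)) (sub_nonneg.2 h2)]
  have h1 := key t le_rfl
  obtain ⟨h2, h3⟩ := hw.1 t (by omega)
  have h4 := (hw.1 0 (by omega)).1
  have h5 : |w t * ∑ b ∈ range (t + 1), d b| ≤ E := by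
    rw [abs_mul, abs_of_nonneg h2]
    nlinarith [hd (t + 1), abs_nonneg (∑ b ∈ range (t + 1), d b)]
  have h6 := abs_add_le (∑ b ∈ range (t + 1), w b * d b - w t * ∑ b ∈ range (t + 1), d b)
    (w t * ∑ b ∈ range (t + 1), d b)
  rw [sub_add_cancel] at h6
  nlinarith

theorem winW {P : Finset ℕ} (hP : ∀ p ∈ P, 0 < p) {g : ℕ → ℝ} {M : ℝ} (h : MS P g M) (n : ℕ)
    {t : ℕ} {w : ℕ → ℝ} (hw : Wt t w) :
    |∑ b ∈ range t, w b * g (n + b) - (∑ b ∈ range t, w b) * av (∏ p ∈ P, p) g| ≤ 4 * M := by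
  have := abel hw (d := fun b => g (n + b) - av (∏ p ∈ P, p) g) (E := 2 * M) fun k => by
    simpa [sum_sub_distrib] using h.window hP n k
  simp only [mul_sub, sum_sub_distrib, ← sum_mul] at this
  linarith

theorem discW {P : Finset ℕ} (hP : ∀ p ∈ P, 0 < p) {g : ℕ → ℝ} {M : ℝ} (h : MS P g M)
    (hg : Per (∏ p ∈ P, p) g) {t : ℕ} {w : ℕ → ℝ} (hw : Wt t w) (q x X : ℕ) :
    ∑ n ∈ range x, (∑ b ∈ range t, w b * g (n + X + b)) ^ q ≤
      x * av (∏ p ∈ P, p) (fun n => (∑ b ∈ range t, w b * g (n + b)) ^ q) + (t * M) ^ q := by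
  have hM := h.nonneg hP
  have h1 := Mult.sum (range t) (fun b n => w b * g (n + (X + b))) (fun _ => M) fun b hb => by
    have h2 := (h (∏ p ∈ P, p) x (X + b) fun p hp => dvd_prod_of_mem _ hp).smul (w b)
    obtain ⟨h3, h4⟩ := hw.1 b (mem_range.1 hb)
    exact h2.mono (by rw [abs_of_nonneg h3]; nlinarith)
  have h2 := (Mult.prod (range q) _ _ fun _ _ => h1).disc (prod_pos hP)
  have h3 : Per (∏ p ∈ P, p) fun n => (∑ b ∈ range t, w b * g (n + b)) ^ q := fun m n hmn => by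
    simp only [fun b => hg.shift b m n hmn]
  rw [← av_shift h3 X]
  simpa only [av, prod_const, sum_const, card_range, nsmul_eq_mul, Pi.pow_apply,
    Finset.sum_apply, add_assoc] using h2

end Pool.Agent.MP_d228e7_nt.T

end
end

section

/-!
The moment bound, with a majorant of small level for the sieve weights.
-/

set_option autoImplicit false

open Finset

noncomputable section

namespace Pool.Agent.MP_d228e7_nt.T

open Pool.Agent.MP_cebb75_nt Pool.Agent.MP_fdd1d3_nt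

theorem chi_le (p n : ℕ) : |chi p n| ≤ ((om {p} 0 n).choose 1 : ℝ) + 1 / p := by
  rw [Nat.choose_one_right, chi, om, filter_singleton]
  refine (abs_sub _ _).trans (add_le_add ?_ (le_of_eq (abs_of_nonneg (by positivity))))
  split_ifs <;> simp

theorem maj {P : Finset ℕ} (hP : ∀ p ∈ P, p.Prime) {A : ℕ → ℝ} {M c : ℝ} (hA : ∀ n, 0 ≤ A n)
    (hper : Per (∏ p ∈ P, p) A) (hms : MS P A M) (hav : av (∏ p ∈ P, p) A ≤ c) {p : ℕ}
    (hp : p.Prime) (hpP : p ∉ P) (t m k : ℕ) :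
    ∑ b ∈ range t, A (m + b) * |chi p (k + b)| ≤ 2 * c * t / p + 4 * M := by
  have co : p.Coprime (∏ q ∈ P, q) := Nat.Coprime.prod_right fun q hq =>
    (Nat.coprime_primes hp (hP q hq)).2 fun h => hpP (h ▸ hq)
  obtain ⟨n, h1, h2⟩ := Nat.chineseRemainder co k m
  have hP0 : ∀ q ∈ P, 0 < q := fun q hq => (hP q hq).pos
  have hM := hms.nonneg hP0
  have hp' : (1 : ℝ) ≤ p := by exact_mod_cast hp.pos
  have hd : Disjoint P {p} := disjoint_singleton_right.2 hpP
  have hs : ∀ q ∈ ({p} : Finset ℕ), q.Prime := fun q hq => mem_singleton.1 hq ▸ hp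
  have m1 := (hms.subset (subset_union_left (s₂ := {p}))).mul
    ((ms_choose {p} (fun q hq => (hs q hq).pos) 1).subset subset_union_right)
  have w1 := (abs_le.1 (m1.window
    (fun q hq => (mem_union.1 hq).elim (hP0 q) fun h => (hs q h).pos) n t)).2
  have e1 : E1 {p} (fun v => (v.choose 1 : ℝ)) = 1 / p := by
    rw [← insert_empty_eq, E1_insert (notMem_empty p)]
    simp [E1, EE]
  rw [av_union hP hs hd hper fun v => (v.choose 1 : ℝ), e1] at w1
  have w2 := (abs_le.1 (hms.window hP0 n t)).2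
  have h3 : ∑ b ∈ range t, A (m + b) * |chi p (k + b)| ≤
      ∑ b ∈ range t, A (n + b) * ((om {p} 0 (n + b)).choose 1 : ℝ) +
        1 / p * ∑ b ∈ range t, A (n + b) := by
    rw [mul_sum, ← sum_add_distrib]
    refine sum_le_sum fun b _ => ?_
    rw [← hper _ _ (h2.add_right b), ← chi_per p _ _ (h1.add_right b)]
    linarith [mul_le_mul_of_nonneg_left (chi_le p (n + b)) (hA (n + b))]
  have h4 : (0 : ℝ) ≤ 1 / p := by positivity
  have h5 : 1 / (p : ℝ) ≤ 1 := div_le_one_of_le₀ hp' (by positivity)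
  have h6 := mul_le_mul_of_nonneg_left hav (show (0 : ℝ) ≤ t * (1 / p) by positivity)
  have h7 := mul_le_mul_of_nonneg_left
    (show ∑ b ∈ range t, A (n + b) ≤ t * av (∏ p ∈ P, p) A + 2 * M by linarith) h4
  rw [card_singleton, Nat.cast_one, one_pow, mul_one] at w1
  rw [div_eq_mul_one_div]
  nlinarith

theorem chi_abs' {p : ℕ} (hp : p.Prime) (t k : ℕ) :
    ∑ b ∈ range t, |chi p (k + b)| ≤ 2 * t / p + 4 := by
  have h := MS.const ∅ 1
  rw [abs_one] at h
  simpa using maj (P := ∅) (by simp) (A := fun _ => 1) (c := 1) (fun _ => zero_le_one)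
    (fun _ _ _ => rfl) h (by simp [av]) hp (notMem_empty p) t 0 k

variable {a M s : ℝ} {P P' : Finset ℕ} {lo up : ℕ → ℝ} {D : ℕ}

theorem lo_le_up (h : SP a P lo up M D s) (n : ℕ) : lo n ≤ up n := (h.lo_le n).trans (h.le_up n)

theorem up_nonneg (h : SP a P lo up M D s) (n : ℕ) : 0 ≤ up n := (pt_nonneg _).trans (h.le_up n)

theorem av_lo_le (h : SP a P lo up M D s) (hP : ∀ p ∈ P, p.Prime) :
    av (∏ p ∈ P, p) lo ≤ ∏ p ∈ P, bb p := by
  rw [← E1_pt, ← av_om P hP]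
  exact av_mono h.lo_le

theorem prod_bb_le (P : Finset ℕ) : ∏ p ∈ P, bb p ≤ 1 :=
  prod_le_one (fun p _ => bb_nonneg p) fun p _ => by
    unfold bb
    linarith [show (0 : ℝ) ≤ 1 / p by positivity]

theorem mom (h : SP a P lo up M D s) (hs : s ≤ 1 / 2) (hM : 2 ≤ M) (hP : ∀ p ∈ P, p.Prime)
    (hP' : ∀ p ∈ P', p.Prime) (hd : Disjoint P P') {u z : ℕ} (hu : 0 < u) (hPu : P' ⊆ Ioc u z)
    {f : ℕ → ℝ} (hfp : Per (∏ p ∈ P, p) f) (hf : ∀ n, |f n| ≤ 2 * up n - lo n) {r : ℕ}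
    (hq : Even (r + 2)) {φ : ℕ → ℝ} {A K : ℝ} (hA : 0 ≤ A)
    (hφ : ∀ v, 0 ≤ φ v ∧ φ v ≤ A * (1 + 1 / ((r + 2 : ℕ) : ℝ)) ^ v)
    (hK : ∑ p ∈ P', 1 / (p : ℝ) ≤ K) {t : ℕ} {w : ℕ → ℝ} (hw : Wt t w) {β : ℝ} (hβ0 : 0 < β)
    (hβ : 256 * t ^ 2 / u + 576 * M ^ 2 * z ≤ β ^ 2) :
    av (∏ p ∈ P ∪ P', p) (fun n => (∑ b ∈ range t,
      w b * (f (n + b) * (φ (om P' 0 (n + b)) - E1 P' φ))) ^ (r + 2)) ≤
      ((r + 2) * β * (A * (2 * Real.exp K) * Real.exp K)) ^ (r + 2) := by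
  set a' : ℝ := ((r + 2 : ℕ) : ℝ) with ha'
  have ha : 1 ≤ a' := by rw [ha']; exact_mod_cast (by omega : 1 ≤ r + 2)
  set Λ := A * (2 * Real.exp K) * Real.exp K with hΛ
  set B : ℕ → ℝ := fun p => 8 * t / p + 12 * M with hB
  have hB0 : ∀ p, 0 < B p := fun p => by positivity
  have hr : (0 : ℝ) < r + 2 := by positivity
  have hK0 : 0 ≤ K := (sum_nonneg fun _ _ => by positivity).trans hK
  have hsum : ∑ p ∈ P', (B p / β) ^ 2 ≤ 1 / 2 := by
    have h1 : ∑ p ∈ P', B p ^ 2 ≤ ∑ p ∈ Ioc u z, (128 * t ^ 2 * (1 / (p : ℝ)) ^ 2 + 288 * M ^ 2) :=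
      (sum_le_sum_of_subset_of_nonneg hPu fun _ _ _ => sq_nonneg _).trans (sum_le_sum fun p _ => by
        rw [hB]
        simp only [div_eq_mul_one_div (8 * (t : ℝ))]
        nlinarith [sq_nonneg (8 * t * (1 / (p : ℝ)) - 12 * M)])
    rw [sum_add_distrib, ← mul_sum, sum_const, nsmul_eq_mul, Nat.card_Ioc] at h1
    have h2 := mul_le_mul_of_nonneg_left (inv_sq_tail u z hu)
      (show (0 : ℝ) ≤ 128 * t ^ 2 by positivity)
    have h3 := mul_le_mul_of_nonneg_right (show ((z - u : ℕ) : ℝ) ≤ z by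
      exact_mod_cast Nat.sub_le _ _) (show 0 ≤ 288 * M ^ 2 by positivity)
    simp only [div_pow, ← sum_div]
    rw [div_le_iff₀ (by positivity)]
    rw [div_eq_mul_one_div] at hβ
    linarith
  have hG : ∀ n, 0 ≤ 2 * up n - lo n := fun n => by linarith [lo_le_up h n, up_nonneg h n]
  have hGp : Per (∏ p ∈ P, p) fun n => 2 * up n - lo n := fun x y hxy => by
    simp only [h.per_lo x y hxy, h.per_up x y hxy]
  have hGm : MS P (fun n => 2 * up n - lo n) (3 * M) :=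
    (((MS.const P 2).mul h.ms_up).sub h.ms_lo).mono (by rw [abs_two]; linarith)
  have hGa : av (∏ p ∈ P, p) (fun n => 2 * up n - lo n) ≤ 4 := by
    rw [av_sub, av_const_mul]
    have h1 := h.mean
    have h2 := (av_lo_le h hP).trans (prod_bb_le P)
    nlinarith [h.av_nonneg]
  have key := mart hP hP' hd (t := t) hq w
    (fun Q n => f n * (cond P' φ Q (om Q 0 n) - E1 P' φ))
    (fun Q p n => f n * (cond P' φ (insert p Q) (om Q 0 n + 1) - cond P' φ (insert p Q) (om Q 0 n)))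
    (R := (r + 2) * β * Λ) (fun p => B p / β / (r + 2)) (fun p hp => ⟨by positivity, ?_⟩)
    (fun n => by simp only [cond_empty, sub_self, mul_zero])
    (fun Q hQ => per_union (hd.mono_right hQ) hfp fun v => cond P' φ Q v - E1 P' φ)
    (fun Q hQ p hp hpQ => ⟨per_union (hd.mono_right hQ) hfp
      fun v => cond P' φ (insert p Q) (v + 1) - cond P' φ (insert p Q) v, fun c => ?_,
      fun n => ?_⟩) P' Subset.rfl
  · simp only [cond_self, mul_div_cancel₀ _ hr.ne'] at key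
    have h1 : ∏ p ∈ P', (1 + (B p / β) ^ 2) ≤ 2 := by
      refine (Real.prod_one_add_le_exp_sum _ fun p => by positivity).trans ?_
      rw [← Real.le_log_iff_exp_le two_pos]
      linarith [Real.log_two_gt_d9]
    have h2 := mul_le_mul_of_nonneg_right h1 (hq.pow_nonneg ((r + 2) * β * Λ))
    linarith
  · rw [mul_div_cancel₀ _ hr.ne']
    have h1 := single_le_sum (f := fun p => (B p / β) ^ 2) (fun _ _ => sq_nonneg _) hp
    nlinarith [show 0 < B p / β by positivity]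
  · have hQp : ∀ q ∈ Q, q.Prime := fun q hq => hP' q (hQ hq)
    have hdQ := hd.mono_right hQ
    set Δ : ℕ → ℝ := fun v => A * (2 * Real.exp K * (1 + 1 / a') ^ v) with hΔ
    have hΔ0 : ∀ v, 0 ≤ Δ v := fun v => by positivity
    have hpP : p ∉ P := fun hh => disjoint_left.1 hd hh hp
    have h1 : ∀ m, (∑ b ∈ range t, w b * (f (m + b) * (cond P' φ (insert p Q) (om Q 0 (m + b) + 1) -
        cond P' φ (insert p Q) (om Q 0 (m + b))) * chi p (c + b))) ^ (r + 2) ≤ B p ^ (r + 1) *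
          ∑ b ∈ range t, |chi p (c + b)| *
            ((2 * up (m + b) - lo (m + b)) * Δ (om Q 0 (m + b)) ^ (r + 2)) := by
      intro m
      have h2 := hold (range t) (fun b => (2 * up (m + b) - lo (m + b)) * |chi p (c + b)|)
        (fun b => Δ (om Q 0 (m + b))) (fun _ _ => mul_nonneg (hG _) (abs_nonneg _))
        (fun _ _ => hΔ0 _) (B := B p)
        ((maj hP hG hGp hGm hGa (hP' p hp) hpP t m c).trans (le_of_eq (by rw [hB]; ring))) (r + 1)
      refine le_trans ?_ (h2.trans (le_of_eq ?_))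
      · rw [← hq.pow_abs]
        refine pow_le_pow_left₀ (abs_nonneg _) ((abs_sum_le_sum_abs _ _).trans
          (sum_le_sum fun b hb => ?_)) _
        obtain ⟨h3, h4⟩ := hw.1 b (mem_range.1 hb)
        have h5 := mul_le_mul (hf (m + b)) (cond_diff ha hA hφ hK (insert p Q) (om Q 0 (m + b)))
          (abs_nonneg _) (hG _)
        rw [abs_mul, abs_mul, abs_mul, abs_of_nonneg h3, mul_right_comm (2 * up _ - _)]
        exact (mul_le_of_le_one_left (by positivity) h4).trans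
          (mul_le_mul_of_nonneg_right h5 (abs_nonneg _))
      · congr 1
        exact sum_congr rfl fun b _ => by ring
    have h2 : E1 Q (fun v => Δ v ^ (r + 2)) ≤ Λ ^ (r + 2) := by
      refine (E1_mono Q (g := fun v => (A * (2 * Real.exp K)) ^ (r + 2) * 3 ^ v) fun v => ?_).trans ?_
      · rw [hΔ]
        simp only [← mul_assoc]
        rw [mul_pow _ (_ ^ v), ← pow_mul, mul_comm v, pow_mul]
        exact mul_le_mul_of_nonneg_left (pow_le_pow_left₀ (by positivity) (one_add_pow_le _) _)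
          (by positivity)
      · rw [E1_mul, hΛ, mul_pow _ (Real.exp K), ← Real.exp_nat_mul]
        refine mul_le_mul_of_nonneg_left ((E1_pow_le _ _ (by norm_num)).trans
          (Real.exp_le_exp.2 ?_)) (by positivity)
        have h3 := (sum_le_sum_of_subset_of_nonneg (f := fun p : ℕ => 1 / (p : ℝ)) hQ
          fun _ _ _ => by positivity).trans hK
        push_cast
        nlinarith [mul_nonneg (Nat.cast_nonneg (α := ℝ) r) hK0]
    have h3 := per_union hdQ hGp fun v => Δ v ^ (r + 2)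
    have h4 : av (∏ p ∈ P ∪ Q, p) (fun n => (2 * up n - lo n) * Δ (om Q 0 n) ^ (r + 2)) ≤
        4 * Λ ^ (r + 2) := by
      rw [av_union hP hQp hdQ hGp fun v => Δ v ^ (r + 2)]
      exact mul_le_mul hGa h2 (E1_nonneg _ fun v => by positivity) (by norm_num)
    have h5 : B p / β / (r + 2) * ((r + 2) * β * Λ) = B p * Λ := by field_simp
    refine (av_mono h1).trans ?_
    rw [av_const_mul, av_sum, h5, mul_pow, pow_succ (B p) (r + 1), mul_assoc]
    refine mul_le_mul_of_nonneg_left ?_ (by positivity)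
    calc _ ≤ ∑ b ∈ range t, |chi p (c + b)| * (4 * Λ ^ (r + 2)) := sum_le_sum fun b _ => by
          rw [av_const_mul, av_shift h3]
          exact mul_le_mul_of_nonneg_left h4 (abs_nonneg _)
      _ ≤ _ := by
          rw [← sum_mul, ← mul_assoc]
          refine mul_le_mul_of_nonneg_right ?_ (hq.pow_nonneg _)
          have := chi_abs' (hP' p hp) t c
          rw [hB]
          simp only [mul_div_assoc] at this ⊢
          linarith
  · simp only [cond_insert hp hpQ]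
    ring

end Pool.Agent.MP_d228e7_nt.T

end
end

section

/-!
Counting the windows with an atypical number of survivors.
-/

set_option autoImplicit false

open Finset

noncomputable section

namespace Pool.Agent.MP_d228e7_nt.T

open Pool.Agent.MP_cebb75_nt Pool.Agent.MP_fdd1d3_nt

theorem cheb {S : Finset ℕ} (hS : ∀ p ∈ S, 0 < p) {g : ℕ → ℝ} {L R γ : ℝ} (hm : MS S g L)
    (hg : Per (∏ p ∈ S, p) g) {t : ℕ} {w : ℕ → ℝ} (hw : Wt t w) {q : ℕ} (hq : Even q)
    (hR : av (∏ p ∈ S, p) (fun n => (∑ b ∈ range t, w b * g (n + b)) ^ q) ≤ R ^ q) (hγ : 0 ≤ γ)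
    (x X : ℕ) : (((range x).filter fun n => γ < |∑ b ∈ range t, w b * g (n + X + b)|).card : ℝ) *
      γ ^ q ≤ x * R ^ q + (t * L) ^ q := by
  refine le_trans ?_ ((discW hS hm hg hw q x X).trans
    (add_le_add (mul_le_mul_of_nonneg_left hR (Nat.cast_nonneg x)) le_rfl))
  rw [← nsmul_eq_mul, ← sum_const]
  refine le_trans (sum_le_sum fun n hn => ?_) (sum_le_sum_of_subset_of_nonneg (filter_subset _ _)
    fun n _ _ => hq.pow_nonneg _)
  rw [← hq.pow_abs (∑ b ∈ range t, _)]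
  exact pow_le_pow_left₀ hγ (mem_filter.1 hn).2.le _

theorem VV_nonneg (z : ℕ) : 0 ≤ VV z := prod_nonneg fun p _ => bb_nonneg p

theorem Wt.sum_nonneg {t : ℕ} {w : ℕ → ℝ} (hw : Wt t w) : 0 ≤ ∑ b ∈ range t, w b :=
  Finset.sum_nonneg fun b hb => (hw.1 b (mem_range.1 hb)).1

theorem Wt.sum_le {t : ℕ} {w : ℕ → ℝ} (hw : Wt t w) : ∑ b ∈ range t, w b ≤ t := by
  simpa using sum_le_card_nsmul (range t) w 1 fun b hb => (hw.1 b (mem_range.1 hb)).2

theorem count {a M s : ℝ} {lo up : ℕ → ℝ} {D u z m r t : ℕ} (h : SP a (PP 0 u) lo up M D s)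
    (ha : 1 ≤ a) (hs0 : 0 ≤ s) (hs : s ≤ 1 / 4) (hM : 2 ≤ M) (hu : 1 ≤ u) (huz : u ≤ z)
    (hz : 2 ≤ z) (hq : Even (r + 2)) {K ε γ β : ℝ} (hK : ∑ p ∈ PP u z, 1 / (p : ℝ) ≤ K)
    (hε : Real.exp (4 * K) ≤ ε * 2 ^ (2 * m + 1)) (hε4 : ε ≤ 1 / 4) (hγ : 0 ≤ γ) {w : ℕ → ℝ}
    (hw : Wt t w) (hβ0 : 0 < β) (hβ : 256 * t ^ 2 / u + 576 * M ^ 2 * z ≤ β ^ 2) (x X : ℕ) :
    (((range x).filter fun n => 2 * (s + ε) * t * VV z + 8 * M + 2 * γ <
      |∑ b ∈ range t, w b * ro z (n + X + b) - (∑ b ∈ range t, w b) * VV z|).card : ℝ) *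
        γ ^ (r + 2) ≤ 3 * (x * ((r + 2) * β * (2 * ((r + 2 : ℕ) : ℝ) ^ (2 * m + 1) *
          (2 * Real.exp K) * Real.exp K)) ^ (r + 2) + (t * (M * z ^ (2 * m + 2))) ^ (r + 2)) := by
  have hU := PP_union huz
  have hd := PP_disj 0 u z
  have hzR : (2 : ℝ) ≤ z := by exact_mod_cast hz
  have hcard := PP_card hu (by omega : 1 ≤ z)
  have h' := h.step ha (fun p => PP_prime) (fun p => PP_prime) hd hK m hε hcard hzR
  set P := PP 0 u with hP
  set P' := PP u z with hP'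
  set EB := E1 P' (BB m) with hEB
  set ER := E1 P' (RR m) with hER
  have pP : ∀ p ∈ P, p.Prime := fun p => PP_prime
  have pP' : ∀ p ∈ P', p.Prime := fun p => PP_prime
  have pU : ∀ p ∈ P ∪ P', p.Prime := fun p hp => (mem_union.1 hp).elim (pP p) (pP' p)
  have hε0 : 0 ≤ ε := nonneg_of_mul_nonneg_left ((Real.exp_pos _).le.trans hε) (by positivity)
  have e1 : 0 ≤ EB := E1_nonneg _ (BB_nonneg m)
  have e2 : 0 ≤ ER := E1_nonneg _ (RR_nonneg m)
  have e3 : ER ≤ ε * EB := E1_RR (fun p hp => (pP' p hp).two_le) hK m hε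
  have e4 : EB ≤ ER + 1 := by
    rw [← E1_one P', hER, ← E1_add]
    exact E1_mono _ fun v => by linarith [BB_sub m v, pt_le_one v]
  have e5 : EB ≤ 4 / 3 := by nlinarith
  have e6 : ER ≤ 1 / 3 := by nlinarith
  have hq1 : (1 : ℝ) ≤ ((r + 2 : ℕ) : ℝ) := by exact_mod_cast (by omega : 1 ≤ r + 2)
  set R := (r + 2) * β * (2 * ((r + 2 : ℕ) : ℝ) ^ (2 * m + 1) * (2 * Real.exp K) * Real.exp K)
    with hR
  have one : ∀ f φ : ℕ → ℝ, MS P f M → Per (∏ p ∈ P, p) f → (∀ n, |f n| ≤ 2 * up n - lo n) →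
      MS P' (fun n => φ (om P' 0 n)) (z ^ (2 * m + 1)) → |E1 P' φ| ≤ 2 →
      (∀ v, 0 ≤ φ v ∧ φ v ≤ 2 * ((r + 2 : ℕ) : ℝ) ^ (2 * m + 1) *
        (1 + 1 / ((r + 2 : ℕ) : ℝ)) ^ v) →
      (((range x).filter fun n => γ < |∑ b ∈ range t,
        w b * (f (n + X + b) * (φ (om P' 0 (n + X + b)) - E1 P' φ))|).card : ℝ) * γ ^ (r + 2) ≤
        x * R ^ (r + 2) + (t * (M * z ^ (2 * m + 2))) ^ (r + 2) := by
    intro f φ h1 h2 h3 h4 h5 h6
    refine cheb (S := P ∪ P') (g := fun n => f n * (φ (om P' 0 n) - E1 P' φ))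
      (fun p hp => (pU p hp).pos) (((h1.subset subset_union_left).mul
        ((h4.subset subset_union_right).sub (MS.const _ _))).mono ?_)
      (per_union hd h2 fun v => φ v - E1 P' φ) hw hq
      (mom h (by linarith) hM pP pP' hd hu (filter_subset _ _) h2 h3 hq (by positivity) h6 hK hw
        hβ0 hβ) hγ x X
    refine mul_le_mul_of_nonneg_left ?_ (by linarith)
    have h7 : (z : ℝ) ≤ z ^ (2 * m + 1) := le_self_pow₀ (by linarith) (by omega)
    rw [pow_succ (z : ℝ) (2 * m + 1)]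
    nlinarith
  have mB : MS P' (fun n => BB m (om P' 0 n)) (z ^ (2 * m + 1)) :=
    (ms_BB (fun p hp => (pP' p hp).pos) hcard m).mono (pow_le_pow_right₀ (by linarith) (by omega))
  have bB := fun v => And.intro (BB_nonneg m v) ((BB_le hq1 m v).trans_eq (mul_assoc _ _ _).symm)
  have fup : ∀ n, |up n| ≤ 2 * up n - lo n := fun n => by
    rw [abs_of_nonneg (up_nonneg h n)]
    linarith [lo_le_up h n]
  have c1 := one lo (BB m) h.ms_lo h.per_lo
    (fun n => abs_le.2 ⟨by linarith [up_nonneg h n], by linarith [lo_le_up h n]⟩) mB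
    (by rw [abs_of_nonneg e1]; linarith) bB
  have c2 := one up (RR m) h.ms_up h.per_up fup (ms_RR (fun p hp => (pP' p hp).pos) hcard m)
    (by rw [abs_of_nonneg e2]; linarith) fun v => ⟨RR_nonneg m v, by
      have := RR_le hq1 m v
      linarith [RR_nonneg m v]⟩
  have c3 := one up (BB m) h.ms_up h.per_up fup mB (by rw [abs_of_nonneg e1]; linarith) bB
  have m1 := h'.mean
  have m2 := h'.av_up pU
  have m3 := av_lo_le h' pU
  rw [av_sub, av_union (Q := P') (f := RR m) pP pP' hd h.per_up, av_union pP pP' hd h.per_lo]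
    at m1 m3
  rw [av_union pP pP' hd h.per_up] at m1 m2
  rw [hU] at m2 m3
  change VV z ≤ _ at m2
  change _ ≤ VV z at m3
  rw [← hEB] at m1 m2 m3
  rw [← hER] at m1 m3
  set mlo := av (∏ p ∈ P, p) lo
  set mup := av (∏ p ∈ P, p) up
  have hV := VV_nonneg z
  have m4 : (1 - (s + ε)) * VV z ≤ mlo * EB - mup * ER :=
    (mul_le_mul_of_nonneg_left m2 (by linarith)).trans m1
  have m5 : mup * EB ≤ (1 + 2 * (s + ε)) * VV z := by
    refine le_of_mul_le_mul_left ?_ (show 0 < 1 - (s + ε) by linarith)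
    nlinarith [mul_nonneg hV (mul_nonneg (add_nonneg hs0 hε0) (show 0 ≤ 1 - 2 * (s + ε) by linarith))]
  have hW0 := hw.sum_nonneg
  have hW1 := mul_le_mul_of_nonneg_right hw.sum_le (mul_nonneg (add_nonneg hs0 hε0) hV)
  set W := ∑ b ∈ range t, w b
  have c4 := add_le_add (add_le_add c1 c2) c3
  rw [← add_mul, ← add_mul, ← hEB, ← hER] at c4
  refine le_trans (mul_le_mul_of_nonneg_right ?_ (by positivity)) (c4.trans_eq (by ring))
  rw [← Nat.cast_add, ← Nat.cast_add, Nat.cast_le]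
  refine le_trans (card_le_card fun n hn => ?_)
    ((card_union_le _ _).trans (add_le_add (card_union_le _ _) le_rfl))
  obtain ⟨h1, h2⟩ := mem_filter.1 hn
  by_contra hc
  simp only [mem_union, mem_filter, h1, true_and, not_or, not_lt, abs_le] at hc
  obtain ⟨⟨⟨t1, -⟩, -, t2⟩, -, t3⟩ := hc
  have w1 := (abs_le.1 (winW (fun p hp => (pP p hp).pos) h.ms_lo (n + X) hw)).1
  obtain ⟨w2, w3⟩ := abs_le.1 (winW (fun p hp => (pP p hp).pos) h.ms_up (n + X) hw)
  have s1 : ∑ b ∈ range t, w b * (lo (n + X + b) * (BB m (om P' 0 (n + X + b)) - EB)) -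
      ∑ b ∈ range t, w b * (up (n + X + b) * (RR m (om P' 0 (n + X + b)) - ER)) +
      EB * ∑ b ∈ range t, w b * lo (n + X + b) - ER * ∑ b ∈ range t, w b * up (n + X + b) ≤
      ∑ b ∈ range t, w b * ro z (n + X + b) := by
    rw [mul_sum, mul_sum, ← sum_sub_distrib, ← sum_add_distrib, ← sum_sub_distrib]
    refine sum_le_sum fun b hb => ?_
    have := mul_le_mul_of_nonneg_left (h'.lo_le (n + X + b)) (hw.1 b (mem_range.1 hb)).1
    rw [hU] at this
    unfold ro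
    linarith
  have s2 : ∑ b ∈ range t, w b * ro z (n + X + b) ≤
      ∑ b ∈ range t, w b * (up (n + X + b) * (BB m (om P' 0 (n + X + b)) - EB)) +
      EB * ∑ b ∈ range t, w b * up (n + X + b) := by
    rw [mul_sum, ← sum_add_distrib]
    refine sum_le_sum fun b hb => ?_
    have := mul_le_mul_of_nonneg_left (h'.le_up (n + X + b)) (hw.1 b (mem_range.1 hb)).1
    rw [hU] at this
    unfold ro
    linarith
  have k1 := mul_le_mul_of_nonneg_left w1 e1
  have k2 := mul_le_mul_of_nonneg_left w3 e2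
  have k3 := mul_le_mul_of_nonneg_left w3 e1
  have k4 := mul_le_mul_of_nonneg_left m4 hW0
  have k5 := mul_le_mul_of_nonneg_left m5 hW0
  have k6 := mul_le_mul_of_nonneg_left e5 (show 0 ≤ M by linarith)
  have k7 := mul_le_mul_of_nonneg_left e6 (show 0 ≤ M by linarith)
  have k8 := mul_nonneg (Nat.cast_nonneg (α := ℝ) t) (mul_nonneg (add_nonneg hs0 hε0) hV)
  refine h2.not_ge (abs_le.2 ⟨?_, ?_⟩) <;> linarith

end Pool.Agent.MP_d228e7_nt.T

end
end

section

/-!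
One dyadic scale, with relative accuracy `2 ^ (-s)`.
-/

set_option autoImplicit false

open Finset

noncomputable section

namespace Pool.Agent.MP_d228e7_nt.T

open Pool.Agent.MP_cebb75_nt Pool.Agent.MP_fdd1d3_nt

theorem lin_le_pow (A B k₀ : ℕ) (h0 : A * k₀ + B ≤ 2 ^ k₀) (hA : A ≤ 2 ^ k₀) {k : ℕ} (hk : k₀ ≤ k) :
    A * k + B ≤ 2 ^ k := by
  induction hk with
  | refl => exact h0
  | @step k hk ih =>
    have := Nat.pow_le_pow_right two_pos hk
    rw [Nat.succ_eq_add_one, pow_succ, mul_add]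
    omega

theorem log_small {s : ℕ} (hs : 512 ≤ s) : 24 * (Nat.log 2 s + 7) + 1 ≤ s := by
  have h1 : 9 ≤ Nat.log 2 s := Nat.le_log_of_pow_le one_lt_two hs
  have h2 := lin_le_pow 24 169 9 (by norm_num) (by norm_num) h1
  have h3 := Nat.pow_log_le_self 2 (show s ≠ 0 by omega)
  omega

theorem scale {j s e κ g r z : ℕ} (hq : Even (r + 2)) (hs : 512 ≤ s) (he : 1 ≤ e)
    (h1 : 64 * s * e ≤ j) (h2 : j < 64 * s * (e + 1)) (hg : j ≤ 2 ^ g) (hκ : r + 2 ≤ 2 ^ κ)
    (h6 : κ * (2 * s + 2) + 2 * s + 12 + g ≤ e) (hz1 : 2 ^ (4 * e) ≤ z) (hz2 : z ≤ 2 * 2 ^ j)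
    {w : ℕ → ℝ} (hw : Wt (2 ^ j) w) (x X : ℕ) :
    (((range x).filter fun n => 2 ^ j * (VV z + 1 / j) / 2 ^ s <
      |∑ b ∈ range (2 ^ j), w b * ro z (n + X + b) - (∑ b ∈ range (2 ^ j), w b) * VV z|).card : ℝ)
      ≤ 3 * (x / 2 ^ (e * (r + 2)) + 2 ^ (4 * s * j * (r + 2))) := by
  have a1 : 512 * e ≤ s * e := Nat.mul_le_mul_right e hs
  have a2 : s ≤ s * e := Nat.le_mul_of_pos_right s he
  rw [mul_assoc] at h1
  rw [mul_assoc, mul_add s, mul_one] at h2
  have hj : (0 : ℝ) < j := by exact_mod_cast (by omega : 0 < j)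
  have hjg : (j : ℝ) ≤ 2 ^ g := by exact_mod_cast hg
  obtain ⟨lo, up, h⟩ := small (a := 1) le_rfl (4 * e) (2 ^ (4 * e)) s Nat.one_le_two_pow
    (Nat.pow_lt_pow_right one_lt_two Nat.lt_two_pow_self)
  rw [show ((2 ^ (4 * e) : ℕ) : ℝ) ^ (4 * s + 8) = 2 ^ (16 * (s * e) + 32 * e) by
      push_cast; rw [← pow_mul]; congr 1; ring] at h
  set N := 16 * (s * e) + 32 * e with hN
  have hρ := log_small hs
  set ρ := Nat.log 2 s + 7 with hρd
  set γ : ℝ := 2 ^ j / (4 * j * 2 ^ s) with hγ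
  have hγM : 4 * 2 ^ N ≤ γ := by
    rw [hγ, le_div_iff₀ (by positivity)]
    calc (4 : ℝ) * 2 ^ N * (4 * j * 2 ^ s) ≤ 4 * 2 ^ N * (4 * 2 ^ g * 2 ^ s) := by gcongr
      _ = 2 ^ (N + g + s + 4) := by ring
      _ ≤ _ := two_le (by omega)
  have hγ1 : 1 ≤ γ := by linarith [one_le_pow₀ (n := N) (one_le_two (α := ℝ))]
  have hs4 : (2 : ℝ) ^ 24 / 4 ^ s ≤ 1 / 2 ^ (s + 2) := by
    rw [div_le_div_iff₀ (by positivity) (by positivity), one_mul, ← pow_add,
      show (4 : ℝ) = 2 ^ 2 by norm_num, ← pow_mul]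
    exact two_le (by omega)
  have hε4 : 1 / (2 : ℝ) ^ (s + 2) ≤ 1 / 4 :=
    one_div_le_one_div_of_le (by norm_num) (le_trans (by norm_num) (two_le (a := 2) (by omega)))
  have key := count (z := z) (m := s) (K := 4 * ρ) (ε := 1 / 2 ^ (s + 2)) (γ := γ)
    (β := 32 * 2 ^ j / 2 ^ (2 * e)) h le_rfl (by positivity) (hs4.trans hε4)
    (le_trans (by norm_num) (two_le (a := 1) (by omega))) Nat.one_le_two_pow hz1
    (le_trans (Nat.pow_le_pow_right two_pos (by omega : 1 ≤ 4 * e)) hz1) hq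
    (mu_le _ ρ _ (by
      refine lt_of_lt_of_le (hz2.trans_lt ?_) (Nat.pow_le_pow_left (Nat.le_succ _) _)
      rw [← pow_succ', ← pow_mul]
      refine Nat.pow_lt_pow_right one_lt_two ?_
      have h3 := Nat.mul_le_mul_left e (Nat.lt_pow_succ_log_self one_lt_two s).le
      rw [hρd, show Nat.log 2 s + 7 = (Nat.log 2 s).succ + 6 from rfl, pow_add]
      nlinarith))
    (by
      have h3 := exp_le (2 * ρ)
      rw [one_div_mul_eq_div, le_div_iff₀ (by positivity)]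
      push_cast at h3
      rw [show 4 * (4 * (ρ : ℝ)) = 8 * (2 * ρ) by ring]
      refine (mul_le_mul_of_nonneg_right h3 (by positivity)).trans ?_
      rw [← pow_add]
      exact two_le (by omega)) hε4 (by linarith) hw (by positivity)
    (by
      have h3 : ((2 : ℝ) ^ N) ^ 2 * z * 2 ^ (4 * e) ≤ (2 ^ j) ^ 2 := by
        calc ((2 : ℝ) ^ N) ^ 2 * z * 2 ^ (4 * e) ≤ (2 ^ N) ^ 2 * (2 * 2 ^ j) * 2 ^ (4 * e) := by
              gcongr
              exact_mod_cast hz2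
          _ = 2 ^ (2 * N + j + 4 * e + 1) := by ring
          _ ≤ 2 ^ (j * 2) := two_le (by omega)
          _ = _ := pow_mul _ _ _
      push_cast
      rw [div_pow, ← pow_mul 2 (2 * e), show 2 * e * 2 = 4 * e by ring,
        le_div_iff₀ (by positivity), add_mul, div_mul_cancel₀ _ (by positivity)]
      nlinarith [sq_nonneg ((2 : ℝ) ^ j)]) x X
  set q := r + 2 with hq'
  have hqR : (q : ℝ) ≤ 2 ^ κ := by exact_mod_cast hκ
  have hR : (r + 2) * (32 * 2 ^ j / 2 ^ (2 * e)) * (2 * (q : ℝ) ^ (2 * s + 1) *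
      (2 * Real.exp (4 * ρ)) * Real.exp (4 * ρ)) ≤ γ / 2 ^ e := by
    have e1 : Real.exp (4 * ρ) * Real.exp (4 * ρ) ≤ 2 ^ s := by
      rw [← Real.exp_add, show 4 * (ρ : ℝ) + 4 * ρ = 8 * ρ by ring]
      exact (exp_le ρ).trans (two_le (by omega))
    have e2 : (q : ℝ) ^ (2 * s + 2) ≤ 2 ^ (κ * (2 * s + 2)) := by
      rw [pow_mul]
      exact pow_le_pow_left₀ (by positivity) hqR _
    rw [show (r : ℝ) + 2 = q by rw [hq']; push_cast; ring, hγ, div_div, le_div_iff₀ (by positivity)]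
    calc _ = 2 ^ j * ((q : ℝ) ^ (2 * s + 2) * (Real.exp (4 * ρ) * Real.exp (4 * ρ)) * j *
          (2 ^ 9 * 2 ^ s * 2 ^ e) / 2 ^ (2 * e)) := by ring
      _ ≤ 2 ^ j * 1 := by
          refine mul_le_mul_of_nonneg_left (div_le_one_of_le₀ ?_ (by positivity)) (by positivity)
          calc _ ≤ (2 : ℝ) ^ (κ * (2 * s + 2)) * 2 ^ s * 2 ^ g * (2 ^ 9 * 2 ^ s * 2 ^ e) := by gcongr
            _ = 2 ^ (κ * (2 * s + 2) + s + g + (9 + s + e)) := by simp only [pow_add]
            _ ≤ _ := two_le (by omega)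
      _ = _ := mul_one _
  have hB : ((2 ^ j : ℕ) : ℝ) * (2 ^ N * (z : ℝ) ^ (2 * s + 2)) ≤ 2 ^ (4 * s * j) := by
    have e1 : (z : ℝ) ^ (2 * s + 2) ≤ 2 ^ ((j + 1) * (2 * s + 2)) := by
      rw [pow_mul, pow_succ' 2 j]
      exact pow_le_pow_left₀ (by positivity) (by exact_mod_cast hz2) _
    push_cast
    calc _ ≤ (2 : ℝ) ^ j * (2 ^ N * 2 ^ ((j + 1) * (2 * s + 2))) := by gcongr
      _ = 2 ^ (j + (N + (j + 1) * (2 * s + 2))) := by simp only [pow_add]
      _ ≤ _ := two_le (by nlinarith [Nat.mul_le_mul_right j hs])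
  have hγq : 1 ≤ γ ^ q := one_le_pow₀ hγ1
  have e1 := pow_le_pow_left₀ (by positivity) hR q
  have e2 := pow_le_pow_left₀ (by positivity) hB q
  rw [div_pow γ, ← pow_mul] at e1
  rw [← pow_mul] at e2
  have e3 := mul_le_mul_of_nonneg_left e1 (Nat.cast_nonneg (α := ℝ) x)
  have e4 := le_mul_of_one_le_right (show (0 : ℝ) ≤ 2 ^ (4 * s * j * q) by positivity) hγq
  refine le_of_mul_le_mul_right (le_trans (mul_le_mul_of_nonneg_right (Nat.cast_le.2
    (card_le_card (monotone_filter_right _ fun n _ hn => lt_of_le_of_lt ?_ hn))) (by positivity))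
    (key.trans ?_)) (by positivity : 0 < γ ^ q)
  · have e5 : 4 * γ = 2 ^ j * (1 / j) / 2 ^ s := by
      rw [hγ]
      field_simp
    have e6 : (2 : ℝ) ^ j * VV z / 2 ^ s = 2 * (2 * (1 / 2 ^ (s + 2))) * 2 ^ j * VV z := by
      field_simp
      ring
    have e7 := mul_le_mul_of_nonneg_right hs4
      (mul_nonneg (show (0 : ℝ) ≤ 2 ^ j by positivity) (VV_nonneg z))
    push_cast
    rw [mul_add (2 ^ j : ℝ), add_div, e6, ← e5]
    linarith
  · rw [mul_assoc 3, add_mul _ _ (γ ^ q), div_mul_eq_mul_div, mul_div_assoc (x : ℝ)]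
    exact mul_le_mul_of_nonneg_left (add_le_add e3 (e2.trans e4)) (by norm_num)

end Pool.Agent.MP_d228e7_nt.T

end
end

section

/-!
The terms in a dyadic block compared with rough numbers.
-/

set_option autoImplicit false

open Finset

noncomputable section

namespace Pool.Agent.MP_d228e7_nt.T

open Pool.Agent.MP_cebb75_nt Pool.Agent.MP_fdd1d3_nt N435e839e

theorem gp_cop (n t : ℕ) : ∀ a ∈ greedyPrefix true n t, 1 < a → ∀ b ∈ greedyPrefix true n t,
    b < a → Nat.Coprime (n - a) (n - b) := by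
  induction t with
  | zero => simp [greedyPrefix]
  | succ t ih =>
    intro a ha h1 b hb hba
    rw [greedyPrefix] at ha hb
    split_ifs at ha hb with h
    · have hb' : b ∈ greedyPrefix true n t := by
        rcases mem_insert.1 hb with rfl | hb
        · rcases mem_insert.1 ha with rfl | ha
          · omega
          · have := gp_le n t a ha
            omega
        · exact hb
      rcases mem_insert.1 ha with rfl | ha
      · exact (h.resolve_left (by omega)) b hb'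
      · exact ih a ha h1 b hb' hba
    · exact ih a ha h1 b hb hba

theorem sel_cop {n a b : ℕ} (ha : a ∈ selected true n) (hb : b ∈ selected true n) (h : b < a) :
    Nat.Coprime (n - a) (n - b) :=
  gp_cop n _ a (mem_filter.1 ha).1 (by have := (mem_filter.1 hb).2.1; omega) b (mem_filter.1 hb).1 h

theorem sel_cop0 {n a : ℕ} (ha : a ∈ selected true n) (h : 1 < a) : Nat.Coprime (n - a) n :=
  gp_cop n _ a (mem_filter.1 ha).1 h 0 (gp_mono n (Nat.zero_le _) (by simp [greedyPrefix]))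
    (by omega)

theorem harm_Ico {A B : ℕ} (hA : 1 ≤ A) (h : A ≤ B) :
    Real.log B - Real.log A ≤ ∑ j ∈ Ico A B, 1 / (j : ℝ) ∧
      ∑ j ∈ Ico A B, 1 / (j : ℝ) ≤ Real.log B - Real.log A + (1 / A - 1 / B) := by
  induction h with
  | refl => simp
  | @step B h ih =>
    have hB : (0 : ℝ) < B := by exact_mod_cast hA.trans h
    have h1 := Real.log_le_sub_one_of_pos (show (0 : ℝ) < (B + 1) / B by positivity)
    have h2 := Real.log_le_sub_one_of_pos (show (0 : ℝ) < B / (B + 1) by positivity)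
    rw [Real.log_div (by positivity) (by positivity)] at h1 h2
    have h3 : ((B : ℝ) + 1) / B - 1 = 1 / B := by field_simp; ring
    have h4 : (B : ℝ) / (B + 1) - 1 = -(1 / (B + 1)) := by field_simp; ring
    rw [Nat.succ_eq_add_one, sum_Ico_succ_top h]
    push_cast
    constructor <;> linarith [ih.1, ih.2]

theorem ww_wt (j : ℕ) : Wt (2 ^ j) (ww j) := by
  refine ⟨fun b hb => ?_, fun b hb => ?_⟩
  · have h : (b : ℝ) < 2 ^ j := by exact_mod_cast hb
    have h0 : (0 : ℝ) < 2 ^ j := by positivity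
    exact ⟨div_nonneg h0.le (by linarith), div_le_one_of_le₀ (by linarith) (by linarith)⟩
  · have h : (b : ℝ) + 1 < 2 ^ j := by exact_mod_cast hb
    have h0 : (0 : ℝ) < 2 ^ j := by positivity
    unfold ww
    push_cast
    exact div_le_div_of_nonneg_left h0.le (by linarith) (by linarith)

theorem reindex (j : ℕ) (F : ℕ → ℝ) : ∑ a ∈ Ioc (2 ^ j) (2 * 2 ^ j), F a * (1 / (a : ℝ)) =
    (∑ b ∈ range (2 ^ j), ww j b * F (2 * 2 ^ j - b)) / 2 ^ j := by
  rw [sum_div]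
  refine sum_nbij' (fun a => 2 * 2 ^ j - a) (fun a => 2 * 2 ^ j - a) ?_ ?_ ?_ ?_ ?_ <;>
    intro a ha <;> simp only [mem_Ioc, mem_range] at ha ⊢
  iterate 4 omega
  rw [Nat.sub_sub_self ha.2, ww, Nat.cast_sub ha.2]
  have : (0 : ℝ) < a := by exact_mod_cast (Nat.zero_le _).trans_lt ha.1
  push_cast
  rw [sub_sub_cancel]
  field_simp

theorem ww_sum (j : ℕ) : Real.log 2 - 1 / 2 ^ j ≤ (∑ b ∈ range (2 ^ j), ww j b) / 2 ^ j ∧
    (∑ b ∈ range (2 ^ j), ww j b) / 2 ^ j ≤ Real.log 2 := by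
  have h1 := reindex j fun _ => 1
  simp only [one_mul, mul_one] at h1
  obtain ⟨h2, h3⟩ := harm_Ico (Nat.one_le_two_pow (n := j)) (show 2 ^ j ≤ 2 * 2 ^ j by omega)
  have h4 := sum_Ioc_add_eq_sum_Icc (f := fun a : ℕ => 1 / (a : ℝ))
    (show 2 ^ j ≤ 2 * 2 ^ j by omega)
  have h5 := sum_Ico_add_eq_sum_Icc (f := fun a : ℕ => 1 / (a : ℝ))
    (show 2 ^ j ≤ 2 * 2 ^ j by omega)
  push_cast at h2 h3 h4 h5
  rw [Real.log_mul (by norm_num) (by positivity)] at h2 h3
  have h6 : (0 : ℝ) ≤ 1 / (2 * 2 ^ j) := by positivity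
  rw [← h1]
  constructor <;> linarith

theorem ro_nonneg (z m : ℕ) : 0 ≤ ro z m := pt_nonneg _

theorem ro_cases (z m : ℕ) : (ro z m = 1 ∧ ∀ p, p.Prime → p ≤ z → ¬ p ∣ m) ∨
    (ro z m = 0 ∧ ∃ p, p.Prime ∧ p ≤ z ∧ p ∣ m) := by
  unfold ro pt
  split_ifs with h
  · rw [om, card_eq_zero, filter_eq_empty_iff] at h
    exact Or.inl ⟨rfl, fun p hp h1 h2 =>
      h ((mem_PP 0 _ p).2 ⟨⟨hp.pos, h1⟩, hp⟩) (Nat.mod_eq_zero_of_dvd h2)⟩
  · obtain ⟨p, hp⟩ := card_ne_zero.1 h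
    obtain ⟨h1, h2⟩ := mem_filter.1 hp
    exact Or.inr ⟨rfl, p, PP_prime h1, ((mem_PP 0 _ p).1 h1).1.2, Nat.dvd_of_mod_eq_zero h2⟩

theorem blk_low {n j : ℕ} (h : 2 * 2 ^ j < n) :
    (∑ b ∈ range (2 ^ j), ww j b * ro (2 * 2 ^ j) (n - 2 * 2 ^ j + b)) / 2 ^ j ≤ blk n j := by
  have h1 := reindex j fun a => ro (2 * 2 ^ j) (n - a)
  rw [sum_congr rfl fun b hb => by
    rw [show n - 2 * 2 ^ j + b = n - (2 * 2 ^ j - b) by have := mem_range.1 hb; omega], ← h1]
  refine sum_le_sum fun a ha => ?_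
  obtain ⟨h2, h3⟩ := mem_Ioc.1 ha
  rcases ro_cases (2 * 2 ^ j) (n - a) with ⟨h4, h5⟩ | ⟨h4, -⟩
  · rw [h4, one_mul, hh, if_pos (mem_sel (by omega) (by omega) fun p hp h6 => h5 p hp (by omega))]
  · rw [h4, zero_mul]
    exact hh_nonneg _ _

theorem blk_up0 (n j z : ℕ) : blk n j ≤ z / 2 ^ j +
    ∑ a ∈ (Ioc (2 ^ j) (2 * 2 ^ j)).filter (· < n), ro z (n - a) * (1 / (a : ℝ)) := by
  set T := (Ioc (2 ^ j) (2 * 2 ^ j)).filter fun a => a ∈ selected true n ∧ ro z (n - a) = 0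
  have h1 : T.card ≤ z := by
    have key : ∀ a ∈ T, (n - a).minFac.Prime ∧ (n - a).minFac ≤ z := by
      intro a ha
      rcases ro_cases z (n - a) with ⟨h4, -⟩ | ⟨-, p, h4, h5, h6⟩
      · exact absurd (h4.symm.trans (mem_filter.1 ha).2.2) one_ne_zero
      · exact ⟨Nat.minFac_prime fun h => h4.one_lt.ne' (Nat.dvd_one.1 (h ▸ h6)),
          (Nat.minFac_le_of_dvd h4.two_le h6).trans h5⟩
    have key2 : ∀ a ∈ T, ∀ b ∈ T, b < a → (n - a).minFac ≠ (n - b).minFac := fun a ha b hb h e =>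
      (key a ha).1.one_lt.ne' (Nat.eq_one_of_dvd_coprimes
        (sel_cop (mem_filter.1 ha).2.1 (mem_filter.1 hb).2.1 h) (Nat.minFac_dvd _)
        (e ▸ Nat.minFac_dvd _))
    refine (card_le_card_of_injOn (t := Ioc 0 z) (fun a => (n - a).minFac)
      (fun a ha => mem_coe.2 (mem_Ioc.2 ⟨(key a ha).1.pos, (key a ha).2⟩))
      fun a ha b hb e => ?_).trans (by simp)
    rcases lt_trichotomy a b with h | h | h
    · exact absurd e.symm (key2 b hb a ha h)
    · exact h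
    · exact absurd e (key2 a ha b hb h)
  have h2 : ∑ a ∈ T, 1 / (2 : ℝ) ^ j ≤ z / 2 ^ j := by
    rw [sum_const, nsmul_eq_mul, mul_one_div]
    exact div_le_div_of_nonneg_right (by exact_mod_cast h1) (by positivity)
  refine le_trans ?_ (add_le_add h2 le_rfl)
  rw [sum_filter, sum_filter, ← sum_add_distrib]
  refine sum_le_sum fun a ha => ?_
  have h3 : (2 : ℝ) ^ j < a := by exact_mod_cast (mem_Ioc.1 ha).1
  have h4 := one_div_le_one_div_of_le (by positivity) h3.le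
  unfold hh
  by_cases h5 : a ∈ selected true n
  · rw [if_pos h5, if_pos (mem_filter.1 h5).2.2]
    rcases ro_cases z (n - a) with ⟨h6, -⟩ | ⟨h6, -⟩
    · rw [if_neg (by rw [h6]; simp), h6, one_mul, zero_add]
    · rw [if_pos ⟨h5, h6⟩, h6, zero_mul, add_zero]
      exact h4
  · rw [if_neg h5, if_neg fun h => h5 h.1, zero_add]
    split_ifs
    · exact mul_nonneg (ro_nonneg _ _) (by positivity)
    · exact le_rfl

theorem blk_up {n j : ℕ} (h : 2 * 2 ^ j < n) (z : ℕ) : blk n j ≤ z / 2 ^ j +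
    (∑ b ∈ range (2 ^ j), ww j b * ro z (n - 2 * 2 ^ j + b)) / 2 ^ j := by
  have h1 := reindex j fun a => ro z (n - a)
  rw [sum_congr rfl fun b hb => by
    rw [show n - 2 * 2 ^ j + b = n - (2 * 2 ^ j - b) by have := mem_range.1 hb; omega], ← h1]
  refine (blk_up0 n j z).trans_eq ?_
  rw [filter_true_of_mem fun a ha => (mem_Ioc.1 ha).2.trans_lt h]

theorem blk_nonneg (n j : ℕ) : 0 ≤ blk n j := sum_nonneg fun _ _ => hh_nonneg _ _

theorem blk_le_one (n j : ℕ) : blk n j ≤ 1 := by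
  have h1 := reindex j fun _ => 1
  simp only [one_mul, mul_one] at h1
  have h2 : blk n j ≤ ∑ a ∈ Ioc (2 ^ j : ℕ) (2 * 2 ^ j), 1 / (a : ℝ) := sum_le_sum fun a _ => by
    unfold hh
    split_ifs
    · exact le_rfl
    · positivity
  linarith [(ww_sum j).2, Real.log_two_lt_d9]

theorem eg_le : eg ≤ 1 :=
  Real.exp_le_one_iff.2 (by linarith [Real.one_half_lt_eulerMascheroniConstant])

theorem eg_pos : 0 < eg := Real.exp_pos _

theorem det (hM : Mert) : ∃ C : ℝ, 0 ≤ C ∧ ∀ n j : ℕ, 1 ≤ j → blk n j ≤ C / j := by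
  obtain ⟨C, hC, hM⟩ := hM
  refine ⟨2048 * (1 + 2 * C) + 2, by positivity, fun n j hj => ?_⟩
  have hj0 : (0 : ℝ) < j := by exact_mod_cast hj
  rcases lt_or_ge j 256 with h | h
  · refine (blk_le_one n j).trans ((one_le_div hj0).2 ?_)
    have : (j : ℝ) ≤ 256 := by exact_mod_cast h.le
    linarith
  obtain ⟨e, he⟩ : ∃ e, e = j / 256 := ⟨_, rfl⟩
  have he1 : 1 ≤ e := by omega
  obtain ⟨lo, up, hs⟩ := small (a := 1) le_rfl e (2 ^ e) 13 Nat.one_le_two_pow
    (Nat.pow_lt_pow_right one_lt_two Nat.lt_two_pow_self)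
  rw [show (2 : ℝ) ^ 24 / 4 ^ 13 = 1 / 4 by norm_num,
    show ((2 ^ e : ℕ) : ℝ) ^ (4 * 13 + 8) = 2 ^ (60 * e) by
      push_cast; rw [← pow_mul]; congr 1; ring] at hs
  have h1 : ∑ a ∈ (Ioc (2 ^ j) (2 * 2 ^ j)).filter (· < n), ro (2 ^ e) (n - a) * (1 / (a : ℝ)) ≤
      (∑ b ∈ range (2 ^ j), up (n - 2 * 2 ^ j + b)) / 2 ^ j := by
    rw [sum_div]
    refine le_trans ?_ (sum_le_sum_of_subset_of_nonneg (s := ((Ioc (2 ^ j) (2 * 2 ^ j)).filter
      (· < n)).image fun a => n - a - (n - 2 * 2 ^ j)) (fun b hb => ?_)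
      fun b _ _ => div_nonneg (up_nonneg hs _) (by positivity))
    · rw [sum_image fun a ha b hb e => by
        simp only [coe_filter, mem_Ioc, Set.mem_ofPred_eq] at ha hb e
        omega]
      refine sum_le_sum fun a ha => ?_
      simp only [mem_filter, mem_Ioc] at ha
      rw [show n - 2 * 2 ^ j + (n - a - (n - 2 * 2 ^ j)) = n - a by omega, div_eq_mul_one_div (up _)]
      exact mul_le_mul (hs.le_up _) (one_div_le_one_div_of_le (by positivity)
        (by exact_mod_cast ha.1.1.le)) (by positivity) (up_nonneg hs _)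
    · simp only [mem_image, mem_filter, mem_Ioc, mem_range] at hb ⊢
      omega
  have h2 := (abs_le.1 (hs.ms_up.window (fun p hp => (PP_prime hp).pos) (n - 2 * 2 ^ j) (2 ^ j))).2
  have h3 := hs.mean
  have h4 : _ ≤ VV (2 ^ e) := av_lo_le hs fun p => PP_prime
  have h5 := (abs_le.1 (hM (2 ^ e) (Nat.le_self_pow (by omega) 2))).2
  have heR : (1 : ℝ) ≤ e := by exact_mod_cast he1
  have hje : (j : ℝ) ≤ 512 * e := by exact_mod_cast (by omega : j ≤ 512 * e)
  rw [Nat.cast_pow, Real.log_pow, Nat.cast_ofNat] at h5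
  have h6 : 1 / 2 * e ≤ e * Real.log 2 := by nlinarith [Real.log_two_gt_d9]
  have h7 : C / (e * Real.log 2) ≤ 2 * C := by
    rw [div_le_iff₀ (by linarith)]
    nlinarith
  have h8 : VV (2 ^ e) * j ≤ 1024 * (1 + 2 * C) := by
    nlinarith [eg_le, mul_le_mul_of_nonneg_left h6 (VV_nonneg (2 ^ e)),
      mul_le_mul_of_nonneg_left hje (VV_nonneg (2 ^ e))]
  have h9 : (j : ℝ) * (2 * 2 ^ (60 * e)) ≤ 2 ^ j := by
    have : (e : ℝ) ≤ 2 ^ e := by exact_mod_cast Nat.lt_two_pow_self.le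
    calc (j : ℝ) * (2 * 2 ^ (60 * e)) ≤ 512 * 2 ^ e * (2 * 2 ^ (60 * e)) := by gcongr; linarith
      _ = 2 ^ (61 * e + 10) := by ring
      _ ≤ _ := two_le (by omega)
  have h10 : (2 : ℝ) ^ e ≤ 2 * 2 ^ (60 * e) := by
    rw [← pow_succ']
    exact two_le (by omega)
  refine (blk_up0 n j (2 ^ e)).trans ((add_le_add le_rfl h1).trans ?_)
  rw [← add_div, div_le_div_iff₀ (by positivity) hj0]
  push_cast at h2 ⊢
  have h11 := mul_le_mul_of_nonneg_left h8 (show (0 : ℝ) ≤ 2 ^ j by positivity)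
  have h12 := mul_le_mul_of_nonneg_left (show av (∏ p ∈ PP 0 (2 ^ e), p) up ≤ 2 * VV (2 ^ e) by
    linarith [hs.av_nonneg]) (show (0 : ℝ) ≤ 2 ^ j * j by positivity)
  nlinarith [mul_le_mul_of_nonneg_left h2 hj0.le, mul_le_mul_of_nonneg_left h10 hj0.le]

end Pool.Agent.MP_d228e7_nt.T

end
end
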