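import Pool.Agent.Mg.Fd228e7p.G75014d
import Pool.Agent.Mg.Fd228e7p.G3aa716

set_option linter.all false

section

/-!
The sum over one dyadic block is close to its mean outside a small set.
-/

set_option autoImplicit false

open Finset

noncomputable section

namespace Pool.Agent.MP_d228e7_nt.T

open Pool.Agent.MP_cebb75_nt Pool.Agent.MP_fdd1d3_nt N435e839e

theorem mertV {C : ℝ} (hC : 0 ≤ C)
    (hM : ∀ z : ℕ, 2 ≤ z → |VV z * Real.log z - eg| ≤ C / Real.log z) {i : ℕ} (hi : 1 ≤ i) :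
    |VV (2 ^ i) * Real.log 2 - eg / i| ≤ 2 * C / i ^ 2 ∧ VV (2 ^ i) ≤ 2 * (1 + 2 * C) / i := by
  have h1 := hM (2 ^ i) (Nat.le_self_pow (by omega) 2)
  have hi1 : (1 : ℝ) ≤ i := by exact_mod_cast hi
  have hl := Real.log_two_gt_d9
  rw [Nat.cast_pow, Real.log_pow, Nat.cast_ofNat] at h1
  have h2 : C / (i * Real.log 2) ≤ 2 * C / i := by
    rw [div_le_div_iff₀ (by positivity) (by positivity)]
    nlinarith [mul_nonneg hC (show (0 : ℝ) ≤ i by positivity)]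
  have h3 : 2 * C / i ≤ 2 * C := div_le_self (by positivity) hi1
  constructor
  · rw [show VV (2 ^ i) * Real.log 2 - eg / i = (VV (2 ^ i) * (i * Real.log 2) - eg) / i by
      field_simp, abs_div, abs_of_pos (show (0 : ℝ) < i by positivity), sq, ← div_div]
    exact div_le_div_of_nonneg_right (h1.trans h2) (by positivity)
  · rw [le_div_iff₀ (by positivity)]
    nlinarith [(abs_le.1 h1).2, eg_le, mul_nonneg (VV_nonneg (2 ^ i)) (show (0 : ℝ) ≤ i by positivity)]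

theorem sq_le_pow (k : ℕ) : (k + 1) ^ 2 ≤ 4 * 2 ^ k := by
  induction k with
  | zero => norm_num
  | succ k ih =>
    have := Nat.lt_two_pow_self (n := k)
    rw [pow_succ 2 k]
    nlinarith

theorem shift_card {F : ℕ → Prop} [DecidablePred F] (X y T : ℕ) :
    ((Ioc X (X + y)).filter fun n => T < n ∧ F (n - T)).card ≤
      ((range y).filter fun n => F (n + (X + 1 - T))).card := by
  refine card_le_card_of_injOn (fun n => n - T - (X + 1 - T)) (fun n hn => ?_) fun m hm n hn h => ?_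
  · simp only [coe_filter, mem_Ioc, Set.mem_ofPred_eq, mem_range] at hn ⊢
    refine ⟨by omega, ?_⟩
    rw [Nat.sub_add_cancel (by omega)]
    exact hn.2.2
  · simp only [coe_filter, mem_Ioc, Set.mem_ofPred_eq] at hm hn h
    omega

theorem est {C : ℝ} (hC : 0 ≤ C) {j i g : ℕ} (hi : j = i + 2 * g) (hg : g = Nat.log 2 j + 1)
    (h4 : 4 * g ≤ j) : 1 / (2 : ℝ) ^ j ≤ 4 * (1 / (j * √j)) ∧
    ((2 ^ i : ℕ) : ℝ) / 2 ^ j ≤ 1 / (j * √j) ∧ eg / j - eg / ((j + 1 : ℕ) : ℝ) ≤ 1 / (j * √j) ∧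
    2 * C / ((j + 1 : ℕ) : ℝ) ^ 2 ≤ 2 * C * (1 / (j * √j)) ∧
    2 * C / (i : ℝ) ^ 2 ≤ 8 * C * (1 / (j * √j)) ∧ eg / i - eg / j ≤ 8 * (1 / (j * √j)) := by
  have hjg : j < 2 ^ g := hg ▸ Nat.lt_pow_succ_log_self one_lt_two j
  have ht : (0 : ℝ) < 2 ^ j := by positivity
  have hj1 : (1 : ℝ) ≤ j := by exact_mod_cast (by omega : 1 ≤ j)
  have hi0 : (0 : ℝ) < i := by exact_mod_cast (by omega : 0 < i)
  have hij : (j : ℝ) ≤ 2 * i := by exact_mod_cast (by omega : j ≤ 2 * i)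
  have hji : (j : ℝ) = i + 2 * g := by exact_mod_cast hi
  have hr1 : 1 ≤ √(j : ℝ) := Real.one_le_sqrt.2 hj1
  have hr2 : √(j : ℝ) * √j = j := Real.mul_self_sqrt (by linarith)
  have hgr : (g : ℝ) ≤ 2 * √j := by
    refine le_of_sq_le_sq ?_ (by positivity)
    have h7 := sq_le_pow (Nat.log 2 j)
    have h8 := Nat.pow_log_le_self 2 (show j ≠ 0 by omega)
    rw [mul_pow, Real.sq_sqrt (by linarith)]
    exact_mod_cast (by rw [hg]; omega : g ^ 2 ≤ 2 ^ 2 * j)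
  set δ : ℝ := 1 / (j * √j) with hδ
  have d1 : 1 / (j : ℝ) ^ 2 ≤ δ := one_div_le_one_div_of_le (by positivity) (by nlinarith)
  have d2 : 1 / (2 : ℝ) ^ j ≤ 4 * δ := by
    refine le_trans ?_ (mul_le_mul_of_nonneg_left d1 (by norm_num))
    rw [mul_one_div, div_le_div_iff₀ ht (by positivity), one_mul]
    exact_mod_cast (Nat.pow_le_pow_left (Nat.le_succ j) 2).trans (sq_le_pow j)
  have d3 : ((2 ^ i : ℕ) : ℝ) / 2 ^ j ≤ δ := by
    refine le_trans ?_ d1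
    rw [div_le_div_iff₀ ht (by positivity), one_mul]
    have : 2 ^ i * j ^ 2 ≤ 2 ^ j := by
      calc 2 ^ i * j ^ 2 ≤ 2 ^ i * (2 ^ g) ^ 2 :=
            Nat.mul_le_mul_left _ (Nat.pow_le_pow_left hjg.le 2)
        _ = 2 ^ j := by rw [← pow_mul, ← pow_add, hi, mul_comm g]
    exact_mod_cast this
  have d4 : eg / j - eg / ((j + 1 : ℕ) : ℝ) ≤ δ := by
    refine le_trans ?_ d1
    push_cast
    rw [div_sub_div _ _ (by positivity) (by positivity), div_le_div_iff₀ (by positivity)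
      (by positivity)]
    nlinarith [eg_le, eg_pos, mul_le_mul_of_nonneg_right eg_le (sq_nonneg (j : ℝ))]
  have d5 : 2 * C / ((j + 1 : ℕ) : ℝ) ^ 2 ≤ 2 * C * δ := by
    rw [div_eq_mul_one_div]
    refine mul_le_mul_of_nonneg_left (le_trans ?_ d1) (by positivity)
    push_cast
    exact one_div_le_one_div_of_le (by positivity) (by nlinarith)
  have d6 : 2 * C / (i : ℝ) ^ 2 ≤ 8 * C * δ := by
    refine le_trans ?_ (mul_le_mul_of_nonneg_left d1 (by positivity))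
    rw [mul_one_div, div_le_div_iff₀ (by positivity) (by positivity)]
    nlinarith [mul_le_mul_of_nonneg_left (pow_le_pow_left₀ (by positivity) hij 2) hC]
  have d7 : eg / i - eg / j ≤ 8 * δ := by
    rw [div_sub_div _ _ (by positivity) (by positivity), hδ, mul_one_div,
      div_le_div_iff₀ (by positivity) (by positivity)]
    have h7 : (eg * j - i * eg) * √j ≤ 8 * i := by
      have h8 : eg * j - i * eg ≤ 4 * √j := by
        have h9 : eg * j - i * eg = 2 * (eg * g) := by rw [hji]; ring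
        linarith [mul_le_mul_of_nonneg_right eg_le (Nat.cast_nonneg (α := ℝ) g)]
      nlinarith [mul_le_mul_of_nonneg_right h8 (show (0 : ℝ) ≤ √j by positivity)]
    nlinarith [mul_le_mul_of_nonneg_left h7 (show (0 : ℝ) ≤ j by positivity)]
  exact ⟨d2, d3, d4, d5, d6, d7⟩

theorem one (hM : Mert) : ∃ C : ℝ, 0 ≤ C ∧ ∀ j s e κ r X y : ℕ, Even (r + 2) → 512 ≤ s → 1 ≤ e →
    64 * s * e ≤ j → j < 64 * s * (e + 1) → r + 2 ≤ 2 ^ κ →
    κ * (2 * s + 2) + 2 * s + 13 + Nat.log 2 j ≤ e →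
    (((Ioc X (X + y)).filter fun n => 2 * 2 ^ j < n ∧
      C * (1 / (j * 2 ^ s) + 1 / (j * √j)) < |blk n j - eg / j|).card : ℝ) ≤
      6 * (y / 2 ^ (e * (r + 2)) + 2 ^ (4 * s * j * (r + 2))) := by
  obtain ⟨C, hC, hM⟩ := hM
  refine ⟨8 * C + 9, by positivity, fun j s e κ r X y hq hs he h1 h2 hκ h6 => ?_⟩
  obtain ⟨g, hg⟩ : ∃ g, g = Nat.log 2 j + 1 := ⟨_, rfl⟩
  have a1 : 64 * 512 * e ≤ j := (Nat.mul_le_mul_right e (by omega)).trans h1
  have hjg : j < 2 ^ g := hg ▸ Nat.lt_pow_succ_log_self one_lt_two j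
  obtain ⟨i, hi⟩ : ∃ i, j = i + 2 * g := ⟨j - 2 * g, by omega⟩
  have s1 := scale (z := 2 ^ (j + 1)) hq hs he h1 h2 hjg.le hκ (by omega)
    (Nat.pow_le_pow_right two_pos (by omega)) (pow_succ' 2 j).le (ww_wt j) y (X + 1 - 2 * 2 ^ j)
  have s2 := scale (z := 2 ^ i) hq hs he h1 h2 hjg.le hκ (by omega)
    (Nat.pow_le_pow_right two_pos (by omega))
    (by rw [← pow_succ']; exact Nat.pow_le_pow_right two_pos (by omega)) (ww_wt j) y
    (X + 1 - 2 * 2 ^ j)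
  refine le_trans ?_ ((add_le_add s1 s2).trans_eq (by ring))
  rw [← Nat.cast_add, Nat.cast_le]
  refine le_trans (card_le_card fun n hn => ?_) ((card_union_le _ _).trans (add_le_add
    (shift_card (F := fun m => 2 ^ j * (VV (2 ^ (j + 1)) + 1 / j) / 2 ^ s <
      |∑ b ∈ range (2 ^ j), ww j b * ro (2 ^ (j + 1)) (m + b) -
        (∑ b ∈ range (2 ^ j), ww j b) * VV (2 ^ (j + 1))|) X y (2 * 2 ^ j))
    (shift_card (F := fun m => 2 ^ j * (VV (2 ^ i) + 1 / j) / 2 ^ s <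
      |∑ b ∈ range (2 ^ j), ww j b * ro (2 ^ i) (m + b) -
        (∑ b ∈ range (2 ^ j), ww j b) * VV (2 ^ i)|) X y (2 * 2 ^ j))))
  obtain ⟨h3, h4, h5⟩ := mem_filter.1 hn
  by_contra hc
  simp only [mem_union, mem_filter, h3, h4, true_and, not_or, not_lt, abs_le] at hc
  obtain ⟨⟨t1, -⟩, -, t2⟩ := hc
  have b1 := blk_low h4
  have b2 := blk_up h4 (2 ^ i)
  rw [← pow_succ' 2 j] at b1
  rw [← pow_succ' 2 j] at t1
  obtain ⟨w1, w2⟩ := ww_sum j
  obtain ⟨v1, v2⟩ := mertV hC hM (show 1 ≤ j + 1 by omega)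
  obtain ⟨v3, v4⟩ := mertV hC hM (show 1 ≤ i by omega)
  have ht : (0 : ℝ) < 2 ^ j := by positivity
  have t3 := div_le_div_of_nonneg_right t1 ht.le
  have t4 := div_le_div_of_nonneg_right t2 ht.le
  rw [neg_div, sub_div, mul_div_assoc, mul_div_cancel_left₀ _ ht.ne', mul_div_right_comm] at t3
  rw [sub_div, mul_div_assoc (2 ^ j : ℝ), mul_div_cancel_left₀ _ ht.ne', mul_div_right_comm] at t4
  have hj1 : (1 : ℝ) ≤ j := by exact_mod_cast (by omega : 1 ≤ j)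
  have hi0 : (0 : ℝ) < i := by exact_mod_cast (by omega : 0 < i)
  have hij : (j : ℝ) ≤ 2 * i := by exact_mod_cast (by omega : j ≤ 2 * i)
  obtain ⟨d2, d3, d4, d5, d6, d7⟩ := est hC hi hg (by omega)
  set δ : ℝ := 1 / (j * √j) with hδ
  have d8 : ∀ V : ℝ, V ≤ 4 * (1 + 2 * C) / j → (V + 1 / j) / 2 ^ s ≤
      (8 * C + 9) * (1 / (j * 2 ^ s)) := fun V hV => by
    rw [mul_one_div, ← div_div]
    refine div_le_div_of_nonneg_right ((add_le_add hV le_rfl).trans ?_) (by positivity)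
    rw [← add_div]
    exact div_le_div_of_nonneg_right (by linarith) (by positivity)
  have d9 := d8 _ (v2.trans (by
    push_cast
    exact div_le_div₀ (by positivity) (by linarith) (by positivity) (by linarith)))
  have d10 := d8 _ (v4.trans (by
    rw [div_le_div_iff₀ hi0 (by positivity)]
    linarith [mul_le_mul_of_nonneg_left hij (show 0 ≤ 1 + 2 * C by positivity)]))
  have k1 := mul_le_mul_of_nonneg_right w1 (VV_nonneg (2 ^ (j + 1)))
  have k2 := mul_le_mul_of_nonneg_right w2 (VV_nonneg (2 ^ i))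
  have k3 := mul_le_mul_of_nonneg_left (prod_bb_le (PP 0 (2 ^ (j + 1))))
    (show (0 : ℝ) ≤ 1 / 2 ^ j by positivity)
  have k4 : 0 ≤ C * δ := by positivity
  have k5 : 0 ≤ δ := by positivity
  change 1 / 2 ^ j * VV _ ≤ _ at k3
  refine h5.not_ge (abs_le.2 ⟨?_, ?_⟩)
  · linarith [(abs_le.1 v1).1]
  · linarith [(abs_le.1 v3).2]

end Pool.Agent.MP_d228e7_nt.T

end
end

section

/-!
Choice of the parameters at each scale.
-/

set_option autoImplicit false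

open Finset

noncomputable section

namespace Pool.Agent.MP_d228e7_nt.T

open Pool.Agent.MP_cebb75_nt Pool.Agent.MP_fdd1d3_nt N435e839e

theorem pow_le_two_pow (A B d k₀ : ℕ) (hd : 11 ^ d ≤ 2 * 10 ^ d) (hB : 10 ≤ k₀ + B)
    (h0 : A * (k₀ + B) ^ d ≤ 2 ^ k₀) {k : ℕ} (hk : k₀ ≤ k) : A * (k + B) ^ d ≤ 2 ^ k := by
  induction hk with
  | refl => exact h0
  | @step k hk ih =>
    have hk' : k₀ ≤ k := hk
    have h1 : (10 * (k + 1 + B)) ^ d ≤ (11 * (k + B)) ^ d := Nat.pow_le_pow_left (by omega) d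
    rw [mul_pow, mul_pow] at h1
    have h2 := h1.trans (Nat.mul_le_mul_right _ hd)
    rw [mul_assoc, mul_left_comm] at h2
    have h3 := Nat.mul_le_mul_left A (Nat.le_of_mul_le_mul_left h2 (by positivity))
    rw [mul_left_comm] at h3
    rw [Nat.succ_eq_add_one, pow_succ 2 k]
    omega

theorem kappa {j j₀ s κ : ℕ} (h0 : 2 ^ 60 ≤ j₀) (h1 : j₀ ≤ j) (hs : s ≤ 512 + Nat.log 2 (j / j₀))
    (hκ : j < 512 * s ^ 2 * (κ + 1)) : j₀ / 2 ^ 27 ≤ κ ∧ 4 * Nat.log 2 j + 4 ≤ κ := by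
  obtain ⟨k, hk⟩ : ∃ k, k = Nat.log 2 (j / j₀) := ⟨_, rfl⟩
  have a1 : 2 ^ k * j₀ ≤ j := (Nat.mul_le_mul_right _ (hk ▸ Nat.pow_log_le_self 2
    (Nat.div_pos h1 (by omega)).ne')).trans (Nat.div_mul_le_self _ _)
  have a2 : s ^ 4 ≤ 2 ^ 36 * 2 ^ k := by
    have := pow_le_two_pow 1 476 4 36 (by norm_num) (by norm_num) (by norm_num)
      (show 36 ≤ 36 + k by omega)
    rw [one_mul, pow_add] at this
    exact (Nat.pow_le_pow_left (by omega) 4).trans this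
  have a3 : s ^ 4 * j₀ ≤ 2 ^ 36 * j := by
    refine (Nat.mul_le_mul_right _ a2).trans ?_
    rw [mul_assoc]
    exact Nat.mul_le_mul_left _ a1
  have a4 : j * j₀ < 2 ^ 54 * (κ + 1) ^ 2 := by
    refine lt_of_mul_lt_mul_left (a := j) ?_ (Nat.zero_le _)
    calc j * (j * j₀) = j ^ 2 * j₀ := by ring
      _ < (512 * s ^ 2 * (κ + 1)) ^ 2 * j₀ :=
          Nat.mul_lt_mul_of_pos_right (Nat.pow_lt_pow_left hκ two_ne_zero) (by omega)
      _ = 2 ^ 18 * (κ + 1) ^ 2 * (s ^ 4 * j₀) := by ring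
      _ ≤ 2 ^ 18 * (κ + 1) ^ 2 * (2 ^ 36 * j) := Nat.mul_le_mul_left _ a3
      _ = _ := by ring
  constructor
  · have : j₀ < 2 ^ 27 * (κ + 1) := by
      refine lt_of_pow_lt_pow_left₀ 2 (Nat.zero_le _) ?_
      rw [mul_pow, ← pow_mul, sq]
      exact (Nat.mul_le_mul_right _ h1).trans_lt a4
    omega
  · have b1 := sq_le_pow (Nat.log 2 j)
    have b2 := Nat.pow_log_le_self 2 (show j ≠ 0 by omega)
    have b3 := Nat.mul_le_mul_left j h0
    have : 4 * (Nat.log 2 j + 1) < κ + 1 := by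
      refine lt_of_pow_lt_pow_left₀ 2 (Nat.zero_le _) ?_
      rw [mul_pow]
      omega
    omega

theorem param {L j₀ σ j : ℕ} (h0 : 2 ^ 60 ≤ j₀) (h1 : j₀ ≤ j) (h2 : 2 ^ 14 * j ≤ L) :
    ∃ s e κ r : ℕ, Even (r + 2) ∧ 512 ≤ s ∧ 1 ≤ e ∧ 64 * s * e ≤ j ∧ j < 64 * s * (e + 1) ∧
      r + 2 ≤ 2 ^ κ ∧ κ * (2 * s + 2) + 2 * s + 13 + Nat.log 2 j ≤ e ∧
      4 * s * j * (r + 2) ≤ L / 2 ∧
      (2 ^ (j₀ / 2 ^ 27 - 1) + (2 * (Nat.log 2 j + 1) + 3) ≤ e * (r + 2) ∨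
        L / (2 ^ 29 * (σ + 1) ^ 2) ≤ e * (r + 2)) ∧
      (σ ≤ s ∨ j ≤ 2 ^ s * j₀ ∨ L ≤ 2 ^ s * j) := by
  obtain ⟨s, hs⟩ : ∃ s, s = 512 + min σ (min (Nat.log 2 (j / j₀)) (Nat.log 2 (L / j))) := ⟨_, rfl⟩
  obtain ⟨e, he⟩ : ∃ e, e = j / (64 * s) := ⟨_, rfl⟩
  obtain ⟨κ, hκ⟩ : ∃ κ, κ = e / (4 * s + 4) := ⟨_, rfl⟩
  have s1 : 512 ≤ s := by omega
  have e1 : 64 * s * e ≤ j := he ▸ Nat.mul_div_le _ _
  have e2 : j < 64 * s * (e + 1) := he ▸ Nat.lt_mul_div_succ _ (by omega)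
  have k1 : (4 * s + 4) * κ ≤ e := hκ ▸ Nat.mul_div_le _ _
  have k2 : e < (4 * s + 4) * (κ + 1) := hκ ▸ Nat.lt_mul_div_succ _ (by omega)
  obtain ⟨k3, k4⟩ := kappa h0 h1 (s := s) (κ := κ) (by omega) (by
    calc j < 64 * s * (e + 1) := e2
      _ ≤ 64 * s * (8 * s * (κ + 1)) :=
          Nat.mul_le_mul_left _ (k2.trans_le (Nat.mul_le_mul_right _ (by omega)))
      _ = _ := by ring)
  have l1 : 1 ≤ Nat.log 2 j := Nat.le_log_of_pow_le one_lt_two (by omega)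
  have e3 : 1 ≤ e := le_trans (Nat.mul_pos (by omega) (by omega)) k1
  have l2 : 16 * s * j ≤ L := by
    have b1 : 14 ≤ Nat.log 2 (L / j) :=
      Nat.le_log_of_pow_le one_lt_two ((Nat.le_div_iff_mul_le (by omega)).2 h2)
    have b2 := lin_le_pow 16 8192 14 (by norm_num) (by norm_num) b1
    have b3 := Nat.pow_log_le_self 2 (Nat.div_pos (show j ≤ L by omega) (by omega)).ne'
    exact (Nat.mul_le_mul_right _ (by omega)).trans (Nat.div_mul_le_self L j)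
  have l3 : 0 < 16 * s * j := Nat.mul_pos (by omega) (by omega)
  have l4 := (Nat.le_div_iff_mul_le l3).2 (show 1 * _ ≤ L by omega)
  have l5 := Nat.one_le_two_pow (n := κ - 1)
  obtain ⟨m, hm⟩ : ∃ m, m + 1 = min (2 ^ (κ - 1)) (L / (16 * s * j)) :=
    ⟨min (2 ^ (κ - 1)) (L / (16 * s * j)) - 1, by omega⟩
  have k5 : 2 ^ κ = 2 * 2 ^ (κ - 1) := by rw [← pow_succ', Nat.sub_add_cancel (by omega)]
  refine ⟨s, e, κ, 2 * m, ⟨m + 1, by ring⟩, s1, e3, e1, e2, by omega, ?_, ?_, ?_, ?_⟩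
  · have := Nat.mul_le_mul_left s (show 1 ≤ κ by omega)
    rw [show κ * (2 * s + 2) = 2 * (s * κ) + 2 * κ by ring]
    rw [show (4 * s + 4) * κ = 4 * (s * κ) + 4 * κ by ring] at k1
    omega
  · have := (Nat.mul_le_mul_left (16 * s * j) (show m + 1 ≤ L / (16 * s * j) by omega)).trans
      (Nat.mul_div_le _ _)
    rw [Nat.le_div_iff_mul_le two_pos]
    exact le_of_eq_of_le (by ring) this
  · rcases le_total (2 ^ (κ - 1)) (L / (16 * s * j)) with h | h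
    · have b1 := Nat.pow_le_pow_right two_pos (show j₀ / 2 ^ 27 - 1 ≤ κ - 1 by omega)
      have b2 := Nat.lt_two_pow_self (n := κ - 1)
      have b3 := Nat.mul_le_mul_right (2 * m + 2) e3
      exact Or.inl (by omega)
    · refine Or.inr (Nat.div_le_of_le_mul ?_)
      have b1 := Nat.lt_mul_div_succ L l3
      calc L ≤ 16 * s * j * (2 * m + 2) := b1.le.trans (Nat.mul_le_mul_left _ (by omega))
        _ ≤ 16 * s * (64 * s * (2 * e)) * (2 * m + 2) := Nat.mul_le_mul_right _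
            (Nat.mul_le_mul_left _ (e2.le.trans (Nat.mul_le_mul_left _ (by omega))))
        _ = 2 ^ 11 * s ^ 2 * (e * (2 * m + 2)) := by ring
        _ ≤ 2 ^ 11 * (512 * (σ + 1)) ^ 2 * (e * (2 * m + 2)) := Nat.mul_le_mul_right _
            (Nat.mul_le_mul_left _ (Nat.pow_le_pow_left (by omega) 2))
        _ = _ := by ring
  · have b : ∀ A B : ℕ, 0 < B → Nat.log 2 (A / B) + 1 ≤ s → A ≤ 2 ^ s * B := fun A B hB h =>
      ((Nat.div_lt_iff_lt_mul hB).1 ((Nat.lt_pow_succ_log_self one_lt_two _).trans_le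
        (Nat.pow_le_pow_right two_pos h))).le
    by_cases c1 : σ ≤ s
    · exact Or.inl c1
    by_cases c2 : Nat.log 2 (j / j₀) + 1 ≤ s
    · exact Or.inr (Or.inl (b _ _ (by omega) c2))
    · exact Or.inr (Or.inr (b _ _ (by omega) (by omega)))

theorem two (hM : Mert) : ∃ C : ℝ, 0 ≤ C ∧ ∀ L j₀ σ j X y : ℕ, 2 ^ 60 ≤ j₀ → j₀ ≤ j →
    2 ^ 14 * j ≤ L → 2 ^ L ≤ y →
    (((Ioc X (X + y)).filter fun n => 2 * 2 ^ j < n ∧
      C * (1 / 2 ^ σ * (1 / j) + j₀ * (1 / (j : ℝ)) ^ 2 + 1 / L + 1 / (j * √j)) <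
        |blk n j - eg / j|).card : ℝ) ≤
      y / 2 ^ 2 ^ (j₀ / 2 ^ 27 - 1) * (1 / (j : ℝ)) ^ 2 +
        12 * (y / 2 ^ (L / (2 ^ 29 * (σ + 1) ^ 2))) := by
  obtain ⟨C, hC, h⟩ := one hM
  refine ⟨C, hC, fun L j₀ σ j X y h0 h1 h2 hy => ?_⟩
  obtain ⟨s, e, κ, r, p1, p2, p3, p4, p5, p6, p7, p8, p9, p10⟩ := param (σ := σ) h0 h1 h2
  have hj : (0 : ℝ) < j := by exact_mod_cast (by omega : 0 < j)
  have hL : (0 : ℝ) < L := by exact_mod_cast (by omega : 0 < L)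
  set N := L / (2 ^ 29 * (σ + 1) ^ 2) with hN
  refine le_trans (Nat.cast_le.2 (card_le_card (monotone_filter_right _ fun n _ hn =>
    ⟨hn.1, lt_of_le_of_lt (mul_le_mul_of_nonneg_left (add_le_add ?_ le_rfl) hC) hn.2⟩)))
    ((h j s e κ r X y p1 p2 p3 p4 p5 p6 p7).trans ?_)
  swap
  · have a1 : (0 : ℝ) ≤ 1 / 2 ^ σ * (1 / j) := by positivity
    have a2 : (0 : ℝ) ≤ j₀ * (1 / (j : ℝ)) ^ 2 := by positivity
    have a3 : (0 : ℝ) ≤ 1 / L := by positivity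
    rcases p10 with h3 | h3 | h3
    · have : 1 / ((j : ℝ) * 2 ^ s) ≤ 1 / 2 ^ σ * (1 / j) := by
        rw [one_div_mul_one_div, mul_comm]
        exact one_div_le_one_div_of_le (by positivity)
          (mul_le_mul_of_nonneg_right (two_le h3) hj.le)
      linarith
    · have : 1 / ((j : ℝ) * 2 ^ s) ≤ j₀ * (1 / (j : ℝ)) ^ 2 := by
        have h4 : (j : ℝ) ≤ 2 ^ s * j₀ := by exact_mod_cast h3
        rw [one_div_pow, mul_one_div, div_le_div_iff₀ (by positivity) (by positivity)]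
        nlinarith
      linarith
    · have : 1 / ((j : ℝ) * 2 ^ s) ≤ 1 / L :=
        one_div_le_one_div_of_le hL (by rw [mul_comm]; exact_mod_cast h3)
      linarith
  · have a1 : (2 : ℝ) ^ (4 * s * j * (r + 2)) ≤ y / 2 ^ N := by
      rw [le_div_iff₀ (by positivity), ← pow_add]
      have : N ≤ L / 2 := Nat.div_le_div_left
        (le_trans (by norm_num) (Nat.le_mul_of_pos_right _ (by positivity))) two_pos
      exact (two_le (b := L) (by omega)).trans (by exact_mod_cast hy)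
    have a2 : (0 : ℝ) ≤ y / 2 ^ 2 ^ (j₀ / 2 ^ 27 - 1) * (1 / (j : ℝ)) ^ 2 := by positivity
    have a3 : (0 : ℝ) ≤ y / 2 ^ N := by positivity
    rcases p9 with h3 | h3
    · have : 8 * ((y : ℝ) / 2 ^ (e * (r + 2))) ≤
          y / 2 ^ 2 ^ (j₀ / 2 ^ 27 - 1) * (1 / (j : ℝ)) ^ 2 := by
        have h4 : (j : ℝ) ≤ 2 ^ (Nat.log 2 j + 1) := by
          exact_mod_cast (Nat.lt_pow_succ_log_self one_lt_two j).le
        rw [one_div_pow, div_mul_div_comm, mul_one, ← mul_div_assoc, mul_comm 8,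
          ← div_div_eq_mul_div]
        refine div_le_div_of_nonneg_left (by positivity) (by positivity) ?_
        rw [le_div_iff₀ (by norm_num)]
        refine le_trans ?_ (two_le h3)
        rw [pow_add, pow_add, mul_comm 2 (Nat.log 2 j + 1), pow_mul, mul_assoc]
        gcongr
        norm_num
      linarith [show (0 : ℝ) ≤ y / 2 ^ (e * (r + 2)) by positivity]
    · have : (y : ℝ) / 2 ^ (e * (r + 2)) ≤ y / 2 ^ N :=
        div_le_div_of_nonneg_left (by positivity) (by positivity) (two_le h3)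
      linarith

end Pool.Agent.MP_d228e7_nt.T

end
end

section

/-!
All scales beyond a given one.
-/

set_option autoImplicit false

open Finset

noncomputable section

namespace Pool.Agent.MP_d228e7_nt.T

open Pool.Agent.MP_cebb75_nt Pool.Agent.MP_fdd1d3_nt N435e839e

theorem mert : Mert := by
  obtain ⟨B, C, h⟩ := m2
  exact mert_of h

theorem blocks (n : ℕ) {A B : ℕ} (h : A ≤ B) :
    ∑ a ∈ Ioc (2 ^ A) (2 ^ B), hh n a = ∑ j ∈ Ico A B, blk n j := by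
  induction h with
  | refl => simp
  | @step B h ih =>
    rw [Nat.succ_eq_add_one, sum_Ico_succ_top h, ← ih, blk,
      sum_Ioc_consecutive _ (Nat.pow_le_pow_right two_pos h) (by omega), pow_succ']

theorem blocks_le : ∃ C : ℝ, 0 ≤ C ∧ ∀ n A B : ℕ, 1 ≤ A → A ≤ B →
    ∑ a ∈ Ioc (2 ^ A) (2 ^ B), hh n a ≤ C * (Real.log B - Real.log A + 1) := by
  obtain ⟨C, hC, h⟩ := det mert
  refine ⟨C, hC, fun n A B h1 h2 => ?_⟩
  rw [blocks n h2]
  refine (sum_le_sum fun j hj => (h n j (h1.trans (mem_Ico.1 hj).1)).trans_eq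
    (div_eq_mul_one_div _ _)).trans ?_
  rw [← mul_sum]
  refine mul_le_mul_of_nonneg_left ((harm_Ico h1 h2).2.trans ?_) hC
  have h3 : 1 / (A : ℝ) ≤ 1 := div_le_one_of_le₀ (by exact_mod_cast h1) (by positivity)
  linarith [show (0 : ℝ) ≤ 1 / B by positivity]

theorem sqrt_sum : ∃ D : ℝ, 0 ≤ D ∧ ∀ s : Finset ℕ, ∑ j ∈ s, 1 / ((j : ℝ) * √j) ≤ D := by
  have h : Summable fun j : ℕ => 1 / ((j : ℝ) * √j) :=
    (Real.summable_one_div_nat_rpow.2 (show (1 : ℝ) < 1 + 1 / 2 by norm_num)).congr fun j => by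
      rw [Real.rpow_one_add' (by positivity) (by norm_num), Real.sqrt_eq_rpow]
  exact ⟨_, tsum_nonneg fun j => by positivity, fun s => h.sum_le_tsum s fun j _ => by positivity⟩

theorem save1 {j₀ : ℕ} (h : 2 ^ 60 ≤ j₀) :
    1 / (2 : ℝ) ^ 2 ^ (j₀ / 2 ^ 27 - 1) ≤ Real.exp (-Real.exp (j₀ / 2 ^ 31)) := by
  obtain ⟨k, hk⟩ : ∃ k, j₀ / 2 ^ 27 - 1 = k + 1 := ⟨j₀ / 2 ^ 27 - 2, by omega⟩
  have h1 : (j₀ : ℝ) ≤ 2 ^ 30 * k := by exact_mod_cast (by omega : j₀ ≤ 2 ^ 30 * k)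
  have hl := Real.log_two_gt_d9
  have h2 : Real.exp (j₀ / 2 ^ 31) ≤ 2 ^ k := by
    rw [← Real.le_log_iff_exp_le (by positivity), Real.log_pow, div_le_iff₀ (by positivity)]
    nlinarith [Nat.cast_nonneg (α := ℝ) k]
  rw [hk, Real.exp_neg, one_div]
  refine inv_anti₀ (Real.exp_pos _) ?_
  rw [← Real.le_log_iff_exp_le (by positivity), Real.log_pow, pow_succ 2 k]
  push_cast
  nlinarith [show (0 : ℝ) < 2 ^ k by positivity]

theorem save2 {y σ L : ℕ} (h : 2 ^ 60 ≤ L) (hσ : 2 ^ σ ≤ L) (hy0 : 0 < y) (hy : y < 2 ^ (L + 1)) :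
    13 * L * ((y : ℝ) / 2 ^ (L / (2 ^ 29 * (σ + 1) ^ 2))) ≤
      (y : ℝ) ^ (1 - 1 / 2 ^ 31 / ((σ : ℝ) + 1) ^ 2) := by
  obtain ⟨l, hl⟩ : ∃ l, l = Nat.log 2 L := ⟨_, rfl⟩
  have l1 : 60 ≤ l := hl ▸ Nat.le_log_of_pow_le one_lt_two h
  have l2 : σ ≤ l := hl ▸ Nat.le_log_of_pow_le one_lt_two hσ
  have l3 : 2 ^ l ≤ L := hl ▸ Nat.pow_log_le_self 2 (by omega)
  have l4 : L < 2 ^ (l + 1) := hl ▸ Nat.lt_pow_succ_log_self one_lt_two L
  have l5 := pow_le_two_pow (2 ^ 33) 1 3 60 (by norm_num) (by norm_num) (by norm_num) l1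
  have hA : 0 < 2 ^ 29 * (σ + 1) ^ 2 := by positivity
  have l6 : 2 * (l + 5) ≤ L / (2 ^ 29 * (σ + 1) ^ 2) := by
    rw [Nat.le_div_iff_mul_le hA]
    calc 2 * (l + 5) * (2 ^ 29 * (σ + 1) ^ 2) ≤ 16 * (l + 1) * (2 ^ 29 * (l + 1) ^ 2) :=
          Nat.mul_le_mul (by omega) (Nat.mul_le_mul_left _ (Nat.pow_le_pow_left (by omega) 2))
      _ = 2 ^ 33 * (l + 1) ^ 3 := by ring
      _ ≤ L := l5.trans l3
  have l7 := Nat.lt_mul_div_succ L hA
  generalize L / (2 ^ 29 * (σ + 1) ^ 2) = N at l6 l7 ⊢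
  have l8 : L + 1 ≤ 2 ^ 29 * (σ + 1) ^ 2 * (2 * N) :=
    Nat.succ_le_of_lt (l7.trans_le (Nat.mul_le_mul_left _ (by omega)))
  have hyR : (0 : ℝ) < y := by exact_mod_cast hy0
  have e1 : (y : ℝ) ^ (1 / 2 ^ 31 / ((σ : ℝ) + 1) ^ 2) ≤ 2 ^ (N - (l + 5)) := by
    rw [← Real.rpow_natCast 2 (N - (l + 5)), Real.rpow_def_of_pos hyR, Real.rpow_def_of_pos two_pos]
    refine Real.exp_le_exp.2 ?_
    have e2 := Real.log_le_log hyR (show (y : ℝ) ≤ 2 ^ (L + 1) by exact_mod_cast hy.le)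
    rw [Real.log_pow] at e2
    have e3 : ((L + 1 : ℕ) : ℝ) ≤ 2 ^ 29 * (σ + 1) ^ 2 * (4 * (N - (l + 5) : ℕ)) := by
      exact_mod_cast l8.trans (Nat.mul_le_mul_left _ (by omega))
    rw [div_div, mul_one_div, div_le_iff₀ (by positivity)]
    have e4 := mul_le_mul_of_nonneg_right e3 (Real.log_pos one_lt_two).le
    linarith
  rw [Real.rpow_sub hyR, Real.rpow_one, ← mul_div_assoc, div_le_div_iff₀ (by positivity)
    (by positivity), mul_right_comm, mul_comm (y : ℝ)]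
  refine mul_le_mul_of_nonneg_right ?_ hyR.le
  have e5 : 13 * (L : ℝ) ≤ 2 ^ (l + 5) := by
    exact_mod_cast (by rw [pow_succ] at l4; rw [pow_add]; omega : 13 * L ≤ 2 ^ (l + 5))
  refine (mul_le_mul e5 e1 (by positivity) (by positivity)).trans ?_
  rw [← pow_add]
  exact two_le (by omega)

theorem key : ∃ C : ℝ, 0 ≤ C ∧ ∀ X y j₀ σ L : ℕ, 2 ^ 60 ≤ j₀ → j₀ ≤ L → 2 ^ σ ≤ L → 2 ^ L ≤ y →
    y < 2 ^ (L + 1) → (((Ioc X (X + y)).filter fun n => C * (1 + Real.log L / 2 ^ σ) <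
      |∑ a ∈ Ioc (2 ^ j₀) y, hh n a - eg * (Real.log L - Real.log j₀)|).card : ℝ) ≤
      y * Real.exp (-Real.exp (j₀ / 2 ^ 31)) + (y : ℝ) ^ (1 - 1 / 2 ^ 31 / ((σ : ℝ) + 1) ^ 2) := by
  obtain ⟨C₁, hC₁, h1⟩ := two mert
  obtain ⟨C₂, hC₂, h2⟩ := blocks_le
  obtain ⟨D, hD, h3⟩ := sqrt_sum
  refine ⟨C₁ * (4 + D) + 15 * C₂ + 15, by positivity, fun X y j₀ σ L a1 a2 a3 a4 a5 => ?_⟩
  obtain ⟨j₂, hj₂⟩ : ∃ j₂, j₂ = max j₀ (L / 2 ^ 14 + 1) := ⟨_, rfl⟩
  have b1 : j₀ ≤ j₂ := by omega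
  have b2 : j₂ ≤ L := by omega
  have hy0 : 0 < y := lt_of_lt_of_le (by positivity) a4
  have hj₀ : (2 : ℝ) ≤ j₀ := by exact_mod_cast (by omega : 2 ≤ j₀)
  have hj₂R : (0 : ℝ) < j₂ := by exact_mod_cast (by omega : 0 < j₂)
  have hL : (0 : ℝ) < L := by exact_mod_cast (by omega : 0 < L)
  have c1 : ∑ j ∈ Ico j₀ j₂, (1 / (j : ℝ)) ^ 2 ≤ 2 / (j₀ : ℝ) := by
    refine ((sum_le_sum_of_subset_of_nonneg (fun j hj => ?_) fun _ _ _ => by positivity).trans
      (inv_sq_tail (j₀ - 1) j₂ (by omega))).trans ?_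
    · simp only [mem_Ico, mem_Ioc] at hj ⊢
      omega
    · rw [Nat.cast_sub (by omega), div_le_div_iff₀ (by push_cast; linarith) (by linarith)]
      push_cast
      linarith
  have c2 : ((Ico j₀ j₂).card : ℝ) ≤ L := by
    rw [Nat.card_Ico]
    exact_mod_cast (by omega : j₂ - j₀ ≤ L)
  obtain ⟨c3, c4⟩ := harm_Ico (show 1 ≤ j₀ by omega) b1
  have c5 : 1 / (j₀ : ℝ) - 1 / j₂ ≤ 1 := by
    linarith [show (0 : ℝ) ≤ 1 / j₂ by positivity,
      div_le_one_of_le₀ (show (1 : ℝ) ≤ j₀ by linarith) (by positivity)]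
  have c6 : Real.log j₂ ≤ Real.log L := Real.log_le_log hj₂R (by exact_mod_cast b2)
  have c7 : Real.log ((L + 1 : ℕ) : ℝ) ≤ Real.log j₂ + 14 := by
    have := Real.log_le_log (by positivity) (show ((L + 1 : ℕ) : ℝ) ≤ 2 ^ 14 * j₂ by
      exact_mod_cast (by omega : L + 1 ≤ 2 ^ 14 * j₂))
    rw [Real.log_mul (by positivity) hj₂R.ne', Real.log_pow] at this
    push_cast at this ⊢
    linarith [Real.log_two_lt_d9]
  have c8 : Real.log L ≤ Real.log ((L + 1 : ℕ) : ℝ) := Real.log_le_log hL (by push_cast; linarith)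
  have c9 : 0 ≤ Real.log j₀ := Real.log_nonneg (by linarith)
  set N := L / (2 ^ 29 * (σ + 1) ^ 2) with hN
  have hsub : (Ioc X (X + y)).filter (fun n => (C₁ * (4 + D) + 15 * C₂ + 15) *
      (1 + Real.log L / 2 ^ σ) <
        |∑ a ∈ Ioc (2 ^ j₀) y, hh n a - eg * (Real.log L - Real.log j₀)|) ⊆
      range (2 * 2 ^ (L / 2 ^ 14) + 1) ∪ (Ico j₀ j₂).biUnion fun j =>
        (Ioc X (X + y)).filter fun n => 2 * 2 ^ j < n ∧
          C₁ * (1 / 2 ^ σ * (1 / j) + j₀ * (1 / (j : ℝ)) ^ 2 + 1 / L + 1 / (j * √j)) <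
            |blk n j - eg / j| := by
    intro n hn
    obtain ⟨d1, d2⟩ := mem_filter.1 hn
    by_contra hc
    simp only [mem_union, mem_range, mem_biUnion, mem_filter, not_or, not_exists, not_and,
      not_lt] at hc
    have d3 := (abs_sum_le_sum_abs _ _).trans (sum_le_sum fun j (hj : j ∈ Ico j₀ j₂) =>
      hc.2 j hj d1 (by
        have := Nat.pow_le_pow_right two_pos
          (show j ≤ L / 2 ^ 14 by have := mem_Ico.1 hj; omega)
        omega))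
    simp only [div_eq_mul_one_div eg] at d3
    rw [sum_sub_distrib, ← blocks n b1, ← mul_sum, ← mul_sum, sum_add_distrib, sum_add_distrib,
      sum_add_distrib, ← mul_sum, ← mul_sum, sum_const, nsmul_eq_mul] at d3
    have d4 := sum_Ioc_consecutive (hh n) (Nat.pow_le_pow_right two_pos b1)
      ((Nat.pow_le_pow_right two_pos b2).trans a4)
    have d5 : 0 ≤ ∑ a ∈ Ioc (2 ^ j₂) y, hh n a := sum_nonneg fun _ _ => hh_nonneg _ _
    have d6 := (sum_le_sum_of_subset_of_nonneg (Ioc_subset_Ioc_right a5.le)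
      fun a _ _ => hh_nonneg n a).trans ((h2 n j₂ (L + 1) (by omega) (by omega)).trans
        (mul_le_mul_of_nonneg_left (show _ ≤ (15 : ℝ) by linarith) hC₂))
    have d7 : 1 / (2 : ℝ) ^ σ * ∑ j ∈ Ico j₀ j₂, 1 / (j : ℝ) ≤ Real.log L / 2 ^ σ + 1 := by
      refine (mul_le_mul_of_nonneg_left (show _ ≤ Real.log L + 1 by linarith)
        (by positivity)).trans ?_
      rw [mul_add, one_div_mul_eq_div, mul_one]
      exact add_le_add le_rfl (div_le_one_of_le₀ (one_le_pow₀ one_le_two) (by positivity))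
    have d8 : (j₀ : ℝ) * ∑ j ∈ Ico j₀ j₂, (1 / (j : ℝ)) ^ 2 ≤ 2 :=
      (mul_le_mul_of_nonneg_left c1 (by positivity)).trans_eq (by field_simp)
    have d9 : ((Ico j₀ j₂).card : ℝ) * (1 / L) ≤ 1 := by
      rw [mul_one_div]
      exact div_le_one_of_le₀ c2 hL.le
    have d10 := d3.trans (mul_le_mul_of_nonneg_left
      (add_le_add (add_le_add (add_le_add d7 d8) d9) (h3 _)) hC₁)
    have d11 : 0 ≤ Real.log L / 2 ^ σ := div_nonneg (Real.log_natCast_nonneg L) (by positivity)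
    have d12 := mul_nonneg d11 (show 0 ≤ C₁ * (3 + D) + 15 * C₂ + 15 by positivity)
    obtain ⟨d13, d14⟩ := abs_le.1 d10
    have d15 := mul_le_mul eg_le (show ∑ j ∈ Ico j₀ j₂, 1 / (j : ℝ) -
      (Real.log j₂ - Real.log j₀) ≤ 1 by linarith) (by linarith) zero_le_one
    have d16 := mul_nonneg eg_pos.le (sub_nonneg.2 c3)
    have d17 := mul_le_mul eg_le (show Real.log L - Real.log j₂ ≤ 14 by linarith)
      (by linarith) zero_le_one
    have d18 := mul_nonneg eg_pos.le (sub_nonneg.2 c6)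
    refine d2.not_ge (abs_le.2 ⟨?_, ?_⟩) <;> linarith
  have e1 := (card_le_card hsub).trans ((card_union_le _ _).trans
    (add_le_add le_rfl card_biUnion_le))
  rw [card_range, ← Nat.cast_le (α := ℝ), Nat.cast_add, Nat.cast_sum] at e1
  have e2 := sum_le_sum fun j (hj : j ∈ Ico j₀ j₂) => h1 L j₀ σ j X y a1 (mem_Ico.1 hj).1
    (by have := mem_Ico.1 hj; omega) a4
  rw [sum_add_distrib, ← mul_sum, sum_const, nsmul_eq_mul] at e2
  have e3 : ((2 * 2 ^ (L / 2 ^ 14) + 1 : ℕ) : ℝ) ≤ y / 2 ^ N := by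
    rw [le_div_iff₀ (by positivity)]
    have f1 : 2 * 2 ^ (L / 2 ^ 14) + 1 ≤ 2 ^ (L / 2 ^ 14 + 2) := by
      have := Nat.one_le_two_pow (n := L / 2 ^ 14)
      rw [pow_add]
      omega
    have f2 : N ≤ L / 2 := Nat.div_le_div_left
      (le_trans (by norm_num) (Nat.le_mul_of_pos_right _ (by positivity))) two_pos
    have f3 := (Nat.mul_le_mul_right (2 ^ N) f1).trans (show _ ≤ y by
      rw [← pow_add]
      exact (Nat.pow_le_pow_right two_pos (by omega)).trans a4)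
    exact_mod_cast f3
  have e4 := save2 (a1.trans a2) a3 hy0 a5
  have e5 := mul_le_mul_of_nonneg_left (save1 a1) (Nat.cast_nonneg (α := ℝ) y)
  have e6 := mul_le_mul_of_nonneg_left (c1.trans (div_le_one_of_le₀ hj₀ (by positivity)))
    (show (0 : ℝ) ≤ y / 2 ^ 2 ^ (j₀ / 2 ^ 27 - 1) by positivity)
  have e7 := mul_le_mul_of_nonneg_right c2 (show (0 : ℝ) ≤ 12 * (y / 2 ^ N) by positivity)
  have e8 := mul_le_mul_of_nonneg_right (show (1 : ℝ) ≤ L by exact_mod_cast (by omega : 1 ≤ L))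
    (show (0 : ℝ) ≤ y / 2 ^ N by positivity)
  rw [mul_one_div] at e5
  rw [← hN] at e2 e4
  linarith

end Pool.Agent.MP_d228e7_nt.T

end
end

section

/-!
The normal order, with tails.
-/

set_option autoImplicit false

open Finset

noncomputable section

namespace Pool.Agent.MP_d228e7_nt.T

open Pool.Agent.MP_cebb75_nt Pool.Agent.MP_fdd1d3_nt N435e839e

theorem ss_eq (n y : ℕ) :
    ∑ a ∈ (selected true n).filter (· ≤ y), (1 : ℝ) / a = ∑ a ∈ Ioc 0 y, hh n a := by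
  simp only [hh, sum_ite_mem]
  refine sum_congr (Finset.ext fun a => ?_) fun _ _ => rfl
  simp only [mem_filter, mem_inter, mem_Ioc]
  exact ⟨fun h => ⟨⟨(mem_filter.1 h.1).2.1, h.2⟩, h.1⟩, fun h => ⟨h.2, h.1.2⟩⟩

theorem hh_le_one (n a : ℕ) : hh n a ≤ 1 := by
  unfold hh
  split_ifs with h
  · exact div_le_one_of_le₀ (by exact_mod_cast (mem_filter.1 h).2.1) (by positivity)
  · exact zero_le_one

theorem head : ∃ C : ℝ, 0 ≤ C ∧ ∀ n j : ℕ, 1 ≤ j →
    ∑ a ∈ Ioc 0 (2 ^ j), hh n a ≤ C * (1 + Real.log j) := by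
  obtain ⟨C, hC, h⟩ := blocks_le
  refine ⟨C + 2, by positivity, fun n j hj => ?_⟩
  have h1 := h n 1 j le_rfl hj
  have h2 := sum_le_card_nsmul (Ioc 0 (2 ^ 1)) (hh n) 1 fun a _ => hh_le_one n a
  rw [← sum_Ioc_consecutive _ (Nat.zero_le _) (Nat.pow_le_pow_right two_pos hj)]
  norm_num at h1 h2 ⊢
  linarith [Real.log_natCast_nonneg j]

theorem loglog {y L : ℕ} (hL : 3 ≤ L) (h1 : 2 ^ L ≤ y) (h2 : y < 2 ^ (L + 1)) :
    0 ≤ Real.log (Real.log y) ∧ Real.log (Real.log y) ≤ Real.log L ∧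
      Real.log L ≤ Real.log (Real.log y) + 1 ∧ (L : ℝ) ≤ 2 * Real.log y := by
  have hLR : (3 : ℝ) ≤ L := by exact_mod_cast hL
  have a1 := Real.log_le_log (by positivity) (show (2 : ℝ) ^ L ≤ y by exact_mod_cast h1)
  have a2 := Real.log_le_log (show (0 : ℝ) < y by exact_mod_cast lt_of_lt_of_le (by positivity) h1)
    (show (y : ℝ) ≤ 2 ^ (L + 1) by exact_mod_cast h2.le)
  rw [Real.log_pow] at a1 a2
  push_cast at a2
  have l1 := Real.log_two_gt_d9
  have l2 := Real.log_two_lt_d9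
  have a3 : (L : ℝ) ≤ 2 * Real.log y := by nlinarith
  have a4 := Real.log_le_log (by linarith) a3
  rw [Real.log_mul (by norm_num) (by linarith)] at a4
  exact ⟨Real.log_nonneg (by linarith), Real.log_le_log (by linarith) (by nlinarith), by linarith, a3⟩

theorem two_pow_le_exp (k : ℕ) : (2 : ℝ) ^ k ≤ Real.exp k := by
  rw [← Real.exp_one_pow]
  exact pow_le_pow_left₀ (by norm_num) (by linarith [Real.exp_one_gt_d9]) k

theorem ceil_le {x : ℝ} (hx : 1 ≤ x) : (⌈x⌉₊ : ℝ) ≤ 2 * x := by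
  linarith [Nat.ceil_lt_add_one (show 0 ≤ x by linarith)]

theorem normal : ∃ c C : ℝ, 0 < c ∧ 0 < C ∧ ∀ X y : ℕ, 8 ≤ y → ∀ t : ℝ, C ≤ t →
    (((Ioc X (X + y)).filter fun n =>
      t < |∑ a ∈ Ioc 0 y, hh n a - eg * Real.log (Real.log y)|).card : ℝ) ≤
      y * Real.exp (-Real.exp (Real.exp (c * t))) +
        (y : ℝ) ^ (1 - c / Real.log (2 + Real.log (Real.log y) / t) ^ 2) := by
  obtain ⟨C₁, hC₁, h1⟩ := key
  obtain ⟨C₂, hC₂, h2⟩ := head
  obtain ⟨A, hA⟩ : ∃ A, A = C₁ + C₂ + 1 := ⟨_, rfl⟩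
  have hA1 : 1 ≤ A := by linarith
  refine ⟨min (1 / (8 * A)) (1 / 2 ^ 31 / (12 + 16 * C₁) ^ 2), 248 * A, by positivity,
    by positivity, fun X y hy t ht => ?_⟩
  obtain ⟨L, hL⟩ : ∃ L, L = Nat.log 2 y := ⟨_, rfl⟩
  have a1 : 2 ^ L ≤ y := hL ▸ Nat.pow_log_le_self 2 (by omega)
  have a2 : y < 2 ^ (L + 1) := hL ▸ Nat.lt_pow_succ_log_self one_lt_two y
  have a3 : 3 ≤ L := hL ▸ Nat.le_log_of_pow_le one_lt_two hy
  obtain ⟨l1, l2, l3, -⟩ := loglog a3 a1 a2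
  set ll := Real.log (Real.log y)
  have ht0 : 0 < t := by linarith
  have b1 : 31 ≤ t / (8 * A) := by rw [le_div_iff₀ (by positivity)]; linarith
  have b2 : (2 : ℝ) ^ 31 ≤ Real.exp (t / (8 * A)) :=
    (two_pow_le_exp 31).trans (Real.exp_le_exp.2 (by exact_mod_cast b1))
  have b3 : Real.exp (t / (4 * A)) = Real.exp (t / (8 * A)) * Real.exp (t / (8 * A)) := by
    rw [← Real.exp_add]
    congr 1
    field_simp
    norm_num
  obtain ⟨j, hj⟩ : ∃ j, j = ⌈Real.exp (t / (4 * A))⌉₊ := ⟨_, rfl⟩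
  have b4 : Real.exp (t / (4 * A)) ≤ j := hj ▸ Nat.le_ceil _
  have b5 : 2 ^ 31 * Real.exp (t / (8 * A)) ≤ j :=
    (mul_le_mul_of_nonneg_right b2 (by positivity)).trans (b3 ▸ b4)
  have b6 : 2 ^ 60 ≤ j := by exact_mod_cast (by linarith : (2 : ℝ) ^ 60 ≤ j)
  have b7 : A * (1 + Real.log j) ≤ t / 2 := by
    have c1 := Real.log_le_log (by exact_mod_cast (by omega : 0 < j))
      (hj ▸ ceil_le (Real.one_le_exp (by positivity)) : (j : ℝ) ≤ 2 * Real.exp (t / (4 * A)))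
    rw [Real.log_mul (by norm_num) (by positivity), Real.log_exp] at c1
    have c2 : A * (t / (4 * A)) = t / 4 := by field_simp
    nlinarith [Real.log_two_lt_d9]
  have b8 := Real.log_natCast_nonneg j
  have b9 := mul_nonneg eg_pos.le l1
  have b10 := mul_le_mul_of_nonneg_right eg_le l1
  rcases lt_or_ge L j with hc | hc
  · rw [filter_false_of_mem fun n _ => not_lt.2 ?_, card_empty, Nat.cast_zero]
    · positivity
    have c1 := (sum_le_sum_of_subset_of_nonneg (Ioc_subset_Ioc_right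
      (a2.le.trans (Nat.pow_le_pow_right two_pos hc))) fun a _ _ => hh_nonneg n a).trans
      (h2 n j (by omega))
    have c2 : 0 ≤ ∑ a ∈ Ioc 0 y, hh n a := sum_nonneg fun _ _ => hh_nonneg _ _
    have c3 : Real.log L ≤ Real.log j :=
      Real.log_le_log (by exact_mod_cast (by omega : 0 < L)) (by exact_mod_cast hc.le)
    rw [hA] at b7
    rw [abs_le]
    constructor <;> nlinarith [mul_nonneg hC₁ b8, mul_nonneg hC₂ b8]
  have hLR : (2 : ℝ) ^ 60 ≤ L := by exact_mod_cast b6.trans hc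
  have d0 := Real.log_natCast_nonneg L
  obtain ⟨m, hm⟩ : ∃ m, m = ⌈2 * C₁ * Real.log L / t⌉₊ := ⟨_, rfl⟩
  obtain ⟨σ, hσ⟩ : ∃ σ, σ = Nat.log 2 m + 1 := ⟨_, rfl⟩
  have d1 : C₁ * (Real.log L / 2 ^ σ) ≤ t / 2 := by
    have c1 : 2 * C₁ * Real.log L / t ≤ 2 ^ σ := (hm ▸ Nat.le_ceil _ : _ ≤ (m : ℝ)).trans
      (by rw [hσ]; exact_mod_cast (Nat.lt_pow_succ_log_self one_lt_two m).le)
    rw [div_le_iff₀ ht0] at c1
    rw [← mul_div_assoc, div_le_iff₀ (by positivity)]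
    linarith
  have d2 : (2 : ℝ) ^ σ ≤ 4 * C₁ * (Real.log L / t) + 4 := by
    have c1 : 2 ^ σ ≤ 2 * m + 2 := by
      rcases Nat.eq_zero_or_pos m with rfl | h
      · simp [hσ]
      · have := Nat.pow_log_le_self 2 h.ne'
        rw [hσ, pow_succ]
        omega
    have c2 : (m : ℝ) < 2 * C₁ * Real.log L / t + 1 := hm ▸ Nat.ceil_lt_add_one (by positivity)
    have c3 : (2 : ℝ) ^ σ ≤ 2 * m + 2 := by exact_mod_cast c1
    rw [mul_div_assoc] at c2
    linarith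
  have d3 : 4 * C₁ * (1 / t) ≤ 1 := by
    rw [mul_one_div]
    exact div_le_one_of_le₀ (by linarith) ht0.le
  have d4 : 2 ^ σ ≤ L := by
    have c1 := Real.log_le_sub_one_of_pos (show (0 : ℝ) < L / 2 by linarith)
    rw [Real.log_div (by linarith) (by norm_num)] at c1
    have c2 := mul_le_mul_of_nonneg_right d3 d0
    rw [div_eq_mul_one_div] at d2
    exact_mod_cast (by linarith [Real.log_two_lt_d9] : (2 : ℝ) ^ σ ≤ L)
  have d5 : 0 ≤ ll / t := by positivity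
  have d6 : Real.log 2 ≤ Real.log (2 + ll / t) := Real.log_le_log two_pos (by linarith)
  have l4 := Real.log_two_gt_d9
  have d7 : (σ : ℝ) + 1 ≤ (12 + 16 * C₁) * Real.log (2 + ll / t) := by
    have c1 : (2 : ℝ) ^ σ ≤ (4 * C₁ + 3) * (2 + ll / t) := by
      have c2 := mul_le_mul_of_nonneg_left (div_le_div_of_nonneg_right l3 ht0.le)
        (show 0 ≤ 4 * C₁ by positivity)
      rw [add_div] at c2
      nlinarith
    have c2 := Real.log_le_log (by positivity) c1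
    rw [Real.log_pow, Real.log_mul (by positivity) (by positivity)] at c2
    have c3 := Real.log_le_sub_one_of_pos (show 0 < 4 * C₁ + 3 by positivity)
    nlinarith [Nat.cast_nonneg (α := ℝ) σ, mul_le_mul_of_nonneg_left d6 hC₁]
  refine le_trans (Nat.cast_le.2 (card_le_card (monotone_filter_right _ fun n _ hn => ?_)))
    ((h1 X y j σ L b6 hc d4 a1 a2).trans (add_le_add ?_ ?_))
  · by_contra hn'
    obtain ⟨c1, c2⟩ := abs_le.1 (not_lt.1 hn')
    have c3 := sum_Ioc_consecutive (hh n) (Nat.zero_le _)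
      ((Nat.pow_le_pow_right two_pos hc).trans a1)
    have c4 := h2 n j (by omega)
    have c5 : 0 ≤ ∑ a ∈ Ioc 0 (2 ^ j), hh n a := sum_nonneg fun _ _ => hh_nonneg _ _
    have c6 := mul_nonneg eg_pos.le b8
    have c7 := mul_le_mul_of_nonneg_right eg_le b8
    have c8 := mul_nonneg eg_pos.le (sub_nonneg.2 l2)
    have c9 := mul_le_mul eg_le (show Real.log L - ll ≤ 1 by linarith) (by linarith) zero_le_one
    rw [hA] at b7
    refine hn.not_ge (abs_le.2 ⟨?_, ?_⟩) <;> linarith [mul_nonneg hC₁ b8, mul_nonneg hC₂ b8]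
  · refine mul_le_mul_of_nonneg_left (Real.exp_le_exp.2 (neg_le_neg (Real.exp_le_exp.2 ?_)))
      (by positivity)
    rw [le_div_iff₀' (by positivity)]
    refine le_trans (mul_le_mul_of_nonneg_left (Real.exp_le_exp.2 ?_) (by positivity)) b5
    exact (mul_le_mul_of_nonneg_right (min_le_left _ _) ht0.le).trans_eq (one_div_mul_eq_div _ _)
  · refine Real.rpow_le_rpow_of_exponent_le (by exact_mod_cast (by omega : 1 ≤ y))
      (sub_le_sub_left ((div_le_div_of_nonneg_right (min_le_right _ _) (by positivity)).trans ?_) _)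
    rw [div_div (1 / 2 ^ 31 : ℝ), ← mul_pow]
    exact div_le_div_of_nonneg_left (by positivity) (by positivity)
      (pow_le_pow_left₀ (by positivity) d7 2)

end Pool.Agent.MP_d228e7_nt.T

end
end
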